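import Mathlib
import Pool.Agent.Work.MP_b5285d_nt.Stmts

/-! Bundle of small proof modules (one section per former module). -/

section

/-!
# MP_b5285d_nt: certified upper bounds for the number of primes in intervals

Numbers coprime to a primorial are counted by the kernel.
-/

namespace OddCov

open Finset

/-- `1` if `gcd a P = 1`, else `0` -/
abbrev ind (P a : ℕ) : ℕ := cond (Nat.beq (Nat.gcd a P) 1) 1 0

/-- number of `i < L` with `gcd (a + 2 i) P = 1` -/
def cf (P a L : ℕ) : ℕ := ∑ i ∈ range L, ind P (a + 2 * i)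

/-- one after the other -/
def cnt1 (P : ℕ) : ℕ → ℕ → ℕ
  | 0, _ => 0
  | L + 1, a => Nat.add (ind P a) (cnt1 P L (Nat.add a 2))

/-- `2 ^ (k + 3)` numbers -/
def cntB (P : ℕ) : ℕ → ℕ → ℕ
  | 0, a => Nat.add
      (Nat.add (Nat.add (ind P a) (ind P (Nat.add a 2)))
        (Nat.add (ind P (Nat.add a 4)) (ind P (Nat.add a 6))))
      (Nat.add (Nat.add (ind P (Nat.add a 8)) (ind P (Nat.add a 10)))
        (Nat.add (ind P (Nat.add a 12)) (ind P (Nat.add a 14))))
  | k + 1, a => Nat.add (cntB P k a) (cntB P k (Nat.add a (Nat.pow 2 (k + 4))))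

/-- `L` numbers, binary decomposition of `L` -/
def cntA (P : ℕ) : ℕ → ℕ → ℕ → ℕ
  | 0, L, a => cnt1 P L a
  | k + 1, L, a => cond (Nat.ble (Nat.pow 2 (k + 3)) L)
      (Nat.add (cntB P k a)
        (cntA P k (Nat.sub L (Nat.pow 2 (k + 3))) (Nat.add a (Nat.pow 2 (k + 4)))))
      (cntA P k L a)

theorem cf_add (P a L M : ℕ) : cf P a (L + M) = cf P a L + cf P (a + 2 * L) M := by
  unfold cf
  rw [Finset.sum_range_add]
  congr 1
  refine Finset.sum_congr rfl fun i _ => ?_
  congr 1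
  ring

theorem cf_succ (P a L : ℕ) : cf P a (L + 1) = ind P a + cf P (a + 2) L := by
  rw [add_comm L 1, cf_add]
  simp [cf]

theorem cnt1_eq (P : ℕ) : ∀ L a, cnt1 P L a = cf P a L := by
  intro L
  induction L with
  | zero => intro a; rfl
  | succ L ih =>
    intro a
    rw [cf_succ, ← ih]
    rfl

theorem cntB_eq (P : ℕ) : ∀ k a, cntB P k a = cf P a (2 ^ (k + 3)) := by
  intro k
  induction k with
  | zero =>
    intro a
    have e : 2 ^ (0 + 3) = 0 + 1 + 1 + 1 + 1 + 1 + 1 + 1 + 1 := by norm_num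
    rw [e]
    simp only [cf_succ]
    have e0 : ∀ b, cf P b 0 = 0 := fun b => by simp [cf]
    rw [e0]
    simp only [cntB, Nat.add_eq, add_assoc]
    norm_num
  | succ k ih =>
    intro a
    have e : 2 ^ (k + 1 + 3) = 2 ^ (k + 3) + 2 ^ (k + 3) := by ring
    have e2 : Nat.add a (Nat.pow 2 (k + 4)) = a + 2 * 2 ^ (k + 3) := by
      show a + 2 ^ (k + 4) = _
      ring
    rw [e, cf_add, ← ih, ← ih, cntB, e2]
    rfl

theorem cntA_eq (P : ℕ) : ∀ k L a, cntA P k L a = cf P a L := by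
  intro k
  induction k with
  | zero => intro L a; exact cnt1_eq P L a
  | succ k ih =>
    intro L a
    by_cases h : 2 ^ (k + 3) ≤ L
    · have hb : Nat.ble (Nat.pow 2 (k + 3)) L = true := Nat.ble_eq_true_of_le h
      have e2 : Nat.add a (Nat.pow 2 (k + 4)) = a + 2 * 2 ^ (k + 3) := by
        show a + 2 ^ (k + 4) = _
        ring
      rw [cntA, hb, cond_true, ih, cntB_eq, e2]
      have e3 : L = 2 ^ (k + 3) + (L - 2 ^ (k + 3)) := by omega
      conv_rhs => rw [e3, cf_add]
      rfl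
    · have hb : Nat.ble (Nat.pow 2 (k + 3)) L = false := by
        rw [Bool.eq_false_iff]
        intro hh
        exact h (Nat.le_of_ble_eq_true hh)
      rw [cntA, hb, cond_false, ih]

/-- the odd numbers in `[a, b)` which are coprime to `P` -/
def cntP (P a b : ℕ) : ℕ :=
  cond (Nat.beq (a % 2) 1) (cntA P 14 ((b + 1 - a) / 2) a) (cntA P 14 ((b - a) / 2) (a + 1))

theorem primes_le_cf {P N : ℕ} (hP : P ∣ N.factorial) {a b L : ℕ} (ha : a % 2 = 1)
    (hN : N < a) (hb : b ≤ a + 2 * L) (ha3 : 3 ≤ a) :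
    ((Ico a b).filter Nat.Prime).card ≤ cf P a L := by
  have hcf : cf P a L = ((range L).filter fun i => Nat.gcd (a + 2 * i) P = 1).card := by
    unfold cf
    rw [Finset.card_filter]
    refine Finset.sum_congr rfl fun i _ => ?_
    by_cases h : Nat.gcd (a + 2 * i) P = 1
    · simp [ind, h]
    · have hb : Nat.beq (Nat.gcd (a + 2 * i) P) 1 = false := by
        rw [Bool.eq_false_iff]
        intro hh
        exact h (Nat.eq_of_beq_eq_true hh)
      simp [ind, h, hb]
  rw [hcf]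
  have hsub : ((Ico a b).filter Nat.Prime) ⊆
      ((range L).filter fun i => Nat.gcd (a + 2 * i) P = 1).image fun i => a + 2 * i := by
    intro q hq
    rw [Finset.mem_filter, Finset.mem_Ico] at hq
    obtain ⟨⟨h1, h2⟩, h3⟩ := hq
    rw [Finset.mem_image]
    have hq2 : q ≠ 2 := by
      rintro rfl
      omega
    have hodd : q % 2 = 1 := Nat.odd_iff.mp (h3.odd_of_ne_two hq2)
    refine ⟨(q - a) / 2, ?_, by omega⟩
    rw [Finset.mem_filter, Finset.mem_range]
    refine ⟨by omega, ?_⟩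
    have e : a + 2 * ((q - a) / 2) = q := by omega
    rw [e]
    refine (Nat.Prime.coprime_iff_not_dvd h3).mpr fun hd => ?_
    have := (Nat.Prime.dvd_factorial h3).mp (hd.trans hP)
    omega
  exact (Finset.card_le_card hsub).trans Finset.card_image_le

theorem primes_le_cntP {P N : ℕ} (hP : P ∣ N.factorial) {a b : ℕ} (hN : N < a) (ha3 : 3 ≤ a) :
    ((Ico a b).filter Nat.Prime).card ≤ cntP P a b := by
  unfold cntP
  rcases Nat.mod_two_eq_zero_or_one a with h | h
  · have hb : Nat.beq (a % 2) 1 = false := by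
      rw [h]
      rfl
    rw [hb, cond_false, cntA_eq]
    have hsub : (Ico a b).filter Nat.Prime ⊆ (Ico (a + 1) b).filter Nat.Prime := by
      intro q hq
      rw [Finset.mem_filter, Finset.mem_Ico] at hq ⊢
      refine ⟨⟨?_, hq.1.2⟩, hq.2⟩
      have hq2 : q ≠ 2 := by
        rintro rfl
        omega
      have hodd : q % 2 = 1 := Nat.odd_iff.mp (hq.2.odd_of_ne_two hq2)
      omega
    refine (Finset.card_le_card hsub).trans ?_
    exact primes_le_cf hP (by omega) (by omega) (by omega) (by omega)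
  · have hb : Nat.beq (a % 2) 1 = true := by
      rw [h]
      rfl
    rw [hb, cond_true, cntA_eq]
    exact primes_le_cf hP h hN (by omega) ha3

/-- product of the primes below 1000 -/
def P1000 : ℕ :=
  19590340644999083431262508198206381046123972390589368223882605328968666316379870661851951648789482321596229559115436019149189529725215266728292282990852649023362731392404017939142010958261393634959471483757196721672243410067118516227661133135192488848989914892157188308679896875137439519338903968094905549750386407106033836586660683539201011635917900039904495065203299749542985993134669814805318474080581207891125910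

/-- product of the primes up to 31 -/
def P31 : ℕ := 200560490130

theorem P1000_dvd : P1000 ∣ (1000).factorial := by
  rw [← Nat.modEq_zero_iff_dvd]
  decide +kernel

theorem P31_dvd : P31 ∣ (31).factorial := by
  rw [← Nat.modEq_zero_iff_dvd]
  decide +kernel

/-- the check for one block -/
def bndOK (a b n : ℕ) : Bool :=
  cond (Nat.ble 1001 a) (Nat.ble (cntP P1000 a b) n)
    (cond (Nat.ble 32 a) (Nat.ble (cntP P31 a b) n)
      (cond (Nat.ble 6 a) (Nat.ble (cntP 30 a b) n)
        (cond (Nat.ble 4 a) (Nat.ble (cntP 6 a b) n) false)))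

theorem card_of_bndOK {a b n : ℕ} (h : bndOK a b n = true) :
    ((Ico a b).filter Nat.Prime).card ≤ n := by
  unfold bndOK at h
  cases h1 : Nat.ble 1001 a with
  | true =>
    rw [h1, cond_true] at h
    have := Nat.le_of_ble_eq_true h1
    exact (primes_le_cntP P1000_dvd (by omega) (by omega)).trans (Nat.le_of_ble_eq_true h)
  | false =>
    rw [h1, cond_false] at h
    cases h2 : Nat.ble 32 a with
    | true =>
      rw [h2, cond_true] at h
      have := Nat.le_of_ble_eq_true h2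
      exact (primes_le_cntP P31_dvd (by omega) (by omega)).trans (Nat.le_of_ble_eq_true h)
    | false =>
      rw [h2, cond_false] at h
      cases h3 : Nat.ble 6 a with
      | true =>
        rw [h3, cond_true] at h
        have := Nat.le_of_ble_eq_true h3
        exact (primes_le_cntP (N := 5) (by decide) (by omega) (by omega)).trans
          (Nat.le_of_ble_eq_true h)
      | false =>
        rw [h3, cond_false] at h
        cases h4 : Nat.ble 4 a with
        | true =>
          rw [h4, cond_true] at h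
          have := Nat.le_of_ble_eq_true h4
          exact (primes_le_cntP (N := 3) (by decide) (by omega) (by omega)).trans
            (Nat.le_of_ble_eq_true h)
        | false =>
          rw [h4, cond_false] at h
          exact absurd h (by decide)

/-- the check for a list of blocks `(a, n, _)` below `b` -/
def listOK : ℕ → List (ℕ × ℕ × ℕ) → Bool
  | _, [] => true
  | b, (a, n, _) :: l => bndOK a b n && listOK a l

end OddCov

end

section

/-!
# Item A1: chords of a convex sequence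
-/

namespace OddCov

open Finset

theorem Conv.incr_mono {f : ℕ → ℝ} (hf : Conv f) : Monotone (fun i => f (i + 1) - f i) :=
  monotone_nat_of_le_succ fun t => by
    have := hf.conv t
    show f (t + 1) - f t ≤ f (t + 1 + 1) - f (t + 1)
    linarith

theorem sum_incr (f : ℕ → ℝ) (c m : ℕ) :
    f (c + m) - f c = ∑ i ∈ range m, (f (c + i + 1) - f (c + i)) := by
  induction m with
  | zero => simp
  | succ m ih =>
    rw [Finset.sum_range_succ, ← ih, ← add_assoc]
    ring

theorem stmtChord : StmtChord := by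
  intro f hf a b k n hab hkn
  have hD := hf.incr_mono
  have h1 : f (a + k) - f a ≤ f (b + k) - f b := by
    rw [sum_incr f a k, sum_incr f b k]
    exact Finset.sum_le_sum fun i _ => hD (show a + i ≤ b + i by omega)
  have h2 : (f (b + k) - f b) * n ≤ k * (f (b + n) - f b) := by
    induction n, hkn using Nat.le_induction with
    | base => exact le_of_eq (mul_comm _ _)
    | succ n hkn ih =>
      have h3 : f (b + k) - f b ≤ k * (f (b + n + 1) - f (b + n)) := by
        rw [sum_incr f b k]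
        calc ∑ i ∈ range k, (f (b + i + 1) - f (b + i))
            ≤ ∑ _i ∈ range k, (f (b + n + 1) - f (b + n)) :=
              Finset.sum_le_sum fun i hi => hD (show b + i ≤ b + n by
                have := mem_range.mp hi
                omega)
          _ = k * (f (b + n + 1) - f (b + n)) := by
              rw [Finset.sum_const, card_range, nsmul_eq_mul]
      rw [← add_assoc]
      push_cast
      nlinarith [ih, h3]
  exact (mul_le_mul_of_nonneg_right h1 (Nat.cast_nonneg n)).trans h2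

end OddCov

end

section

/-!
# Item B2: size of a residue class in `range (p ^ γ)`
-/

namespace OddCov

open Finset

theorem stmtClassCard : StmtClassCard := by
  intro p γ j c hp hj
  have hr : 0 < p ^ j := pow_pos hp j
  have hr' : (0 : ℤ) < ((p ^ j : ℕ) : ℤ) := by exact_mod_cast hr
  obtain ⟨v, hv⟩ := Int.eq_ofNat_of_zero_le (Int.emod_nonneg c hr'.ne')
  have hiff : ∀ y : ℕ, c ≡ (y : ℤ) [ZMOD ((p ^ j : ℕ) : ℤ)] ↔ y ≡ v [MOD p ^ j] := by
    intro y
    have hcv : c ≡ (v : ℤ) [ZMOD ((p ^ j : ℕ) : ℤ)] := by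
      rw [← hv]
      exact (Int.mod_modEq c _).symm
    constructor
    · intro h
      exact Int.natCast_modEq_iff.mp (h.symm.trans hcv)
    · intro h
      exact hcv.trans (Int.natCast_modEq_iff.mpr h).symm
  have h1 : ((range (p ^ γ)).filter fun y : ℕ => c ≡ (y : ℤ) [ZMOD ((p ^ j : ℕ) : ℤ)]) =
      (range (p ^ γ)).filter fun y : ℕ => y ≡ v [MOD p ^ j] :=
    Finset.filter_congr fun y _ => hiff y
  rw [h1, ← Nat.count_eq_card_filter_range, Nat.count_modEq_card _ hr]
  have h2 : p ^ γ = p ^ j * p ^ (γ - j) := by rw [← pow_add, Nat.add_sub_cancel' hj]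
  rw [h2, Nat.mul_mod_right, Nat.mul_div_cancel_left _ hr]
  simp

end OddCov

end

section

/-!
# C4: the new potentials of level `i ≥ 1`
-/

set_option autoImplicit false

namespace OddCov

open Finset

namespace ConvAux

theorem inc_mono {f : ℕ → ℝ} (hc : Conv f) {a b : ℕ} (hab : a ≤ b) :
    f (a + 1) - f a ≤ f (b + 1) - f b := by
  have hm : Monotone (fun t => f (t + 1) - f t) := by
    refine monotone_nat_of_le_succ fun n => ?_
    have := hc.conv n
    change f (n + 1) - f n ≤ f (n + 1 + 1) - f (n + 1)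
    linarith
  exact hm hab

theorem shift_mono {f : ℕ → ℝ} (hc : Conv f) (m : ℕ) {a b : ℕ} (hab : a ≤ b) :
    f (a + m) - f a ≤ f (b + m) - f b := by
  have hm : Monotone (fun t => f (t + m) - f t) := by
    refine monotone_nat_of_le_succ fun n => ?_
    have h1 := inc_mono hc (Nat.le_add_right n m)
    have e : n + 1 + m = n + m + 1 := by omega
    change f (n + m) - f n ≤ f (n + 1 + m) - f (n + 1)
    rw [e]
    linarith
  exact hm hab

theorem dil {f : ℕ → ℝ} (hc : Conv f) (m t : ℕ) :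
    2 * f (m * (t + 1)) ≤ f (m * t) + f (m * (t + 2)) := by
  have h1 := shift_mono hc m (Nat.le_add_right (m * t) m)
  have e1 : m * (t + 1) = m * t + m := by ring
  have e2 : m * (t + 2) = m * t + m + m := by ring
  rw [e1, e2]
  linarith

theorem lw_nonneg {p : ℕ} (hp : 2 ≤ p) (γ j : ℕ) : 0 ≤ lw p γ j := by
  have hp0 : (0 : ℝ) < (p : ℝ)⁻¹ := by positivity
  have hp1 : (p : ℝ)⁻¹ ≤ 1 := by
    apply inv_le_one_of_one_le₀
    exact_mod_cast (by omega : 1 ≤ p)
  unfold lw
  split_ifs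
  · rw [sub_nonneg, pow_succ]
    exact mul_le_of_le_one_right (by positivity) hp1
  · positivity

/-- the sum of the dilated functions -/
theorem dil_sum {f : ℕ → ℝ} (hc : Conv f) {p : ℕ} (hp : 2 ≤ p) (γ a t : ℕ) :
    2 * ∑ j ∈ Icc a γ, lw p γ j / (j + 1) * f ((j + 1) * (t + 1)) ≤
      ∑ j ∈ Icc a γ, lw p γ j / (j + 1) * f ((j + 1) * t) +
        ∑ j ∈ Icc a γ, lw p γ j / (j + 1) * f ((j + 1) * (t + 2)) := by
  rw [← Finset.sum_add_distrib, Finset.mul_sum]
  refine Finset.sum_le_sum fun j _ => ?_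
  have h1 := dil hc (j + 1) t
  have h2 : 0 ≤ lw p γ j / ((j : ℝ) + 1) := div_nonneg (lw_nonneg hp γ j) (by positivity)
  nlinarith

theorem vs_succ (R x : ℕ → ℝ) (t : ℕ) :
    vs R x (t + 1) = vs R x t + R (t + 1) * (x (t + 1) - x t) := by
  rw [vs, vs, Finset.sum_range_succ]

theorem vs_zero (R x : ℕ → ℝ) : vs R x 0 = 0 := by
  rw [vs, Finset.range_zero, Finset.sum_empty]

theorem vs_mono {R x : ℕ → ℝ} (hR : ∀ t, 0 ≤ R t) (hx : Monotone x) : Monotone (vs R x) := by
  refine monotone_nat_of_le_succ fun n => ?_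
  rw [vs_succ]
  have := mul_nonneg (hR (n + 1)) (sub_nonneg.mpr (hx (Nat.le_succ n)))
  simp only [Nat.succ_eq_add_one] at this
  linarith

end ConvAux

open ConvAux in
/-- C4. -/
theorem stmtConvPos : StmtConvPos := by
  intro p γ i f R hp hγ hi hc hRm hR
  have hmi : max i 1 = i := max_eq_left hi
  have hx : ∀ t, xs p γ i f t = ∑ j ∈ Icc i γ, lw p γ j / (j + 1) * f ((j + 1) * t) := by
    intro t
    rw [xs, if_neg (by omega), sub_zero, hmi]
  have hmono : Monotone (xs p γ i f) := by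
    intro a b hab
    rw [hx, hx]
    refine Finset.sum_le_sum fun j _ => ?_
    exact mul_le_mul_of_nonneg_left (hc.mono (Nat.mul_le_mul_left _ hab))
      (div_nonneg (lw_nonneg hp γ j) (by positivity))
  refine ⟨vs_zero _ _, vs_mono hR hmono, fun t => ?_⟩
  rw [vs_succ R _ (t + 1), vs_succ R _ t]
  have h1 : 2 * xs p γ i f (t + 1) ≤ xs p γ i f t + xs p γ i f (t + 2) := by
    rw [hx, hx, hx]
    exact dil_sum hc hp γ i t
  have h2 : 0 ≤ xs p γ i f (t + 2) - xs p γ i f (t + 1) := by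
    rw [sub_nonneg]
    exact hmono (by omega)
  have h3 : R (t + 1) ≤ R (t + 2) := hRm (by omega)
  have h4 := hR (t + 1)
  have h5 : R (t + 1) * (xs p γ i f (t + 1) - xs p γ i f t) ≤
      R (t + 2) * (xs p γ i f (t + 2) - xs p γ i f (t + 1)) := by
    calc R (t + 1) * (xs p γ i f (t + 1) - xs p γ i f t)
        ≤ R (t + 1) * (xs p γ i f (t + 2) - xs p γ i f (t + 1)) :=
          mul_le_mul_of_nonneg_left (by linarith) h4
      _ ≤ R (t + 2) * (xs p γ i f (t + 2) - xs p γ i f (t + 1)) :=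
          mul_le_mul_of_nonneg_right h3 h2
  have e : t + 1 + 1 = t + 2 := rfl
  rw [e]
  linarith

end OddCov

end

section

/-!
# Item D1: sum over the divisors of `p ^ γ * Q`
-/

namespace OddCov

open Finset

theorem sum_divisors_coprime (p γ Q : ℕ) (g : ℕ → ℝ) (hp : p.Prime) (hc : Nat.Coprime p Q)
    (hQ : 0 < Q) :
    ∑ m ∈ (p ^ γ * Q).divisors, g m = ∑ i ∈ range (γ + 1), ∑ m ∈ Q.divisors, g (p ^ i * m) := by
  rw [← Finset.sum_product']
  symm
  refine Finset.sum_nbij (fun x => p ^ x.1 * x.2) ?_ ?_ ?_ (fun _ _ => rfl)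
  · rintro ⟨i, m⟩ h
    rw [mem_product, mem_range, Nat.mem_divisors] at h
    rw [Nat.mem_divisors]
    exact ⟨mul_dvd_mul (pow_dvd_pow p (by omega)) h.2.1,
      mul_ne_zero (pow_pos hp.pos γ).ne' hQ.ne'⟩
  · rintro ⟨i, m⟩ h ⟨i', m'⟩ h' heq
    rw [mem_coe, mem_product, mem_range, Nat.mem_divisors] at h h'
    simp only at h h' heq
    have hcm : Nat.Coprime p m := Nat.Coprime.coprime_dvd_right h.2.1 hc
    have hcm' : Nat.Coprime p m' := Nat.Coprime.coprime_dvd_right h'.2.1 hc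
    have hm0 : m ≠ 0 := fun e => hQ.ne' (by simpa [e] using h.2.1)
    have hm0' : m' ≠ 0 := fun e => hQ.ne' (by simpa [e] using h'.2.1)
    have hfac : ∀ (a n : ℕ), Nat.Coprime p n → n ≠ 0 → (p ^ a * n).factorization p = a := by
      intro a n hcn hn
      rw [Nat.factorization_mul (pow_pos hp.pos a).ne' hn, Finsupp.add_apply,
        hp.factorization_pow, Finsupp.single_eq_same,
        Nat.factorization_eq_zero_of_not_dvd ((hp.coprime_iff_not_dvd).mp hcn), add_zero]
    have hi : i = i' := by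
      rw [← hfac i m hcm hm0, heq, hfac i' m' hcm' hm0']
    subst hi
    have := Nat.eq_of_mul_eq_mul_left (pow_pos hp.pos i) heq
    rw [this]
  · intro m hm
    rw [mem_coe, Nat.mem_divisors] at hm
    obtain ⟨a, b, ha, hb, rfl⟩ := (Nat.dvd_mul).mp hm.1
    obtain ⟨i, hi, rfl⟩ := (Nat.dvd_prime_pow hp).mp ha
    refine ⟨(i, b), ?_, rfl⟩
    rw [mem_coe, mem_product, mem_range, Nat.mem_divisors]
    exact ⟨by omega, hb, hQ.ne'⟩

theorem stmtDivSum : StmtDivSum := by
  intro p γ Q g hp hc hQ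
  have h1 : (1 : ℕ) ∈ (p ^ γ * Q).divisors :=
    Nat.one_mem_divisors.mpr (mul_ne_zero (pow_pos hp.pos γ).ne' hQ.ne')
  have h1' : (1 : ℕ) ∈ Q.divisors := Nat.one_mem_divisors.mpr hQ.ne'
  have e1 := Finset.sum_erase_add (p ^ γ * Q).divisors g h1
  have e2 := sum_divisors_coprime p γ Q g hp hc hQ
  have e3 : ∑ i ∈ range (γ + 1), ∑ m ∈ Q.divisors, g (p ^ i * m) =
      ∑ m ∈ Q.divisors.erase 1, ∑ i ∈ range (γ + 1), g (p ^ i * m) +
        ∑ i ∈ range (γ + 1), g (p ^ i * 1) := by
    rw [Finset.sum_comm]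
    exact (Finset.sum_erase_add Q.divisors _ h1').symm
  have e4 : ∑ i ∈ range (γ + 1), g (p ^ i * 1) = g 1 + ∑ i ∈ Icc 1 γ, g (p ^ i) := by
    simp only [mul_one]
    rw [Finset.sum_range_succ', add_comm, pow_zero]
    congr 1
    rw [Finset.range_eq_Ico, Finset.sum_Ico_add' (fun i => g (p ^ i)) 0 γ 1, zero_add,
      Finset.Ico_add_one_right_eq_Icc 1 γ]
  linarith [e1, e2, e3, e4]

end OddCov

end

section

/-!
# Item D3: monotonicity of `Good` in the modulus
-/

namespace OddCov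

open Finset

theorem stmtDvd : StmtDvd := by
  intro Q Q' F hQ hdvd ⟨f, hf, htot, hcov⟩
  have hsub : Q'.divisors.erase 1 ⊆ Q.divisors.erase 1 :=
    Finset.erase_subset_erase 1 (Nat.divisors_subset_of_dvd hQ.ne' hdvd)
  have hnn : ∀ m t, 0 ≤ f m t := fun m t => by
    have := (hf m).mono (Nat.zero_le t)
    rwa [(hf m).zero] at this
  refine ⟨f, hf, ?_, ?_⟩
  · intro t
    exact (Finset.sum_le_sum_of_subset_of_nonneg hsub fun m _ _ => hnn m t).trans (htot t)
  · intro C hC
    have hphi : Phi Q f (fun m => if m ∣ Q' then C m else 0) = Phi Q' f C := by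
      unfold Phi
      symm
      rw [← Finset.sum_subset hsub]
      · refine Finset.sum_congr rfl fun m hm => ?_
        rw [mem_erase, Nat.mem_divisors] at hm
        simp only [if_pos hm.2.1]
      · intro m hm hm'
        rw [mem_erase, Nat.mem_divisors] at hm
        have hQ' : Q' ≠ 0 := fun e => hQ.ne' (by
          rw [e] at hdvd
          exact Nat.eq_zero_of_zero_dvd hdvd)
        have : ¬ m ∣ Q' := fun h => hm' (by
          rw [mem_erase, Nat.mem_divisors]
          exact ⟨hm.1, h, hQ'⟩)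
        simp only [if_neg this, Multiset.card_zero, (hf m).zero]
    obtain ⟨x, hx⟩ := hcov _ (by rw [hphi]; exact hC)
    refine ⟨x, fun m hm c hc => ?_⟩
    have hmd : m ∣ Q' := by
      rw [mem_erase, Nat.mem_divisors] at hm
      exact hm.2.1
    exact hx m (hsub hm) c (by simp only [if_pos hmd]; exact hc)

end OddCov

end

section

/-!
# Item B3: the mean of a convex function of the number of classes through a point of the fibre
-/

namespace OddCov

open Finset

/-- mean of the number of classes of one level through a point of the fibre -/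
theorem fibre_mean (h2 : StmtClassCard) (p γ j : ℕ) (hp : 2 ≤ p) (hj : j ≤ γ) (μ : ℕ → ℝ) (R : ℝ)
    (hR : ∀ y, μ y ≤ R / (p : ℝ) ^ γ) (L : Multiset ℤ) :
    ∑ y ∈ range (p ^ γ), μ y * (Multiset.card (pick (p ^ j) (y : ℤ) L) : ℝ) ≤
      (Multiset.card L : ℝ) * (R * ((p : ℝ)⁻¹) ^ j) := by
  have hp0 : (0 : ℝ) < p := by exact_mod_cast (by omega : 0 < p)
  induction L using Multiset.induction_on with
  | empty => simp [pick]
  | cons c L ih =>
    have hcons : ∀ y : ℕ, (Multiset.card (pick (p ^ j) (y : ℤ) (c ::ₘ L)) : ℝ) =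
        (Multiset.card (pick (p ^ j) (y : ℤ) L) : ℝ) +
          (if c ≡ (y : ℤ) [ZMOD ((p ^ j : ℕ) : ℤ)] then 1 else 0) := by
      intro y
      unfold pick
      by_cases h : c ≡ (y : ℤ) [ZMOD ((p ^ j : ℕ) : ℤ)]
      · rw [Multiset.filter_cons_of_pos (p := fun c : ℤ => c ≡ (y : ℤ) [ZMOD ((p ^ j : ℕ) : ℤ)]) _ h,
          Multiset.card_cons, if_pos h]
        push_cast
        ring
      · rw [Multiset.filter_cons_of_neg (p := fun c : ℤ => c ≡ (y : ℤ) [ZMOD ((p ^ j : ℕ) : ℤ)]) _ h,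
          if_neg h]
        ring
    have hsum : ∑ y ∈ range (p ^ γ), μ y * (Multiset.card (pick (p ^ j) (y : ℤ) (c ::ₘ L)) : ℝ) =
        ∑ y ∈ range (p ^ γ), μ y * (Multiset.card (pick (p ^ j) (y : ℤ) L) : ℝ) +
          ∑ y ∈ (range (p ^ γ)).filter (fun y : ℕ => c ≡ (y : ℤ) [ZMOD ((p ^ j : ℕ) : ℤ)]), μ y := by
      rw [Finset.sum_filter, ← Finset.sum_add_distrib]
      refine Finset.sum_congr rfl fun y _ => ?_
      rw [hcons y]
      split_ifs <;> ring
    have hcard := h2 p γ j c (by omega) hj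
    have hle : ∑ y ∈ (range (p ^ γ)).filter
        (fun y : ℕ => c ≡ (y : ℤ) [ZMOD ((p ^ j : ℕ) : ℤ)]), μ y ≤ R * ((p : ℝ)⁻¹) ^ j := by
      calc _ ≤ ∑ _y ∈ (range (p ^ γ)).filter
            (fun y : ℕ => c ≡ (y : ℤ) [ZMOD ((p ^ j : ℕ) : ℤ)]), R / (p : ℝ) ^ γ :=
            Finset.sum_le_sum fun y _ => hR y
        _ = ((p ^ (γ - j) : ℕ) : ℝ) * (R / (p : ℝ) ^ γ) := by
            rw [Finset.sum_const, hcard, nsmul_eq_mul]
        _ = R * ((p : ℝ)⁻¹) ^ j := by
            push_cast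
            rw [show (p : ℝ) ^ γ = (p : ℝ) ^ (γ - j) * (p : ℝ) ^ j by
              rw [← pow_add, Nat.sub_add_cancel hj], inv_pow]
            field_simp
    have hsplit : ((c ::ₘ L).card : ℝ) * (R * ((p : ℝ)⁻¹) ^ j) =
        (L.card : ℝ) * (R * ((p : ℝ)⁻¹) ^ j) + R * ((p : ℝ)⁻¹) ^ j := by
      rw [Multiset.card_cons, Nat.cast_add, Nat.cast_one]
      ring
    rw [hsum, hsplit]
    exact add_le_add ih hle

theorem card_pick_le (q : ℕ) (y : ℤ) (L : Multiset ℤ) :
    Multiset.card (pick q y L) ≤ Multiset.card L :=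
  Multiset.card_le_card (Multiset.filter_le _ _)

theorem stmtFibre (h1 : StmtChord) (h2 : StmtClassCard) : StmtFibre := by
  intro p γ f L μ R hp hf hμ0 _ hμR hR0
  have hp0 : (0 : ℝ) < p := by exact_mod_cast (by omega : 0 < p)
  -- counts
  set k : ℕ → ℕ → ℕ := fun y i => Multiset.card (pick (p ^ i) (y : ℤ) (L i)) with hk
  set n : ℕ → ℕ := fun i => Multiset.card (L i) with hn
  have hcard : ∀ y : ℕ, Multiset.card (∑ i ∈ range (γ + 1), pick (p ^ i) (y : ℤ) (L i)) =
      ∑ i ∈ range (γ + 1), k y i := by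
    intro y
    rw [Multiset.card_sum]
  have hkn : ∀ y i, k y i ≤ n i := fun y i => card_pick_le _ _ _
  have hk0 : ∀ y, k y 0 = n 0 := by
    intro y
    simp only [hk, hn, pick, pow_zero]
    congr 1
    rw [Multiset.filter_eq_self]
    intro c _
    simpa using Int.modEq_one
  -- telescoping
  have htel : ∀ (u : ℕ → ℕ) (m : ℕ), f (∑ i ∈ range (m + 1), u i) = f (u 0) +
      ∑ j ∈ Icc 1 m, (f (∑ i ∈ range (j + 1), u i) - f (∑ i ∈ range j, u i)) := by
    intro u m
    induction m with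
    | zero => simp
    | succ m ih =>
      rw [Finset.sum_Icc_succ_top (by omega), ← add_assoc, ← ih]
      ring
  have hlev : ∀ j ∈ Icc 1 γ, ∑ y ∈ range (p ^ γ), μ y *
      (f (∑ i ∈ range (j + 1), k y i) - f (∑ i ∈ range j, k y i)) ≤
      R * (((p : ℝ)⁻¹) ^ j * (f (∑ i ∈ range (j + 1), n i) - f (∑ i ∈ range j, n i))) := by
    intro j hj
    rw [mem_Icc] at hj
    set D : ℝ := f (∑ i ∈ range (j + 1), n i) - f (∑ i ∈ range j, n i) with hD
    have hD0 : 0 ≤ D := by
      have := hf.mono (show ∑ i ∈ range j, n i ≤ ∑ i ∈ range (j + 1), n i by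
        rw [Finset.sum_range_succ]; omega)
      linarith
    rcases Nat.eq_zero_or_pos (n j) with h0 | hpos
    · have : ∀ y, k y j = 0 := fun y => Nat.le_zero.mp (h0 ▸ hkn y j)
      have hz : ∑ y ∈ range (p ^ γ), μ y *
          (f (∑ i ∈ range (j + 1), k y i) - f (∑ i ∈ range j, k y i)) = 0 := by
        refine Finset.sum_eq_zero fun y _ => ?_
        rw [Finset.sum_range_succ, this y]
        simp
      rw [hz]
      positivity
    · have hnpos : (0 : ℝ) < n j := by exact_mod_cast hpos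
      have hpt : ∀ y, (f (∑ i ∈ range (j + 1), k y i) - f (∑ i ∈ range j, k y i)) * (n j : ℝ) ≤
          (k y j : ℝ) * D := by
        intro y
        have := h1 f hf (∑ i ∈ range j, k y i) (∑ i ∈ range j, n i) (k y j) (n j)
          (Finset.sum_le_sum fun i _ => hkn y i) (hkn y j)
        rw [← Finset.sum_range_succ, ← Finset.sum_range_succ] at this
        exact this
      have hmean := fibre_mean h2 p γ j hp hj.2 μ R hμR (L j)
      have : (∑ y ∈ range (p ^ γ), μ y *
          (f (∑ i ∈ range (j + 1), k y i) - f (∑ i ∈ range j, k y i))) * (n j : ℝ) ≤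
          (R * (((p : ℝ)⁻¹) ^ j * D)) * (n j : ℝ) := by
        calc _ = ∑ y ∈ range (p ^ γ), μ y *
              ((f (∑ i ∈ range (j + 1), k y i) - f (∑ i ∈ range j, k y i)) * (n j : ℝ)) := by
              rw [Finset.sum_mul]
              exact Finset.sum_congr rfl fun y _ => by ring
          _ ≤ ∑ y ∈ range (p ^ γ), μ y * ((k y j : ℝ) * D) :=
              Finset.sum_le_sum fun y _ => mul_le_mul_of_nonneg_left (hpt y) (hμ0 y)
          _ = (∑ y ∈ range (p ^ γ), μ y * (k y j : ℝ)) * D := by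
              rw [Finset.sum_mul]
              exact Finset.sum_congr rfl fun y _ => by ring
          _ ≤ ((n j : ℝ) * (R * ((p : ℝ)⁻¹) ^ j)) * D :=
              mul_le_mul_of_nonneg_right hmean hD0
          _ = _ := by ring
      exact le_of_mul_le_mul_right this hnpos
  calc ∑ y ∈ range (p ^ γ), μ y *
        f (Multiset.card (∑ i ∈ range (γ + 1), pick (p ^ i) (y : ℤ) (L i)))
      = ∑ y ∈ range (p ^ γ), (μ y * f (n 0) + ∑ j ∈ Icc 1 γ, μ y *
          (f (∑ i ∈ range (j + 1), k y i) - f (∑ i ∈ range j, k y i))) := by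
        refine Finset.sum_congr rfl fun y _ => ?_
        rw [hcard y, htel (k y) γ, hk0 y, mul_add, Finset.mul_sum]
    _ = (∑ y ∈ range (p ^ γ), μ y) * f (n 0) + ∑ j ∈ Icc 1 γ, ∑ y ∈ range (p ^ γ), μ y *
          (f (∑ i ∈ range (j + 1), k y i) - f (∑ i ∈ range j, k y i)) := by
        rw [Finset.sum_add_distrib, Finset.sum_comm, Finset.sum_mul]
    _ ≤ _ := by
        rw [Finset.mul_sum]
        exact add_le_add le_rfl (Finset.sum_le_sum hlev)

end OddCov

end

section

/-!
# Item C7 for MP_b5285d_nt: the potential of the pure classes is convex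
-/

namespace OddCov

open Finset

namespace HpAux

theorem us_succ (R x : ℕ → ℝ) (k : ℕ) :
    us R x (k + 1) = us R x k + (R (k + 1) - R k) * (x k - x 0) := by
  unfold us
  rw [Finset.sum_range_succ, ← Finset.sum_range_sub x k, Finset.mul_sum]
  simp only [sub_self, zero_mul, add_zero]
  rw [← Finset.sum_add_distrib]
  refine Finset.sum_congr rfl fun r _ => ?_
  ring

theorem rho_step (p s0 t : ℕ) (hp : s0 + 2 ≤ p) (ht : t + 1 ≤ s0) :
    rho p s0 (t + 1) - rho p s0 t =
      ((p : ℝ) - 1) / (((p : ℝ) - 1 - t) * ((p : ℝ) - 2 - t)) := by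
  unfold rho
  rw [min_eq_left ht, min_eq_left (by omega : t ≤ s0)]
  have h1 : (s0 : ℝ) + 2 ≤ p := by exact_mod_cast hp
  have h2 : (t : ℝ) + 1 ≤ s0 := by exact_mod_cast ht
  have h3 : (p : ℝ) - 1 - t ≠ 0 := by
    have : 0 < (p : ℝ) - 1 - t := by linarith
    exact this.ne'
  have h4 : (p : ℝ) - 2 - t ≠ 0 := by
    have : 0 < (p : ℝ) - 2 - t := by linarith
    exact this.ne'
  have h5 : (p : ℝ) - 1 - ((t + 1 : ℕ) : ℝ) = (p : ℝ) - 2 - t := by
    push_cast
    ring
  rw [h5]
  field_simp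
  ring

theorem hp_step_lt (p s0 : ℕ) (X : ℕ → ℝ) (t : ℕ) (hp' : s0 + 2 ≤ p) (hX0 : X 0 = 0)
    (ht : t + 1 ≤ s0) :
    hp p s0 X (t + 1) = hp p s0 X t +
      ((p : ℝ) - 1) / (((p : ℝ) - 1 - t) * ((p : ℝ) - 2 - t)) * X t := by
  unfold hp
  rw [min_eq_left ht, min_eq_left (by omega : t ≤ s0), us_succ, rho_step p s0 t hp' ht, hX0]
  have h1 : hin p s0 (t + 1) = 0 := by
    unfold hin
    have : t + 1 - s0 = 0 := by omega
    rw [this]
    simp
  have h2 : hin p s0 t = 0 := by
    unfold hin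
    have : t - s0 = 0 := by omega
    rw [this]
    simp
  rw [h1, h2]
  ring

theorem hp_step_ge (p s0 : ℕ) (X : ℕ → ℝ) (t : ℕ) (ht : s0 ≤ t) :
    hp p s0 X (t + 1) = hp p s0 X t + 1 / ((p : ℝ) - 1 - s0) := by
  unfold hp
  rw [min_eq_right (by omega : s0 ≤ t + 1), min_eq_right ht]
  unfold hin
  have h : ((t + 1 - s0 : ℕ) : ℝ) = ((t - s0 : ℕ) : ℝ) + 1 := by
    have : t + 1 - s0 = (t - s0) + 1 := by omega
    rw [this]
    push_cast
    ring
  rw [h]
  ring

end HpAux

open HpAux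

theorem stmtHp : StmtHp := by
  intro p s0 X hp' hmono hX0 hlast
  have h1 : (s0 : ℝ) + 2 ≤ p := by exact_mod_cast hp'
  have hXnn : ∀ t, 0 ≤ X t := fun t => by
    rw [← hX0]
    exact hmono (Nat.zero_le t)
  have hs0 : (0 : ℝ) ≤ s0 := Nat.cast_nonneg s0
  refine ⟨?_, ?_, ?_⟩
  · unfold hp hin us
    simp
  · refine monotone_nat_of_le_succ fun t => ?_
    rcases Nat.lt_or_ge t s0 with ht | ht
    · rw [hp_step_lt p s0 X t hp' hX0 ht]
      have h2 : (t : ℝ) + 1 ≤ s0 := by exact_mod_cast ht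
      have h3 : 0 ≤ ((p : ℝ) - 1) / (((p : ℝ) - 1 - t) * ((p : ℝ) - 2 - t)) := by
        apply div_nonneg
        · linarith
        · apply mul_nonneg <;> linarith
      have := mul_nonneg h3 (hXnn t)
      linarith
    · rw [hp_step_ge p s0 X t ht]
      have : 0 ≤ 1 / ((p : ℝ) - 1 - s0) := by
        apply div_nonneg
        · norm_num
        · linarith
      linarith
  · intro t
    rcases Nat.lt_or_ge (t + 1) s0 with ht | ht
    · have e1 := hp_step_lt p s0 X t hp' hX0 (by omega)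
      have e2 := hp_step_lt p s0 X (t + 1) hp' hX0 ht
      rw [show t + 1 + 1 = t + 2 from rfl] at e2
      have h2 : (t : ℝ) + 2 ≤ s0 := by exact_mod_cast ht
      have hle : ((p : ℝ) - 1) / (((p : ℝ) - 1 - t) * ((p : ℝ) - 2 - t)) * X t ≤
          ((p : ℝ) - 1) / (((p : ℝ) - 1 - ((t + 1 : ℕ) : ℝ)) * ((p : ℝ) - 2 - ((t + 1 : ℕ) : ℝ))) *
            X (t + 1) := by
        have hX : X t ≤ X (t + 1) := hmono (Nat.le_succ t)
        have ha : ((p : ℝ) - 1) / (((p : ℝ) - 1 - t) * ((p : ℝ) - 2 - t)) ≤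
            ((p : ℝ) - 1) / (((p : ℝ) - 1 - ((t + 1 : ℕ) : ℝ)) *
              ((p : ℝ) - 2 - ((t + 1 : ℕ) : ℝ))) := by
          push_cast
          apply div_le_div_of_nonneg_left
          · linarith
          · apply mul_pos <;> linarith
          · apply mul_le_mul <;> linarith
        have hb : 0 ≤ ((p : ℝ) - 1) / (((p : ℝ) - 1 - t) * ((p : ℝ) - 2 - t)) := by
          apply div_nonneg
          · linarith
          · apply mul_nonneg <;> linarith
        exact mul_le_mul ha hX (hXnn t) (le_trans hb ha)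
      linarith
    · rcases Nat.lt_or_ge t s0 with ht' | ht'
      · have hts : s0 = t + 1 := by omega
        have e1 := hp_step_lt p s0 X t hp' hX0 (by omega)
        have e2 := hp_step_ge p s0 X (t + 1) ht
        rw [show t + 1 + 1 = t + 2 from rfl] at e2
        have h3 : s0 - 1 = t := by omega
        rw [h3] at hlast
        have h4 : (s0 : ℝ) = t + 1 := by
          rw [hts]
          push_cast
          ring
        have ht0 : (0 : ℝ) ≤ t := Nat.cast_nonneg t
        rw [h4] at h1 hlast e2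
        have hd1 : 0 < (p : ℝ) - 1 - t := by linarith
        have hd2 : 0 < (p : ℝ) - 2 - t := by linarith
        have hd3 : 0 < (p : ℝ) - 1 := by linarith
        have hle : ((p : ℝ) - 1) / (((p : ℝ) - 1 - t) * ((p : ℝ) - 2 - t)) * X t ≤
            1 / ((p : ℝ) - 1 - (t + 1)) := by
          have h5 : ((p : ℝ) - 1) / (((p : ℝ) - 1 - t) * ((p : ℝ) - 2 - t)) * X t ≤
              ((p : ℝ) - 1) / (((p : ℝ) - 1 - t) * ((p : ℝ) - 2 - t)) *
                (((p : ℝ) - (t + 1)) / ((p : ℝ) - 1)) := by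
            apply mul_le_mul_of_nonneg_left hlast
            apply div_nonneg hd3.le
            exact (mul_pos hd1 hd2).le
          have h6 : ((p : ℝ) - 1) / (((p : ℝ) - 1 - t) * ((p : ℝ) - 2 - t)) *
                (((p : ℝ) - (t + 1)) / ((p : ℝ) - 1)) = 1 / ((p : ℝ) - 1 - (t + 1)) := by
            have h7 : (p : ℝ) - (t + 1) = (p : ℝ) - 1 - t := by ring
            have h8 : (p : ℝ) - 1 - (t + 1) = (p : ℝ) - 2 - t := by ring
            rw [h7, h8]
            have := hd1.ne'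
            have := hd2.ne'
            have := hd3.ne'
            field_simp
          linarith
        linarith
      · have e1 := hp_step_ge p s0 X t ht'
        have e2 := hp_step_ge p s0 X (t + 1) ht
        rw [show t + 1 + 1 = t + 2 from rfl] at e2
        linarith

end OddCov

end

section

/-!
# Item C9: interpolation of `hp`
-/

namespace OddCov

open Finset

theorem stmtHpInterp : StmtHpInterp := by
  intro p s0 X k θ h h0 h1
  have hp2 : (s0 : ℝ) + 2 ≤ p := by exact_mod_cast h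
  have hd : (0 : ℝ) < (p : ℝ) - 1 - s0 := by linarith
  have key : max 0 (((k : ℝ) + θ - s0) / ((p : ℝ) - 1 - s0)) ≤
      (1 - θ) * hin p s0 k + θ * hin p s0 (k + 1) := by
    unfold hin
    rcases Nat.lt_or_ge k s0 with hk | hk
    · have hk1 : ((k : ℝ) + 1) ≤ s0 := by exact_mod_cast hk
      rw [Nat.sub_eq_zero_of_le hk.le, Nat.sub_eq_zero_of_le (show k + 1 ≤ s0 from hk)]
      simp only [Nat.cast_zero, zero_div, mul_zero, add_zero]
      apply max_le le_rfl
      exact div_nonpos_of_nonpos_of_nonneg (by linarith) hd.le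
    · have hks : ((s0 : ℝ)) ≤ k := by exact_mod_cast hk
      rw [Nat.cast_sub hk, Nat.cast_sub (show s0 ≤ k + 1 by omega)]
      push_cast
      have e : (1 - θ) * (((k : ℝ) - s0) / ((p : ℝ) - 1 - s0)) +
          θ * (((k : ℝ) + 1 - s0) / ((p : ℝ) - 1 - s0)) =
          ((k : ℝ) + θ - s0) / ((p : ℝ) - 1 - s0) := by ring
      rw [e]
      apply max_le _ le_rfl
      exact div_nonneg (by linarith) hd.le
  unfold OddCov.hp
  nlinarith [key]

end OddCov

end

section

/-!
# MP_b5285d_nt, item D2: lifting from the fibre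
-/

namespace OddCov

open Finset

theorem stmtLift : StmtLift := by
  intro p γ Q C y x' hp hc hQ h1 h2
  have hcop : IsCoprime ((p ^ γ : ℕ) : ℤ) (Q : ℤ) :=
    Nat.isCoprime_iff_coprime.2 (Nat.Coprime.pow_left γ hc)
  obtain ⟨a, b, hab⟩ := hcop
  have hx1 : y * (b * Q) + x' * (a * ((p ^ γ : ℕ) : ℤ)) ≡ y [ZMOD ((p ^ γ : ℕ) : ℤ)] := by
    rw [Int.modEq_iff_dvd]
    refine ⟨y * a - x' * a, ?_⟩
    linear_combination (-y) * hab
  have hx2 : y * (b * Q) + x' * (a * ((p ^ γ : ℕ) : ℤ)) ≡ x' [ZMOD (Q : ℤ)] := by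
    rw [Int.modEq_iff_dvd]
    refine ⟨x' * b - y * b, ?_⟩
    linear_combination (-x') * hab
  refine ⟨y * (b * Q) + x' * (a * ((p ^ γ : ℕ) : ℤ)), ?_⟩
  generalize y * (b * Q) + x' * (a * ((p ^ γ : ℕ) : ℤ)) = x at hx1 hx2
  intro m hm c hcm hxc
  rw [Finset.mem_erase, Nat.mem_divisors] at hm
  obtain ⟨hm1, hmd, -⟩ := hm
  obtain ⟨m1, m2, hm1d, hm2d, rfl⟩ := (Nat.dvd_mul).1 hmd
  obtain ⟨i, hi, rfl⟩ := (Nat.dvd_prime_pow hp).1 hm1d
  have hyi : x ≡ y [ZMOD ((p ^ i : ℕ) : ℤ)] := by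
    refine hx1.of_dvd ?_
    exact_mod_cast pow_dvd_pow p hi
  have hci : x ≡ c [ZMOD ((p ^ i : ℕ) : ℤ)] := by
    refine hxc.of_dvd ?_
    exact_mod_cast Dvd.intro _ rfl
  have hcy : c ≡ y [ZMOD ((p ^ i : ℕ) : ℤ)] := hci.symm.trans hyi
  by_cases hm2 : m2 = 1
  · subst hm2
    have hi1 : 1 ≤ i := by
      by_contra h
      have : i = 0 := by omega
      subst this
      exact hm1 (by simp)
    rw [mul_one] at hcm
    exact h1 i (Finset.mem_Icc.2 ⟨hi1, hi⟩) c hcm hcy
  · refine h2 m2 ?_ c ?_ ?_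
    · rw [Finset.mem_erase, Nat.mem_divisors]
      exact ⟨hm2, hm2d, hQ.ne'⟩
    · unfold fib
      rw [Multiset.mem_sum]
      refine ⟨i, Finset.mem_range.2 (by omega), ?_⟩
      unfold pick
      rw [Multiset.mem_filter]
      exact ⟨hcm, hcy⟩
    · have h3 : x ≡ x' [ZMOD (m2 : ℤ)] := hx2.of_dvd (by exact_mod_cast hm2d)
      have h4 : x ≡ c [ZMOD (m2 : ℤ)] := hxc.of_dvd (by exact_mod_cast Dvd.intro_left _ rfl)
      exact h3.symm.trans h4

end OddCov

end

section

/-!
# C5: Monge-Kantorovich splitting of a product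
-/

namespace OddCov

open Finset

theorem mk_aux (R x : ℕ → ℝ) (k t : ℕ) (hR : Monotone R) (hx : Monotone x) (h0 : x 0 = 0) :
    R k * x t ≤ vs R x t + us R x k := by
  have hsum : x t = ∑ r ∈ range t, (x (r + 1) - x r) := by
    rw [Finset.sum_range_sub]; simp [h0]
  have key : ∑ r ∈ range t, (R k - R (r + 1)) * (x (r + 1) - x r) ≤
      ∑ r ∈ range k, (R k - R (r + 1)) * (x (r + 1) - x r) := by
    rcases le_total t k with h | h
    · apply Finset.sum_le_sum_of_subset_of_nonneg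
      · exact Finset.range_subset_range.mpr h
      · intro r hr _
        have hr' : r + 1 ≤ k := Finset.mem_range.mp hr
        exact mul_nonneg (sub_nonneg.mpr (hR hr')) (sub_nonneg.mpr (hx (Nat.le_succ r)))
    · rw [← Finset.sum_range_add_sum_Ico _ h]
      have : ∑ r ∈ Ico k t, (R k - R (r + 1)) * (x (r + 1) - x r) ≤ 0 := by
        apply Finset.sum_nonpos
        intro r hr
        have hr' : k ≤ r + 1 := le_trans (Finset.mem_Ico.mp hr).1 (Nat.le_succ r)
        exact mul_nonpos_of_nonpos_of_nonneg (sub_nonpos.mpr (hR hr'))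
          (sub_nonneg.mpr (hx (Nat.le_succ r)))
      linarith
  have e : R k * x t - vs R x t = ∑ r ∈ range t, (R k - R (r + 1)) * (x (r + 1) - x r) := by
    unfold vs
    conv_lhs => rw [hsum]
    rw [Finset.mul_sum, ← Finset.sum_sub_distrib]
    exact Finset.sum_congr rfl fun r _ => by ring
  unfold us
  linarith

theorem stmtMK : StmtMK := by
  intro R x k t θ S hR hx h0 hθ0 hθ1 hS
  have hxt : 0 ≤ x t := by rw [← h0]; exact hx (Nat.zero_le t)
  have h1 := mk_aux R x k t hR hx h0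
  have h2 := mk_aux R x (k + 1) t hR hx h0
  have h3 : S * x t ≤ ((1 - θ) * R k + θ * R (k + 1)) * x t := mul_le_mul_of_nonneg_right hS hxt
  have h4 := mul_le_mul_of_nonneg_left h1 (sub_nonneg.mpr hθ1)
  have h5 := mul_le_mul_of_nonneg_left h2 hθ0
  nlinarith [h3, h4, h5]

end OddCov

end

section

/-!
# B1: the distorted measure on a fibre
-/

set_option autoImplicit false

namespace OddCov

open Finset

namespace MeasureAux

theorem build (N : ℕ) (B : Finset ℕ) (hB : B ⊆ range N) (u v : ℝ) (hu : 0 ≤ u) (hv : 0 ≤ v) (c : ℝ)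
    (huc : u ≤ c) (hvc : v ≤ c) (hsum : ((N : ℝ) - B.card) * u + B.card * v = 1) :
    ∃ μ : ℕ → ℝ, (∀ y, 0 ≤ μ y) ∧ ∑ y ∈ range N, μ y = 1 ∧ (∀ y, μ y ≤ c) ∧
      ∑ y ∈ B, μ y = B.card * v := by
  refine ⟨fun y => if y ∈ B then v else if y ∈ range N then u else 0, fun y => ?_, ?_, fun y => ?_,
    ?_⟩
  · dsimp only
    split_ifs <;> first | assumption | exact le_rfl
  · rw [← Finset.sum_sdiff hB]
    have e1 : ∑ y ∈ range N \ B, (if y ∈ B then v else if y ∈ range N then u else 0) =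
        ∑ y ∈ range N \ B, u := by
      refine Finset.sum_congr rfl fun y hy => ?_
      rw [Finset.mem_sdiff] at hy
      rw [if_neg hy.2, if_pos hy.1]
    have e2 : ∑ y ∈ B, (if y ∈ B then v else if y ∈ range N then u else 0) = ∑ y ∈ B, v :=
      Finset.sum_congr rfl fun y hy => if_pos hy
    rw [e1, e2, Finset.sum_const, Finset.sum_const, nsmul_eq_mul, nsmul_eq_mul,
      Finset.card_sdiff_of_subset hB, Finset.card_range,
      Nat.cast_sub (by simpa using Finset.card_le_card hB)]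
    exact hsum
  · dsimp only
    split_ifs
    · exact hvc
    · exact huc
    · exact hu.trans huc
  · have e2 : ∑ y ∈ B, (if y ∈ B then v else if y ∈ range N then u else 0) = ∑ y ∈ B, v :=
      Finset.sum_congr rfl fun y hy => if_pos hy
    rw [e2, Finset.sum_const, nsmul_eq_mul]

end MeasureAux

open MeasureAux in
/-- B1. -/
theorem stmtMeasure : StmtMeasure := by
  intro N B α R hN hB hBα hR
  have hN' : (0 : ℝ) < N := by exact_mod_cast hN
  have hBN : (B.card : ℝ) ≤ N := by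
    have := Finset.card_le_card hB
    rw [Finset.card_range] at this
    exact_mod_cast this
  have hB0 : (0 : ℝ) ≤ B.card := Nat.cast_nonneg _
  set b : ℝ := (B.card : ℝ) with hb
  rcases le_or_gt (N : ℝ) ((N - b) * R) with h1 | h1
  · -- the uncovered part is large
    have hpos : 0 < (N : ℝ) - b := by
      by_contra hcon
      have : (N - b) * R ≤ 0 := mul_nonpos_of_nonpos_of_nonneg (by linarith) (by linarith)
      linarith
    obtain ⟨μ, m1, m2, m3, m4⟩ := build N B hB (1 / ((N : ℝ) - b)) 0 (by positivity) le_rfl (R / N)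
      (by rw [div_le_div_iff₀ hpos hN']; linarith) (by positivity)
      (by rw [← hb]; field_simp; ring)
    refine ⟨μ, m1, m2, m3, ?_⟩
    rw [m4, mul_zero]
    exact le_max_left _ _
  · have hbpos : 0 < b := by
      by_contra hcon
      have hb0 : b = 0 := le_antisymm (not_lt.mp hcon) hB0
      rw [hb0, sub_zero] at h1
      nlinarith
    have hv : 0 ≤ (N - (N - b) * R) / (b * N) := div_nonneg (by linarith) (by positivity)
    obtain ⟨μ, m1, m2, m3, m4⟩ := build N B hB (R / N) ((N - (N - b) * R) / (b * N))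
      (by positivity) hv (R / N) le_rfl
      (by
        rw [div_le_div_iff₀ (by positivity) hN']
        have e0 : (N : ℝ) - (N - b) * R ≤ R * b := by nlinarith
        have e1 := mul_le_mul_of_nonneg_right e0 hN'.le
        linarith)
      (by rw [← hb]; field_simp; ring)
    refine ⟨μ, m1, m2, m3, ?_⟩
    rw [m4, ← hb]
    refine le_trans ?_ (le_max_right _ _)
    have e1 : b * ((N - (N - b) * R) / (b * N)) = 1 - (1 - b / N) * R := by
      field_simp
    rw [e1]
    have e2 : b / N ≤ α := by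
      rw [div_le_iff₀ hN']
      exact hBα
    nlinarith

end OddCov

end

section

/-!
# MP_b5285d_nt, item E3: no 5
-/

namespace OddCov

open Finset

namespace NoFiveAux

theorem pos (D : ℕ → ℝ) (hD : ∀ t, 0 ≤ D t) (γ : ℕ) :
    2 * ((3 : ℝ)⁻¹) ^ (γ + 1) * D (γ + 2) ≤
      D 1 + 2 * ∑ j ∈ Icc 1 (γ + 1), ((3 : ℝ)⁻¹) ^ j * (D (j + 1) - D j) := by
  induction γ with
  | zero =>
    simp only [zero_add, Icc_self, sum_singleton, pow_one]
    have := hD 1
    norm_num
    linarith
  | succ γ ih =>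
    rw [Finset.sum_Icc_succ_top (by omega : 1 ≤ γ + 1 + 1)]
    have h1 := mul_nonneg (pow_nonneg (show (0 : ℝ) ≤ 3⁻¹ by norm_num) (γ + 1)) (hD (γ + 2))
    have h2 : ((3 : ℝ)⁻¹) ^ (γ + 1 + 1) = 3⁻¹ ^ (γ + 1) * 3⁻¹ := pow_succ _ _
    have h3 : γ + 1 + 1 = γ + 2 := rfl
    rw [h3] at h2 ⊢
    rw [h2]
    have h4 : γ + 2 + 1 = γ + 1 + 2 := by ring
    rw [h4]
    linarith

theorem pos' (D : ℕ → ℝ) (hD : ∀ t, 0 ≤ D t) (γ : ℕ) (hγ : 1 ≤ γ) :
    0 ≤ D 1 + 2 * ∑ j ∈ Icc 1 γ, ((3 : ℝ)⁻¹) ^ j * (D (j + 1) - D j) := by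
  obtain ⟨n, rfl⟩ := Nat.exists_eq_add_of_le' hγ
  have h1 := mul_nonneg (pow_nonneg (show (0 : ℝ) ≤ 3⁻¹ by norm_num) (n + 1)) (hD (n + 2))
  have h2 := pos D hD n
  linarith

end NoFiveAux

open NoFiveAux in
theorem stmtNoFive (h : StmtStep) : StmtNoFive := by
  intro γ Q F' r hQ hc hγ hG hF
  obtain ⟨f, hf1, hf2, hf3⟩ := hG
  have hG' : Good Q (fun t => ∑ m ∈ Q.divisors.erase 1, f m t) :=
    ⟨f, hf1, fun t => le_rfl, hf3⟩
  have hstep := h 3 γ 1 Q (fun t => ∑ m ∈ Q.divisors.erase 1, f m t)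
    (fun t => (∑ m ∈ Q.divisors.erase 1, f m t) +
      rho 3 1 t * Xop 3 γ (fun t => ∑ m ∈ Q.divisors.erase 1, f m t) t + hin 3 1 t)
    Nat.prime_three hc hQ (le_refl _) hG' (by
      rw [Finset.sum_eq_zero]
      · norm_num
      · intro j _
        rw [Nat.sub_self, mul_zero, Finset.sum_eq_zero, mul_zero]
        intro m _
        exact (hf1 m).zero) (fun t => le_rfl)
  obtain ⟨g, hg1, hg2, hg3⟩ := hstep
  apply hg3
  have h1 : Phi (3 ^ γ * Q) g (fun m => {r m}) = ∑ m ∈ (3 ^ γ * Q).divisors.erase 1, g m 1 := by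
    unfold Phi
    exact Finset.sum_congr rfl fun m _ => by rw [Multiset.card_singleton]
  rw [h1]
  refine lt_of_le_of_lt (hg2 1) (lt_of_le_of_lt ?_ hF)
  have hr : rho 3 1 1 = 2 := by
    unfold rho
    norm_num
  have hh : hin 3 1 1 = 0 := by
    unfold hin
    norm_num
  beta_reduce
  rw [hr, hh, add_zero]
  have key := pos' (fun t => F' t - ∑ m ∈ Q.divisors.erase 1, f m t)
    (fun t => sub_nonneg.2 (hf2 t)) γ hγ
  have h2 : ∑ j ∈ Icc 1 γ, ((3 : ℝ)⁻¹) ^ j *
      ((F' (j + 1) - ∑ m ∈ Q.divisors.erase 1, f m (j + 1)) -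
        (F' j - ∑ m ∈ Q.divisors.erase 1, f m j)) =
      Xop 3 γ F' 1 - Xop 3 γ (fun t => ∑ m ∈ Q.divisors.erase 1, f m t) 1 := by
    unfold Xop
    rw [← Finset.sum_sub_distrib]
    refine Finset.sum_congr rfl fun j _ => ?_
    simp only [mul_one]
    push_cast
    ring

  rw [h2] at key
  linarith

end OddCov

end

section

/-!
# Item C6: properties of `rho`
-/

namespace OddCov

open Finset

theorem rho_den {p s0 : ℕ} (h : s0 + 2 ≤ p) (t : ℕ) :
    (1 : ℝ) ≤ (p : ℝ) - 1 - (min t s0 : ℕ) := by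
  have h1 : ((min t s0 : ℕ) : ℝ) ≤ (s0 : ℝ) := by exact_mod_cast min_le_right t s0
  have h2 : (s0 : ℝ) + 2 ≤ p := by exact_mod_cast h
  linarith

theorem stmtRho : StmtRho := by
  intro p s0 h
  have hp : (s0 : ℝ) + 2 ≤ p := by exact_mod_cast h
  have hs : (0 : ℝ) ≤ s0 := Nat.cast_nonneg _
  refine ⟨?_, ?_, ?_, ?_⟩
  · intro a b hab
    unfold rho
    have ha := rho_den h a
    have hb := rho_den h b
    have hmin : ((min a s0 : ℕ) : ℝ) ≤ (min b s0 : ℕ) := by
      exact_mod_cast min_le_min_right s0 hab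
    exact div_le_div_of_nonneg_left (by linarith) (by linarith) (by linarith)
  · intro t
    unfold rho
    have ht := rho_den h t
    rw [le_div_iff₀ (by linarith)]
    have : (0 : ℝ) ≤ (min t s0 : ℕ) := Nat.cast_nonneg _
    linarith
  · intro t
    unfold rho
    have ht := rho_den h t
    rw [div_le_iff₀ (by linarith)]
    nlinarith
  · intro k θ h0 h1
    rcases Nat.lt_or_ge k s0 with hk | hk
    · have hk1 : ((k : ℝ) + 1) ≤ s0 := by exact_mod_cast hk
      have e1 : min ((k : ℝ) + θ) s0 = k + θ := min_eq_left (by linarith)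
      unfold rho
      rw [e1, min_eq_left hk.le, min_eq_left (show k + 1 ≤ s0 from hk)]
      push_cast
      set a : ℝ := (p : ℝ) - 1 - k with ha
      have ha2 : 2 ≤ a := by rw [ha]; linarith
      have hd1 : 0 < a - 1 := by linarith
      have hd2 : 0 < a - θ := by linarith
      have e2 : (p : ℝ) - 1 - (k + θ) = a - θ := by rw [ha]; ring
      have e3 : (p : ℝ) - 1 - (k + 1) = a - 1 := by rw [ha]; ring
      rw [e2, e3]
      have hp1 : (0 : ℝ) ≤ (p : ℝ) - 1 := by linarith
      have key : 1 / (a - θ) ≤ (1 - θ) / a + θ / (a - 1) := by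
        rw [div_add_div _ _ (by linarith) (by linarith), div_le_div_iff₀ hd2 (by positivity)]
        nlinarith [mul_nonneg h0 (sub_nonneg.mpr h1)]
      calc ((p : ℝ) - 1) / (a - θ) = ((p : ℝ) - 1) * (1 / (a - θ)) := by ring
        _ ≤ ((p : ℝ) - 1) * ((1 - θ) / a + θ / (a - 1)) := mul_le_mul_of_nonneg_left key hp1
        _ = _ := by ring
    · have hks : ((s0 : ℝ)) ≤ k := by exact_mod_cast hk
      have e1 : min ((k : ℝ) + θ) s0 = s0 := min_eq_right (by linarith)
      unfold rho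
      rw [e1, min_eq_right hk, min_eq_right (show s0 ≤ k + 1 by omega)]
      apply le_of_eq
      ring

end OddCov

end

section

/-!
# B4: splitting into the shares of the levels
-/

namespace OddCov

open Finset

theorem share_abel (q : ℝ) (a : ℕ → ℝ) (g : ℕ) :
    ∑ j ∈ range (g + 1), q ^ (j + 1) * (a (j + 1) - a j) =
      -(a 0 * q) + ∑ j ∈ range g, (q ^ (j + 1) - q ^ (j + 2)) * a (j + 1) +
        q ^ (g + 1) * a (g + 1) := by
  induction g with
  | zero => simp; ring
  | succ g ih =>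
    rw [sum_range_succ, ih, sum_range_succ (fun j => (q ^ (j + 1) - q ^ (j + 2)) * a (j + 1))]
    ring

theorem share_icc (g : ℕ) (F : ℕ → ℝ) : ∑ j ∈ Icc 1 g, F j = ∑ j ∈ range g, F (j + 1) := by
  have : Icc 1 g = Ico 1 (g + 1) := by
    ext x; simp [Nat.lt_succ_iff]
  rw [this, sum_Ico_eq_sum_range]
  simp only [Nat.add_sub_cancel]
  exact sum_congr rfl fun j _ => by rw [add_comm 1 j]

theorem share_lw_nonneg (p γ j : ℕ) (hp : 2 ≤ p) : 0 ≤ lw p γ j := by
  have hp' : (2 : ℝ) ≤ p := by exact_mod_cast hp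
  have h0 : (0 : ℝ) ≤ (p : ℝ)⁻¹ := by positivity
  have h1 : (p : ℝ)⁻¹ ≤ 1 := inv_le_one_of_one_le₀ (by linarith)
  unfold lw
  split_ifs with h
  · rw [pow_succ]
    have := mul_le_mul_of_nonneg_left h1 (pow_nonneg h0 j)
    linarith
  · positivity

theorem share_abel_lw (p γ : ℕ) (a : ℕ → ℝ) (hγ : 1 ≤ γ) :
    ∑ j ∈ Icc 1 γ, ((p : ℝ)⁻¹) ^ j * (a j - a (j - 1)) =
      -(a 0 / p) + ∑ j ∈ Icc 1 γ, lw p γ j * a j := by
  obtain ⟨g, rfl⟩ : ∃ g, γ = g + 1 := ⟨γ - 1, by omega⟩
  rw [share_icc, share_icc]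
  have h1 : ∑ j ∈ range (g + 1), ((p : ℝ)⁻¹) ^ (j + 1) * (a (j + 1) - a (j + 1 - 1)) =
      ∑ j ∈ range (g + 1), ((p : ℝ)⁻¹) ^ (j + 1) * (a (j + 1) - a j) :=
    sum_congr rfl fun j _ => by rw [Nat.add_sub_cancel]
  rw [h1, share_abel, sum_range_succ (fun j => lw p (g + 1) (j + 1) * a (j + 1))]
  have h2 : ∑ j ∈ range g, lw p (g + 1) (j + 1) * a (j + 1) =
      ∑ j ∈ range g, (((p : ℝ)⁻¹) ^ (j + 1) - ((p : ℝ)⁻¹) ^ (j + 2)) * a (j + 1) := by
    refine sum_congr rfl fun j hj => ?_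
    rw [mem_range] at hj
    unfold lw
    rw [if_pos (by omega)]
  have h3 : lw p (g + 1) (g + 1) = ((p : ℝ)⁻¹) ^ (g + 1) := by
    unfold lw
    rw [if_neg (by omega)]
  rw [h2, h3, div_eq_mul_inv]
  ring

/-- B4 -/
theorem stmtShare (hJ : StmtJensen) : StmtShare := by
  intro p γ f n R hp hγ hf hR _
  have key : ∑ j ∈ Icc 1 γ, ((p : ℝ)⁻¹) ^ j *
        (f (∑ i ∈ range (j + 1), n i) - f (∑ i ∈ range j, n i)) ≤
      ∑ i ∈ range (γ + 1), xs p γ i f (n i) := by
    have e1 : ∑ j ∈ Icc 1 γ, ((p : ℝ)⁻¹) ^ j *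
        (f (∑ i ∈ range (j + 1), n i) - f (∑ i ∈ range j, n i)) =
        -(f (n 0) / p) + ∑ j ∈ Icc 1 γ, lw p γ j * f (∑ i ∈ range (j + 1), n i) := by
      have := share_abel_lw p γ (fun j => f (∑ i ∈ range (j + 1), n i)) hγ
      have e0 : ∑ i ∈ range (0 + 1), n i = n 0 := by simp
      simp only [e0] at this
      rw [← this]
      refine sum_congr rfl fun j hj => ?_
      rw [mem_Icc] at hj
      rw [Nat.sub_add_cancel hj.1]
    have e2 : ∑ i ∈ range (γ + 1), xs p γ i f (n i) =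
        ∑ j ∈ Icc 1 γ, lw p γ j / (j + 1) * ∑ i ∈ range (j + 1), f ((j + 1) * n i) -
          f (n 0) / p := by
      unfold xs
      rw [sum_sub_distrib]
      congr 1
      · simp only [mul_sum]
        refine sum_comm' ?_
        intro i j
        simp only [mem_range, mem_Icc]
        omega
      · rw [sum_eq_single 0]
        · simp
        · intro i _ hi; simp [hi]
        · intro h; exact absurd (mem_range.2 (Nat.succ_pos γ)) h
    rw [e1, e2]
    have e3 : ∑ j ∈ Icc 1 γ, lw p γ j * f (∑ i ∈ range (j + 1), n i) ≤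
        ∑ j ∈ Icc 1 γ, lw p γ j / (j + 1) * ∑ i ∈ range (j + 1), f ((j + 1) * n i) := by
      refine sum_le_sum fun j _ => ?_
      have h1 := hJ f hf j n
      have h2 : (0 : ℝ) < (j : ℝ) + 1 := by positivity
      have h3 : 0 ≤ lw p γ j / ((j : ℝ) + 1) := div_nonneg (share_lw_nonneg p γ j hp) h2.le
      calc lw p γ j * f (∑ i ∈ range (j + 1), n i)
          = lw p γ j / ((j : ℝ) + 1) * (((j : ℝ) + 1) * f (∑ i ∈ range (j + 1), n i)) := by
            field_simp
        _ ≤ _ := mul_le_mul_of_nonneg_left h1 h3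
    linarith
  have := mul_le_mul_of_nonneg_left key hR
  linarith

end OddCov

end

section

/-!
# MP_b5285d_nt, item E1 : the fibre step
-/

namespace OddCov

open Finset

namespace StepPf

/-! ### elementary facts -/

theorem Conv.nonneg {f : ℕ → ℝ} (h : Conv f) (t : ℕ) : 0 ≤ f t := by
  rw [← h.zero]
  exact h.mono (Nat.zero_le t)

theorem Conv.smul {f : ℕ → ℝ} (h : Conv f) {a : ℝ} (ha : 0 ≤ a) : Conv fun t => a * f t := by
  refine ⟨by simp [h.zero], fun s t hst => mul_le_mul_of_nonneg_left (h.mono hst) ha, ?_⟩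
  intro t
  have := mul_le_mul_of_nonneg_left (h.conv t) ha
  linarith

theorem vs_sum {ι : Type*} (A : Finset ι) (R : ℕ → ℝ) (x : ι → ℕ → ℝ) (t : ℕ) :
    vs R (fun t => ∑ a ∈ A, x a t) t = ∑ a ∈ A, vs R (x a) t := by
  simp only [vs]
  rw [Finset.sum_comm]
  refine Finset.sum_congr rfl fun r _ => ?_
  rw [← Finset.sum_sub_distrib, Finset.mul_sum]

theorem us_sum {ι : Type*} (A : Finset ι) (R : ℕ → ℝ) (x : ι → ℕ → ℝ) (t : ℕ) :
    us R (fun t => ∑ a ∈ A, x a t) t = ∑ a ∈ A, us R (x a) t := by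
  simp only [us]
  rw [Finset.sum_comm]
  refine Finset.sum_congr rfl fun r _ => ?_
  rw [← Finset.sum_sub_distrib, Finset.mul_sum]

theorem Xop_sum {ι : Type*} (A : Finset ι) (p γ : ℕ) (f : ι → ℕ → ℝ) (t : ℕ) :
    Xop p γ (fun t => ∑ a ∈ A, f a t) t = ∑ a ∈ A, Xop p γ (f a) t := by
  simp only [Xop]
  rw [Finset.sum_comm]
  refine Finset.sum_congr rfl fun r _ => ?_
  rw [← Finset.sum_sub_distrib, Finset.mul_sum]

theorem Xop_ge (p γ : ℕ) (hp : 1 ≤ p) (G : ℕ → ℝ) (hG : ∀ t, 0 ≤ G t) (t : ℕ) :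
    -(G t / p) ≤ Xop p γ G t := by
  have hp0 : (0 : ℝ) < p := by exact_mod_cast hp
  have hinv : (p : ℝ)⁻¹ ≤ 1 := by
    rw [inv_le_one₀ hp0]
    exact_mod_cast hp
  have hinv0 : 0 ≤ (p : ℝ)⁻¹ := by positivity
  rcases Nat.eq_zero_or_pos γ with rfl | hγ
  · simp only [Xop]
    rw [Finset.Icc_eq_empty (by norm_num), Finset.sum_empty]
    have := div_nonneg (hG t) hp0.le
    linarith
  · have key : ∀ n : ℕ, -(G t / p) + ((p : ℝ)⁻¹) ^ (n + 1) * G ((n + 1 + 1) * t) ≤
        Xop p (n + 1) G t := by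
      intro n
      induction n with
      | zero =>
        simp only [Xop]
        rw [show Finset.Icc 1 (0 + 1) = {1} from rfl, Finset.sum_singleton, one_mul, pow_one]
        have : G t / p = (p : ℝ)⁻¹ * G t := by ring
        rw [this]
        norm_num
        ring_nf
        exact le_rfl
      | succ n ih =>
        simp only [Xop] at ih ⊢
        rw [Finset.sum_Icc_succ_top (by omega)]
        have h1 : ((p : ℝ)⁻¹) ^ (n + 1 + 1) * G ((n + 1 + 1) * t) ≤
            ((p : ℝ)⁻¹) ^ (n + 1) * G ((n + 1 + 1) * t) := by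
          refine mul_le_mul_of_nonneg_right ?_ (hG _)
          exact pow_le_pow_of_le_one hinv0 hinv (Nat.le_succ _)
        linarith
    obtain ⟨n, rfl⟩ : ∃ n, γ = n + 1 := ⟨γ - 1, by omega⟩
    have := key n
    have h2 : 0 ≤ ((p : ℝ)⁻¹) ^ (n + 1) * G ((n + 1 + 1) * t) := mul_nonneg (by positivity) (hG _)
    linarith

theorem Xop_sub (p γ : ℕ) (F G : ℕ → ℝ) (t : ℕ) :
    Xop p γ (fun t => F t - G t) t = Xop p γ F t - Xop p γ G t := by
  simp only [Xop]
  rw [← Finset.sum_sub_distrib]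
  refine Finset.sum_congr rfl fun r _ => ?_
  ring

/-- monotonicity in the potential -/
theorem step_mono (p γ : ℕ) (hp : 1 ≤ p) (F G : ℕ → ℝ) (h : ∀ t, G t ≤ F t) (t : ℕ) (r : ℝ)
    (hr0 : 0 ≤ r) (hr : r ≤ p) : G t + r * Xop p γ G t ≤ F t + r * Xop p γ F t := by
  have hp0 : (0 : ℝ) < p := by exact_mod_cast hp
  have h1 := Xop_ge p γ hp (fun t => F t - G t) (fun t => sub_nonneg.2 (h t)) t
  rw [Xop_sub] at h1
  have h2 := mul_le_mul_of_nonneg_left h1 hr0
  have h3 : r * ((F t - G t) / p) ≤ F t - G t := by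
    rw [← mul_div_assoc, div_le_iff₀ hp0]
    have := mul_le_mul_of_nonneg_right hr (sub_nonneg.2 (h t))
    linarith
  nlinarith

theorem hin_nonneg {p s0 : ℕ} (h : s0 + 2 ≤ p) (t : ℕ) : 0 ≤ hin p s0 t := by
  unfold hin
  have : ((s0 : ℝ) + 2) ≤ p := by exact_mod_cast h
  exact div_nonneg (Nat.cast_nonneg _) (by linarith)

theorem rho_ge {p s0 t : ℕ} (h : s0 ≤ t) : rho p s0 t = rho p s0 s0 := by
  unfold rho
  rw [Nat.min_eq_right h, Nat.min_self]

/-- weights of the pure classes -/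
noncomputable def wt (p i : ℕ) : ℝ := ((p : ℝ) - 1) * ((p : ℝ)⁻¹) ^ i

theorem wt_nonneg {p : ℕ} (hp : 1 ≤ p) (i : ℕ) : 0 ≤ wt p i := by
  have : (1 : ℝ) ≤ p := by exact_mod_cast hp
  exact mul_nonneg (by linarith) (by positivity)

theorem sum_wt {p : ℕ} (hp : 1 ≤ p) (γ : ℕ) :
    ∑ i ∈ Icc 1 γ, wt p i = 1 - ((p : ℝ)⁻¹) ^ γ := by
  have hp0 : (p : ℝ) ≠ 0 := by
    have : (0 : ℝ) < p := by exact_mod_cast hp
    exact this.ne'
  induction γ with
  | zero => simp
  | succ n ih =>
    rw [Finset.sum_Icc_succ_top (by omega), ih, wt, pow_succ]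
    field_simp
    ring

theorem sum_wt_le {p : ℕ} (hp : 1 ≤ p) (γ : ℕ) : ∑ i ∈ Icc 1 γ, wt p i ≤ 1 := by
  rw [sum_wt hp]
  have : (0 : ℝ) ≤ ((p : ℝ)⁻¹) ^ γ := by positivity
  linarith

/-! ### the new potential -/

open Classical in
/-- the new potential -/
noncomputable def pot (p γ s0 : ℕ) (f : ℕ → ℕ → ℝ) (X : ℕ → ℝ) (m : ℕ) : ℕ → ℝ :=
  if m / p ^ (m.factorization p) = 1 then fun t => wt p (m.factorization p) * hp p s0 X t
  else if m.factorization p = 0 then
    fun t => f (m / p ^ (m.factorization p)) t +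
      vs (rho p s0) (xs p γ 0 (f (m / p ^ (m.factorization p)))) t
  else vs (rho p s0) (xs p γ (m.factorization p) (f (m / p ^ (m.factorization p))))

theorem pot_pow {p γ s0 : ℕ} (hp' : p.Prime) (f : ℕ → ℕ → ℝ) (X : ℕ → ℝ) (i : ℕ) (t : ℕ) :
    pot p γ s0 f X (p ^ i) t = wt p i * hp p s0 X t := by
  have h1 : (p ^ i).factorization p = i := by
    rw [hp'.factorization_pow, Finsupp.single_eq_same]
  rw [pot, h1, Nat.div_self (pow_pos hp'.pos i), if_pos rfl]

theorem fact_mul {p i m : ℕ} (hp' : p.Prime) (hm : m ≠ 0) (hpm : ¬ p ∣ m) :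
    (p ^ i * m).factorization p = i := by
  rw [Nat.factorization_mul (pow_pos hp'.pos i).ne' hm, Finsupp.add_apply, hp'.factorization_pow,
    Finsupp.single_eq_same, Nat.factorization_eq_zero_of_not_dvd hpm, add_zero]

theorem pot_mul {p γ s0 : ℕ} (hp' : p.Prime) (f : ℕ → ℕ → ℝ) (X : ℕ → ℝ) {m : ℕ} (hm : m ≠ 0)
    (hm1 : m ≠ 1) (hpm : ¬ p ∣ m) (i t : ℕ) :
    pot p γ s0 f X (p ^ i * m) t =
      (if i = 0 then f m t else 0) + vs (rho p s0) (xs p γ i (f m)) t := by
  rw [pot, fact_mul hp' hm hpm, Nat.mul_div_cancel_left m (pow_pos hp'.pos i), if_neg hm1]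
  by_cases hi : i = 0
  · rw [if_pos hi, if_pos hi, hi]
  · rw [if_neg hi, if_neg hi, zero_add]

theorem sum_pot {p γ s0 : ℕ} (hp' : p.Prime) (f : ℕ → ℕ → ℝ) (X : ℕ → ℝ) {m : ℕ} (hm : m ≠ 0)
    (hm1 : m ≠ 1) (hpm : ¬ p ∣ m) (n : ℕ → ℕ) :
    ∑ i ∈ range (γ + 1), pot p γ s0 f X (p ^ i * m) (n i) =
      f m (n 0) + ∑ i ∈ range (γ + 1), vs (rho p s0) (xs p γ i (f m)) (n i) := by
  have h1 : ∀ i ∈ range (γ + 1), pot p γ s0 f X (p ^ i * m) (n i) =
      (if i = 0 then f m (n i) else 0) + vs (rho p s0) (xs p γ i (f m)) (n i) :=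
    fun i _ => pot_mul hp' f X hm hm1 hpm i (n i)
  rw [Finset.sum_congr rfl h1, Finset.sum_add_distrib]
  congr 1
  rw [Finset.sum_ite_eq' (range (γ + 1)) 0 (fun i => f m (n i)), if_pos (by simp)]

/-! ### counting -/

theorem pick_sum (hB2 : StmtClassCard) {p γ j : ℕ} (hp : 0 < p) (hj : j ≤ γ) (L : Multiset ℤ) :
    ∑ y ∈ range (p ^ γ), Multiset.card (pick (p ^ j) (y : ℤ) L) =
      Multiset.card L * p ^ (γ - j) := by
  induction L using Multiset.induction_on with
  | empty => simp [pick]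
  | cons c L ih =>
    have h1 : ∀ y : ℕ, Multiset.card (pick (p ^ j) (y : ℤ) (c ::ₘ L)) =
        (if c ≡ (y : ℤ) [ZMOD ((p ^ j : ℕ) : ℤ)] then 1 else 0) +
          Multiset.card (pick (p ^ j) (y : ℤ) L) := by
      intro y
      unfold pick
      by_cases h : c ≡ (y : ℤ) [ZMOD ((p ^ j : ℕ) : ℤ)]
      · rw [if_pos h, Multiset.filter_cons_of_pos
          (p := fun c : ℤ => c ≡ (y : ℤ) [ZMOD ((p ^ j : ℕ) : ℤ)]) _ h, Multiset.card_cons, add_comm]
      · rw [if_neg h, Multiset.filter_cons_of_neg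
          (p := fun c : ℤ => c ≡ (y : ℤ) [ZMOD ((p ^ j : ℕ) : ℤ)]) _ h, zero_add]
    simp only [h1]
    rw [Finset.sum_add_distrib, ih, Multiset.card_cons, add_mul, one_mul, add_comm]
    congr 1
    rw [← Finset.card_filter]
    exact hB2 p γ j c hp hj

end StepPf

open StepPf in
/-- E1 -/
theorem stmtStep (_hA1 : StmtChord) (_hA2 : StmtJensen) (hA3 : StmtSupport) (hB1 : StmtMeasure)
    (hB2 : StmtClassCard) (hB3 : StmtFibre) (hB4 : StmtShare) (hC1 : StmtXsMono)
    (hC2 : StmtXsSum) (hC3 : StmtConvZero) (hC4 : StmtConvPos) (hC5 : StmtMK) (hC6 : StmtRho)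
    (hC7 : StmtHp) (hC8 : StmtTotal) (hC9 : StmtHpInterp) (hD1 : StmtDivSum) (hD2 : StmtLift) :
    StmtStep := by
  classical
  intro p γ s0 Q F' F hp' hcop hQ hs0 hgood hhyp hF
  obtain ⟨f, hfc, hft, hfg⟩ := hgood
  have hp2 : 2 ≤ p := hp'.two_le
  have hp1 : 1 ≤ p := by omega
  have hpR : ((s0 : ℝ) + 2) ≤ p := by exact_mod_cast hs0
  have hs0R : (0 : ℝ) ≤ s0 := Nat.cast_nonneg _
  have hp0 : (0 : ℝ) < p := by linarith
  obtain ⟨hrm, hr1, hrp, hrint⟩ := hC6 p s0 hs0
  have hr0 : ∀ t, 0 ≤ rho p s0 t := fun t => zero_le_one.trans (hr1 t)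
  rcases Nat.eq_zero_or_pos γ with rfl | hγ
  · rw [pow_zero, one_mul]
    refine ⟨f, hfc, fun t => (hft t).trans ?_, hfg⟩
    have h1 := hF t
    have h2 : Xop p 0 F' t = 0 := by
      simp [Xop]
    rw [h2, mul_zero, add_zero] at h1
    linarith [hin_nonneg hs0 t]
  set D := Q.divisors.erase 1 with hD
  have hDm : ∀ m ∈ D, m ≠ 0 ∧ m ≠ 1 ∧ ¬ p ∣ m := by
    intro m hm
    rw [hD, Finset.mem_erase, Nat.mem_divisors] at hm
    refine ⟨?_, hm.1, ?_⟩
    · rintro rfl
      exact hQ.ne' (Nat.eq_zero_of_zero_dvd hm.2.1)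
    · intro hpm
      have := Nat.Coprime.eq_one_of_dvd hcop (hpm.trans hm.2.1)
      omega
  let Fh : ℕ → ℝ := fun t => ∑ m ∈ D, f m t
  let X : ℕ → ℝ := fun t => ∑ m ∈ D, ∑ i ∈ range (γ + 1), xs p γ i (f m) t
  have hXop : ∀ t, X t = Xop p γ Fh t := by
    intro t
    show ∑ m ∈ D, ∑ i ∈ range (γ + 1), xs p γ i (f m) t = Xop p γ (fun t => ∑ m ∈ D, f m t) t
    rw [Xop_sum]
    exact Finset.sum_congr rfl fun m _ => hC2 p γ (f m) t hp2 hγ
  have hXmono : Monotone X := by
    intro a b hab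
    exact Finset.sum_le_sum fun m _ => Finset.sum_le_sum fun i _ =>
      (hC1 p γ i (f m) hp2 hγ (hfc m)).1 hab
  have hX0 : X 0 = 0 :=
    Finset.sum_eq_zero fun m _ => Finset.sum_eq_zero fun i _ =>
      (hC1 p γ i (f m) hp2 hγ (hfc m)).2
  have hFh0 : ∀ t, 0 ≤ Fh t := fun t => Finset.sum_nonneg fun m _ => Conv.nonneg (hfc m) t
  have hXs : X (s0 - 1) ≤ ((p : ℝ) - s0) / ((p : ℝ) - 1) := by
    refine le_trans ?_ hhyp
    rw [hXop]
    refine Finset.sum_le_sum fun j _ => ?_
    refine mul_le_mul_of_nonneg_left ?_ (by positivity)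
    have h1 := hFh0 (j * (s0 - 1))
    have h2 := hft ((j + 1) * (s0 - 1))
    have h3 : Fh ((j + 1) * (s0 - 1)) ≤ F' ((j + 1) * (s0 - 1)) := h2
    linarith
  have hhp : Conv (hp p s0 X) := hC7 p s0 X hs0 hXmono hX0 hXs
  have hw0 : ∀ i, 0 ≤ wt p i := wt_nonneg hp1
  refine ⟨pot p γ s0 f X, ?_, ?_, ?_⟩
  · -- convexity
    intro m
    unfold pot
    split_ifs with h1 h2
    · exact Conv.smul hhp (hw0 _)
    · exact hC3 p γ _ (rho p s0) hp2 hγ (hfc _) hrm hr0 hrp
    · exact hC4 p γ _ _ (rho p s0) hp2 hγ (Nat.one_le_iff_ne_zero.2 h2) (hfc _) hrm hr0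
  · -- the total
    intro t
    refine le_trans ?_ (hF t)
    rw [hD1 p γ Q (fun m => pot p γ s0 f X m t) hp' hcop hQ]
    have e1 : ∑ i ∈ Icc 1 γ, pot p γ s0 f X (p ^ i) t ≤ hp p s0 X t := by
      have : ∀ i ∈ Icc 1 γ, pot p γ s0 f X (p ^ i) t = wt p i * hp p s0 X t :=
        fun i _ => pot_pow hp' f X i t
      rw [Finset.sum_congr rfl this, ← Finset.sum_mul]
      exact mul_le_of_le_one_left (Conv.nonneg hhp t) (sum_wt_le hp1 γ)
    have e2 : ∑ m ∈ Q.divisors.erase 1, ∑ i ∈ range (γ + 1), pot p γ s0 f X (p ^ i * m) t =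
        Fh t + vs (rho p s0) X t := by
      have : ∀ m ∈ D, ∑ i ∈ range (γ + 1), pot p γ s0 f X (p ^ i * m) t =
          f m t + ∑ i ∈ range (γ + 1), vs (rho p s0) (xs p γ i (f m)) t := fun m hm =>
        sum_pot hp' f X (hDm m hm).1 (hDm m hm).2.1 (hDm m hm).2.2 (fun _ => t)
      rw [Finset.sum_congr rfl this, Finset.sum_add_distrib]
      congr 1
      show _ = vs (rho p s0) (fun t => ∑ m ∈ D, ∑ i ∈ range (γ + 1), xs p γ i (f m) t) t
      rw [vs_sum]
      exact Finset.sum_congr rfl fun m _ => (vs_sum _ _ _ _).symm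
    have e3 := hC8 p s0 X t hX0
    have e4 := step_mono p γ hp1 F' Fh hft t (rho p s0 t) (hr0 t) (hrp t)
    rw [← hXop] at e4
    show ∑ i ∈ Icc 1 γ, pot p γ s0 f X (p ^ i) t +
      ∑ m ∈ Q.divisors.erase 1, ∑ i ∈ range (γ + 1), pot p γ s0 f X (p ^ i * m) t ≤ _
    rw [e2]
    linarith
  · -- the covering part
    intro C hC
    let n : ℕ → ℕ := fun i => Multiset.card (C (p ^ i))
    set s : ℝ := ∑ i ∈ Icc 1 γ, wt p i * n i with hs
    have hs_nonneg : 0 ≤ s := Finset.sum_nonneg fun i _ => mul_nonneg (hw0 i) (Nat.cast_nonneg _)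
    set k := ⌊s⌋₊ with hk
    set θ : ℝ := s - k with hθ
    have hθ0 : 0 ≤ θ := sub_nonneg.2 (Nat.floor_le hs_nonneg)
    have hθ1 : θ ≤ 1 := by
      have := Nat.lt_floor_add_one s
      rw [hθ]
      linarith
    have hsk : s = k + θ := by rw [hθ]; ring
    have hpm1 : (0 : ℝ) < (p : ℝ) - 1 := by linarith
    set m0 : ℝ := min s s0 with hm0
    have hm00 : 0 ≤ m0 := le_min hs_nonneg hs0R
    have hm0s : m0 ≤ s0 := min_le_right _ _
    have hden : 1 ≤ (p : ℝ) - 1 - m0 := by linarith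
    have hden0 : 0 < (p : ℝ) - 1 - m0 := by linarith
    set R : ℝ := ((p : ℝ) - 1) / ((p : ℝ) - 1 - m0) with hR
    have hR1 : 1 ≤ R := by
      rw [hR, le_div_iff₀ hden0]
      linarith
    have hR0 : 0 ≤ R := by linarith
    have hRp : R ≤ p := by
      rw [hR, div_le_iff₀ hden0]
      nlinarith
    have hRint : R ≤ (1 - θ) * rho p s0 k + θ * rho p s0 (k + 1) := by
      have := hrint k θ hθ0 hθ1
      rw [← hsk, ← hm0] at this
      exact this
    set α : ℝ := s / ((p : ℝ) - 1) with hα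
    -- the covered part of the fibre
    let B : Finset ℕ := (range (p ^ γ)).filter fun y : ℕ =>
      ∃ i ∈ Icc 1 γ, ∃ c ∈ C (p ^ i), c ≡ (y : ℤ) [ZMOD ((p ^ i : ℕ) : ℤ)]
    have hBcard : (B.card : ℝ) ≤ α * ((p ^ γ : ℕ) : ℝ) := by
      have h1 : B.card ≤ ∑ y ∈ range (p ^ γ), ∑ i ∈ Icc 1 γ,
          Multiset.card (pick (p ^ i) (y : ℤ) (C (p ^ i))) := by
        rw [Finset.card_filter]
        refine Finset.sum_le_sum fun y _ => ?_
        split_ifs with h
        · obtain ⟨i, hi, c, hc, hcy⟩ := h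
          refine le_trans ?_ (Finset.single_le_sum
            (f := fun i => Multiset.card (pick (p ^ i) (y : ℤ) (C (p ^ i))))
            (fun _ _ => Nat.zero_le _) hi)
          show 1 ≤ Multiset.card (pick (p ^ i) (y : ℤ) (C (p ^ i)))
          rw [Nat.one_le_iff_ne_zero, Ne, Multiset.card_eq_zero]
          intro h0
          have : c ∈ pick (p ^ i) (y : ℤ) (C (p ^ i)) := Multiset.mem_filter.2 ⟨hc, hcy⟩
          rw [h0] at this
          exact Multiset.notMem_zero c this
        · exact Nat.zero_le _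
      rw [Finset.sum_comm] at h1
      have h2 : ∑ i ∈ Icc 1 γ, ∑ y ∈ range (p ^ γ),
          Multiset.card (pick (p ^ i) (y : ℤ) (C (p ^ i))) =
          ∑ i ∈ Icc 1 γ, n i * p ^ (γ - i) :=
        Finset.sum_congr rfl fun i hi =>
          pick_sum hB2 hp'.pos (Finset.mem_Icc.1 hi).2 (C (p ^ i))
      rw [h2] at h1
      have h3 : (B.card : ℝ) ≤ ∑ i ∈ Icc 1 γ, (n i : ℝ) * (p : ℝ) ^ (γ - i) := by
        exact_mod_cast h1
      refine h3.trans (le_of_eq ?_)
      rw [hα, hs, Finset.sum_div, Finset.sum_mul]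
      refine Finset.sum_congr rfl fun i hi => ?_
      have hi' := (Finset.mem_Icc.1 hi).2
      rw [wt, Nat.cast_pow]
      have e : (p : ℝ) ^ γ = (p : ℝ) ^ (γ - i) * (p : ℝ) ^ i := by
        rw [← pow_add, Nat.sub_add_cancel hi']
      rw [e, inv_pow]
      have hpi : (p : ℝ) ^ i ≠ 0 := pow_ne_zero _ hp0.ne'
      field_simp
    have hNpos : 0 < p ^ γ := pow_pos hp'.pos γ
    obtain ⟨μ, hμ0, hμ1, hμR, hμB⟩ := hB1 (p ^ γ) B α R hNpos (Finset.filter_subset _ _) hBcard hR1
    rw [Nat.cast_pow] at hμR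
    -- the measure of the covered part
    have hμB' : ∑ y ∈ B, μ y ≤ max 0 (((k : ℝ) + θ - s0) / ((p : ℝ) - 1 - s0)) := by
      refine hμB.trans ?_
      rw [← hsk]
      have e1 : 1 - (1 - α) * R = (s - m0) / ((p : ℝ) - 1 - m0) := by
        rw [hα, hR]
        field_simp
        ring
      rw [e1]
      rcases le_total s s0 with h | h
      · have : m0 = s := min_eq_left h
        rw [this, sub_self, zero_div, max_self]
        exact le_max_left _ _
      · have : m0 = s0 := min_eq_right h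
        rw [this]
    -- the mean of one potential
    have hE : ∀ m ∈ D, ∑ y ∈ range (p ^ γ), μ y * f m (Multiset.card (fib p γ C (y : ℤ) m)) ≤
        f m (Multiset.card (C (p ^ 0 * m))) + ∑ i ∈ range (γ + 1),
          (vs (rho p s0) (xs p γ i (f m)) (Multiset.card (C (p ^ i * m))) +
            ((1 - θ) * us (rho p s0) (xs p γ i (f m)) (min k s0) +
              θ * us (rho p s0) (xs p γ i (f m)) (min (k + 1) s0))) := by
      intro m hm
      have h1 := hB3 p γ (f m) (fun i => C (p ^ i * m)) μ R hp2 (hfc m) hμ0 hμ1.le hμR hR0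
      rw [hμ1, one_mul] at h1
      have h2 := hB4 p γ (f m) (fun i => Multiset.card (C (p ^ i * m))) R hp2 hγ (hfc m) hR0 hRp
      refine (h1.trans h2).trans ?_
      refine add_le_add le_rfl ?_
      rw [Finset.mul_sum]
      refine Finset.sum_le_sum fun i _ => ?_
      obtain ⟨hxm, hx0⟩ := hC1 p γ i (f m) hp2 hγ (hfc m)
      rcases Nat.lt_or_ge k s0 with hks | hks
      · have h3 := hC5 (rho p s0) (xs p γ i (f m)) k (Multiset.card (C (p ^ i * m))) θ R hrm hxm hx0
          hθ0 hθ1 hRint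
        rw [Nat.min_eq_left hks.le, Nat.min_eq_left (Nat.succ_le_of_lt hks)]
        exact h3
      · have hR' : R ≤ (1 - (0 : ℝ)) * rho p s0 s0 + 0 * rho p s0 (s0 + 1) := by
          rw [rho_ge hks, rho_ge (hks.trans (Nat.le_succ k))] at hRint
          have e : (1 - θ) * rho p s0 s0 + θ * rho p s0 s0 = rho p s0 s0 := by ring
          rw [e] at hRint
          simpa using hRint
        have h3 := hC5 (rho p s0) (xs p γ i (f m)) s0 (Multiset.card (C (p ^ i * m))) 0 R hrm hxm
          hx0 le_rfl zero_le_one hR'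
        rw [Nat.min_eq_right hks, Nat.min_eq_right (hks.trans (Nat.le_succ k))]
        have e : (1 - θ) * us (rho p s0) (xs p γ i (f m)) s0 +
            θ * us (rho p s0) (xs p γ i (f m)) s0 = us (rho p s0) (xs p γ i (f m)) s0 := by ring
        rw [e]
        simpa using h3
    -- the potential of the pure classes
    have hpure : (1 - θ) * us (rho p s0) X (min k s0) + θ * us (rho p s0) X (min (k + 1) s0) +
        max 0 (((k : ℝ) + θ - s0) / ((p : ℝ) - 1 - s0)) ≤ ∑ i ∈ Icc 1 γ, wt p i * hp p s0 X (n i) :=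
      (hC9 p s0 X k θ hs0 hθ0 hθ1).trans
        (hA3 (hp p s0 X) hhp γ (wt p) n hw0 (sum_wt_le hp1 γ) k θ hθ0 hθ1 (hs.symm.trans hsk))
    have hus : ∀ j, ∑ m ∈ D, ∑ i ∈ range (γ + 1), us (rho p s0) (xs p γ i (f m)) j =
        us (rho p s0) X j := by
      intro j
      show _ = us (rho p s0) (fun t => ∑ m ∈ D, ∑ i ∈ range (γ + 1), xs p γ i (f m) t) j
      rw [us_sum]
      exact Finset.sum_congr rfl fun m _ => (us_sum _ _ _ _).symm
    -- the mean of everything
    have hPhi : Phi (p ^ γ * Q) (pot p γ s0 f X) C =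
        ∑ i ∈ Icc 1 γ, wt p i * hp p s0 X (n i) + ∑ m ∈ D, (f m (Multiset.card (C (p ^ 0 * m))) +
          ∑ i ∈ range (γ + 1),
            vs (rho p s0) (xs p γ i (f m)) (Multiset.card (C (p ^ i * m)))) := by
      unfold Phi
      rw [hD1 p γ Q (fun m => pot p γ s0 f X m (Multiset.card (C m))) hp' hcop hQ]
      congr 1
      · exact Finset.sum_congr rfl fun i _ => pot_pow hp' f X i _
      · exact Finset.sum_congr rfl fun m hm =>
          sum_pot hp' f X (hDm m hm).1 (hDm m hm).2.1 (hDm m hm).2.2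
            (fun i => Multiset.card (C (p ^ i * m)))
    have hmean : ∑ y ∈ range (p ^ γ), μ y * (Phi Q f (fib p γ C (y : ℤ)) +
        (if y ∈ B then 1 else 0)) < ∑ y ∈ range (p ^ γ), μ y := by
      rw [hμ1]
      refine lt_of_le_of_lt ?_ hC
      rw [hPhi]
      have e1 : ∑ y ∈ range (p ^ γ), μ y * (Phi Q f (fib p γ C (y : ℤ)) +
          (if y ∈ B then 1 else 0)) =
          (∑ m ∈ D, ∑ y ∈ range (p ^ γ), μ y * f m (Multiset.card (fib p γ C (y : ℤ) m))) +
            ∑ y ∈ B, μ y := by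
        simp only [mul_add, Finset.sum_add_distrib]
        congr 1
        · rw [Finset.sum_comm]
          refine Finset.sum_congr rfl fun y _ => ?_
          unfold Phi
          rw [Finset.mul_sum]
        · simp only [mul_ite, mul_one, mul_zero]
          rw [← Finset.sum_filter]
          refine Finset.sum_congr ?_ fun _ _ => rfl
          ext y
          simp only [B, Finset.mem_filter]
          tauto
      rw [e1]
      have e2 := Finset.sum_le_sum hE
      have e3 : ∑ m ∈ D, (f m (Multiset.card (C (p ^ 0 * m))) + ∑ i ∈ range (γ + 1),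
          (vs (rho p s0) (xs p γ i (f m)) (Multiset.card (C (p ^ i * m))) +
            ((1 - θ) * us (rho p s0) (xs p γ i (f m)) (min k s0) +
              θ * us (rho p s0) (xs p γ i (f m)) (min (k + 1) s0)))) =
          ∑ m ∈ D, (f m (Multiset.card (C (p ^ 0 * m))) +
          ∑ i ∈ range (γ + 1),
            vs (rho p s0) (xs p γ i (f m)) (Multiset.card (C (p ^ i * m)))) +
          ((1 - θ) * us (rho p s0) X (min k s0) + θ * us (rho p s0) X (min (k + 1) s0)) := by
        rw [← hus, ← hus, Finset.mul_sum, Finset.mul_sum, ← Finset.sum_add_distrib,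
          ← Finset.sum_add_distrib]
        refine Finset.sum_congr rfl fun m _ => ?_
        rw [Finset.sum_add_distrib, Finset.sum_add_distrib, Finset.mul_sum, Finset.mul_sum]
        ring
      rw [e3] at e2
      linarith
    obtain ⟨y, hy, hylt⟩ := Finset.exists_lt_of_sum_lt hmean
    have hPhi0 : 0 ≤ Phi Q f (fib p γ C (y : ℤ)) :=
      Finset.sum_nonneg fun m _ => Conv.nonneg (hfc m) _
    have hlt1 : Phi Q f (fib p γ C (y : ℤ)) + (if y ∈ B then (1 : ℝ) else 0) < 1 := by
      by_contra hc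
      have := mul_le_mul_of_nonneg_left (not_lt.1 hc) (hμ0 y)
      rw [mul_one] at this
      exact absurd hylt (not_lt.2 this)
    have hyB : y ∉ B := by
      intro h
      rw [if_pos h] at hlt1
      linarith
    rw [if_neg hyB, add_zero] at hlt1
    obtain ⟨x', hx'⟩ := hfg (fib p γ C (y : ℤ)) hlt1
    refine hD2 p γ Q C (y : ℤ) x' hp' hcop hQ ?_ hx'
    intro i hi c hc hcy
    exact hyB (Finset.mem_filter.2 ⟨hy, i, hi, c, hc, hcy⟩)

end OddCov

end
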