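import Pool.Agent.Work.MP_b5285d_nt.Stmts
import Pool.Agent.Work.MP_b5285d_nt.Stmts2
import Pool.Agent.Work.MP_b5285d_nt.Bd.B01

/-! Bundle of small proof modules (one section per former module). -/

section

/-!
# A3: supporting line of a convex sequence
-/

set_option autoImplicit false

namespace OddCov

open Finset

namespace SupportAux

theorem inc_le {h : ℕ → ℝ} (hc : Conv h) {a b : ℕ} (hab : a ≤ b) :
    h (a + 1) - h a ≤ h (b + 1) - h b := by
  have hm : Monotone (fun t => h (t + 1) - h t) := by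
    refine monotone_nat_of_le_succ fun n => ?_
    have := hc.conv n
    change h (n + 1) - h n ≤ h (n + 1 + 1) - h (n + 1)
    linarith
  exact hm hab

theorem line {h : ℕ → ℝ} (hc : Conv h) (k x : ℕ) :
    h k + (h (k + 1) - h k) * ((x : ℝ) - k) ≤ h x := by
  rcases le_total k x with hkx | hkx
  · induction x, hkx using Nat.le_induction with
    | base => simp
    | succ x hx ih =>
      have h1 := inc_le hc hx
      push_cast
      nlinarith
  · induction k, hkx using Nat.le_induction with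
    | base => simp
    | succ k hk ih =>
      have h1 := inc_le hc (Nat.le_succ k)
      have h2 : (x : ℝ) ≤ k := by exact_mod_cast hk
      have h3 : (h (k.succ + 1) - h k.succ) * ((x : ℝ) - k) ≤
          (h (k + 1) - h k) * ((x : ℝ) - k) :=
        mul_le_mul_of_nonpos_right h1 (by linarith)
      simp only [Nat.succ_eq_add_one] at h3 ⊢
      push_cast
      nlinarith

end SupportAux

open SupportAux in
/-- A3. -/
theorem stmtSupport : StmtSupport := by
  intro h hc γ w n hw hW k θ _ _ hs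
  set d : ℝ := h (k + 1) - h k with hd
  set W : ℝ := ∑ i ∈ Icc 1 γ, w i with hWdef
  have h1 : ∑ i ∈ Icc 1 γ, w i * (h k + d * ((n i : ℝ) - k)) ≤ ∑ i ∈ Icc 1 γ, w i * h (n i) :=
    Finset.sum_le_sum fun i _ => mul_le_mul_of_nonneg_left (line hc k (n i)) (hw i)
  have h2 : ∑ i ∈ Icc 1 γ, w i * (h k + d * ((n i : ℝ) - k)) =
      W * h k + d * (k + θ) - d * k * W := by
    have e : ∀ i ∈ Icc 1 γ, w i * (h k + d * ((n i : ℝ) - k)) =
        w i * h k + d * (w i * n i) - d * k * w i := fun i _ => by ring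
    rw [Finset.sum_congr rfl e, Finset.sum_sub_distrib, Finset.sum_add_distrib, ← Finset.sum_mul,
      ← Finset.mul_sum, ← Finset.mul_sum, hs]
  have h3 : h k ≤ k * d := by
    have := line hc k 0
    rw [hc.zero, ← hd] at this
    push_cast at this
    linarith
  have h4 : 0 ≤ (1 - W) * (d * k - h k) :=
    mul_nonneg (by linarith) (by linarith)
  have h5 : h (k + 1) = h k + d := by rw [hd]; ring
  rw [h2] at h1
  rw [h5]
  nlinarith

end OddCov

end

section

/-!
# MP_b5285d_nt, item C8: the total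
-/

namespace OddCov

open Finset

namespace TotalAux

theorem us_add_vs (R x : ℕ → ℝ) (h0 : x 0 = 0) (k : ℕ) : us R x k + vs R x k = R k * x k := by
  unfold us vs
  rw [← Finset.sum_add_distrib]
  have h1 : ∀ r ∈ range k, (R k - R (r + 1)) * (x (r + 1) - x r) + R (r + 1) * (x (r + 1) - x r) =
      R k * (x (r + 1) - x r) := fun r _ => by ring
  rw [Finset.sum_congr rfl h1, ← Finset.mul_sum, Finset.sum_range_sub, h0, sub_zero]

theorem rho_min (p s0 t : ℕ) (h : s0 ≤ t) : rho p s0 t = rho p s0 s0 := by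
  unfold rho
  rw [min_eq_right h, min_self]

theorem key (p s0 : ℕ) (X : ℕ → ℝ) (h0 : X 0 = 0) (n : ℕ) :
    vs (rho p s0) X (s0 + n) + us (rho p s0) X s0 = rho p s0 s0 * X (s0 + n) := by
  induction n with
  | zero => rw [add_zero, add_comm]; exact us_add_vs _ _ h0 _
  | succ n ih =>
    have h1 : vs (rho p s0) X (s0 + (n + 1)) = vs (rho p s0) X (s0 + n) +
        rho p s0 s0 * (X (s0 + (n + 1)) - X (s0 + n)) := by
      rw [← add_assoc]
      unfold vs
      rw [Finset.sum_range_succ, rho_min p s0 (s0 + n + 1) (by omega)]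
    rw [h1]
    linarith

end TotalAux

open TotalAux in
theorem stmtTotal : StmtTotal := by
  intro p s0 X t h0
  unfold hp
  rcases le_total t s0 with h | h
  · rw [min_eq_left h]
    have := us_add_vs (rho p s0) X h0 t
    linarith
  · rw [min_eq_right h]
    obtain ⟨n, rfl⟩ := Nat.exists_eq_add_of_le h
    have := key p s0 X h0 n
    rw [rho_min p s0 (s0 + n) h]
    linarith

end OddCov

end

section

/-!
# N8: soundness of one block of the checker
-/

namespace OddCov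

open Finset

/-! ## Lookups -/

theorem bsd_nil (i j : ℕ) : ent [] i j = none := by simp [ent]

theorem bsd_zero (v : List ℕ) (vs : List (List ℕ)) (j : ℕ) : ent (v :: vs) 0 j = v[j]? := by
  simp [ent]

theorem bsd_succ (v : List ℕ) (vs : List (List ℕ)) (i j : ℕ) :
    ent (v :: vs) (i + 1) j = ent vs i j := by
  simp [ent]

theorem bsd_headD (ws : List (List ℕ)) (j : ℕ) : (ws.headD [])[j]? = ent ws 0 j := by
  cases ws <;> simp [ent]

theorem bsd_tail (ws : List (List ℕ)) (i j : ℕ) : ent ws.tail i j = ent ws (i + 1) j := by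
  cases ws <;> simp [ent]

theorem bsd_hd (d : ℕ) (u : List ℕ) : hd d u = (u[0]?).getD d := by
  cases u <;> simp [hd]

theorem bsd_tl (u : List ℕ) (j : ℕ) : u.tail[j]? = u[j + 1]? := by
  cases u <;> simp

/-- numerator with default values -/
def bsdN (c : Co) (K t w : ℕ) (u2 u3 u4 u6 : Option ℕ) : ℕ :=
  num c t (K * (t * t)) w (u2.getD (4 * (K * (t * t)))) (u3.getD (9 * (K * (t * t))))
    (u4.getD (16 * (K * (t * t)))) (u6.getD (36 * (K * (t * t))))

/-! ## `tabT` -/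

theorem bsd_rowT_none (c : Co) (K : ℕ) : ∀ (j t : ℕ) (v w u z : List ℕ), v[j]? = none →
    (rowT c K t v w u z)[j]? = none
  | 0, t, v, w, u, z, h => by
      cases v with
      | nil => simp [rowT]
      | cons x vs => simp at h
  | j + 1, t, v, w, u, z, h => by
      cases v with
      | nil => simp [rowT]
      | cons x vs =>
        cases w with
        | nil => simp [rowT]
        | cons y ws =>
          rw [rowT, List.getElem?_cons_succ]
          rw [List.getElem?_cons_succ] at h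
          exact bsd_rowT_none c K j (3 * t) vs ws u.tail z.tail h

theorem bsd_rowT_some (c : Co) (K : ℕ) : ∀ (j t : ℕ) (v w u z : List ℕ) (x y : ℕ),
    v[j]? = some x → w[j]? = some y →
    (rowT c K t v w u z)[j]? =
      some (x + bsdN c K (t * 3 ^ j) y u[j]? w[j + 1]? z[j]? u[j + 1]? / den c (t * 3 ^ j) + 1)
  | 0, t, v, w, u, z, x, y, hx, hy => by
      cases v with
      | nil => simp at hx
      | cons x' vs =>
        cases w with
        | nil => simp at hy
        | cons y' ws =>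
          simp only [List.getElem?_cons_zero, Option.some.injEq] at hx hy
          subst hx hy
          rw [rowT, List.getElem?_cons_zero]
          simp only [bsd_hd, bsd_tl, bsdN, pow_zero, mul_one, List.getElem?_cons_succ]
  | j + 1, t, v, w, u, z, x, y, hx, hy => by
      cases v with
      | nil => simp at hx
      | cons x' vs =>
        cases w with
        | nil => simp at hy
        | cons y' ws =>
          rw [List.getElem?_cons_succ] at hx hy
          rw [rowT, List.getElem?_cons_succ,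
            bsd_rowT_some c K j (3 * t) vs ws u.tail z.tail x y hx hy]
          have e : 3 * t * 3 ^ j = t * 3 ^ (j + 1) := by ring
          rw [e, bsd_tl, bsd_tl, bsd_tl, List.getElem?_cons_succ]

theorem bsd_tabT_none (c : Co) (K : ℕ) : ∀ (i j t : ℕ) (V W : List (List ℕ)), ent V i j = none →
    ent (tabT c K t V W) i j = none
  | 0, j, t, V, W, h => by
      cases V with
      | nil => simp [tabT, bsd_nil]
      | cons v vs =>
        cases W with
        | nil => simp [tabT, bsd_nil]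
        | cons w ws =>
          rw [tabT, bsd_zero]
          rw [bsd_zero] at h
          exact bsd_rowT_none c K j t v w _ _ h
  | i + 1, j, t, V, W, h => by
      cases V with
      | nil => simp [tabT, bsd_nil]
      | cons v vs =>
        cases W with
        | nil => simp [tabT, bsd_nil]
        | cons w ws =>
          rw [tabT, bsd_succ]
          rw [bsd_succ] at h
          exact bsd_tabT_none c K i j (2 * t) vs ws h

theorem bsd_tabT_some (c : Co) (K : ℕ) : ∀ (i j t : ℕ) (V W : List (List ℕ)) (x y : ℕ),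
    ent V i j = some x → ent W i j = some y →
    ent (tabT c K t V W) i j =
      some (x + bsdN c K (t * 2 ^ i * 3 ^ j) y (ent W (i + 1) j) (ent W i (j + 1))
        (ent W (i + 2) j) (ent W (i + 1) (j + 1)) / den c (t * 2 ^ i * 3 ^ j) + 1)
  | 0, j, t, V, W, x, y, hx, hy => by
      cases V with
      | nil => simp [bsd_nil] at hx
      | cons v vs =>
        cases W with
        | nil => simp [bsd_nil] at hy
        | cons w ws =>
          rw [bsd_zero] at hx hy
          rw [tabT, bsd_zero, bsd_rowT_some c K j t v w _ _ x y hx hy]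
          rw [bsd_headD, bsd_headD, bsd_headD, bsd_tail, bsd_succ, bsd_zero, bsd_succ, bsd_succ,
            pow_zero, mul_one]
  | i + 1, j, t, V, W, x, y, hx, hy => by
      cases V with
      | nil => simp [bsd_nil] at hx
      | cons v vs =>
        cases W with
        | nil => simp [bsd_nil] at hy
        | cons w ws =>
          rw [bsd_succ] at hx hy
          rw [tabT, bsd_succ, bsd_tabT_some c K i j (2 * t) vs ws x y hx hy]
          have e : 2 * t * 2 ^ i * 3 ^ j = t * 2 ^ (i + 1) * 3 ^ j := by ring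
          rw [e, bsd_succ, bsd_succ, bsd_succ, bsd_succ]

/-! ## `tabC` -/

theorem bsd_rowC (c : Co) (K : ℕ) : ∀ (j t : ℕ) (v v' w u z : List ℕ),
    rowC c K t v v' w u z = true →
    (v[j]? = none ∧ v'[j]? = none ∧ w[j]? = none) ∨
      ∃ x x' y, v[j]? = some x ∧ v'[j]? = some x' ∧ w[j]? = some y ∧ x ≤ x' ∧
        bsdN c K (t * 3 ^ j) y u[j]? w[j + 1]? z[j]? u[j + 1]? ≤ (x' - x) * den c (t * 3 ^ j)
  | j, t, [], [], [], u, z, _ => Or.inl ⟨by simp, by simp, by simp⟩
  | j, t, [], [], y :: ws, u, z, h => by simp [rowC] at h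
  | j, t, [], x' :: vs', w, u, z, h => by simp [rowC] at h
  | j, t, x :: vs, [], w, u, z, h => by simp [rowC] at h
  | j, t, x :: vs, x' :: vs', [], u, z, h => by simp [rowC] at h
  | 0, t, x :: vs, x' :: vs', y :: ws, u, z, h => by
      rw [rowC, Bool.and_eq_true, Bool.and_eq_true, Nat.ble_eq, Nat.ble_eq] at h
      refine Or.inr ⟨x, x', y, by simp, by simp, by simp, h.1.2, ?_⟩
      have h1 := h.1.1
      simp only [bsd_hd, bsd_tl] at h1
      simpa only [bsdN, pow_zero, mul_one, List.getElem?_cons_succ] using h1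
  | j + 1, t, x :: vs, x' :: vs', y :: ws, u, z, h => by
      rw [rowC, Bool.and_eq_true, Bool.and_eq_true, Nat.ble_eq, Nat.ble_eq] at h
      have h1 := bsd_rowC c K j (3 * t) vs vs' ws u.tail z.tail h.2
      have e : 3 * t * 3 ^ j = t * 3 ^ (j + 1) := by ring
      rw [e, bsd_tl, bsd_tl, bsd_tl] at h1
      simpa only [List.getElem?_cons_succ] using h1

theorem bsd_tabC (c : Co) (K : ℕ) : ∀ (i j t : ℕ) (V V' W : List (List ℕ)),
    tabC c K t V V' W = true →
    (ent V i j = none ∧ ent V' i j = none ∧ ent W i j = none) ∨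
      ∃ x x' y, ent V i j = some x ∧ ent V' i j = some x' ∧ ent W i j = some y ∧ x ≤ x' ∧
        bsdN c K (t * 2 ^ i * 3 ^ j) y (ent W (i + 1) j) (ent W i (j + 1))
        (ent W (i + 2) j) (ent W (i + 1) (j + 1)) ≤ (x' - x) * den c (t * 2 ^ i * 3 ^ j)
  | i, j, t, [], [], [], _ => Or.inl ⟨bsd_nil _ _, bsd_nil _ _, bsd_nil _ _⟩
  | i, j, t, [], [], w :: ws, h => by simp [tabC] at h
  | i, j, t, [], v' :: vs', W, h => by simp [tabC] at h
  | i, j, t, v :: vs, [], W, h => by simp [tabC] at h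
  | i, j, t, v :: vs, v' :: vs', [], h => by simp [tabC] at h
  | 0, j, t, v :: vs, v' :: vs', w :: ws, h => by
      rw [tabC, Bool.and_eq_true] at h
      have h1 := bsd_rowC c K j t v v' w _ _ h.1
      rw [bsd_headD, bsd_headD, bsd_headD, bsd_tail] at h1
      rw [bsd_zero, bsd_zero, bsd_zero, bsd_zero, bsd_succ, bsd_succ, bsd_succ, pow_zero, mul_one]
      exact h1
  | i + 1, j, t, v :: vs, v' :: vs', w :: ws, h => by
      rw [tabC, Bool.and_eq_true] at h
      have h1 := bsd_tabC c K i j (2 * t) vs vs' ws h.2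
      have e : 2 * t * 2 ^ i * 3 ^ j = t * 2 ^ (i + 1) * 3 ^ j := by ring
      rw [e] at h1
      simpa only [bsd_succ] using h1

/-! ## The increments -/

/-- the real value of a default entry -/
theorem bsd_wT (V : List (List ℕ)) (K i j d : ℕ) (h : d = K * (2 ^ i * 3 ^ j) ^ 2) :
    wT V K i j = (((ent V i j).getD d : ℕ) : ℝ) / SC := by
  rw [wT, h]

theorem bsd_inc (a s0 n K i j w : ℕ) (W : List (List ℕ)) (ha : 5 ≤ a) (hs : 1 ≤ s0)
    (hsa : s0 + 2 ≤ a) (hw : ent W i j = some w) :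
    (n : ℝ) * Inc a s0 (wT W K) ((K : ℝ) / SC) i j ≤
      (bsdN (mkCo a n s0) K (2 ^ i * 3 ^ j) w (ent W (i + 1) j) (ent W i (j + 1))
        (ent W (i + 2) j) (ent W (i + 1) (j + 1)) : ℝ) /
        (den (mkCo a n s0) (2 ^ i * 3 ^ j) * SC) := by
  set t : ℕ := 2 ^ i * 3 ^ j with ht
  have htR : ((2 : ℝ) ^ i * 3 ^ j) = t := by rw [ht]; push_cast; ring
  set u2 := (ent W (i + 1) j).getD (4 * (K * (t * t))) with hu2
  set u3 := (ent W i (j + 1)).getD (9 * (K * (t * t))) with hu3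
  set u4 := (ent W (i + 2) j).getD (16 * (K * (t * t))) with hu4
  set u6 := (ent W (i + 1) (j + 1)).getD (36 * (K * (t * t))) with hu6
  have e1 : wT W K i j = (w : ℝ) / SC := by rw [wT, hw, Option.getD_some]
  have e2 : wT W K (i + 1) j = (u2 : ℝ) / SC :=
    bsd_wT W K (i + 1) j _ (by rw [ht]; ring)
  have e3 : wT W K i (j + 1) = (u3 : ℝ) / SC :=
    bsd_wT W K i (j + 1) _ (by rw [ht]; ring)
  have e4 : wT W K (i + 2) j = (u4 : ℝ) / SC :=
    bsd_wT W K (i + 2) j _ (by rw [ht]; ring)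
  have e6 : wT W K (i + 1) (j + 1) = (u6 : ℝ) / SC :=
    bsd_wT W K (i + 1) (j + 1) _ (by rw [ht]; ring)
  obtain ⟨b, rfl⟩ : ∃ b, a = b + 1 := ⟨a - 1, by omega⟩
  set m := min t s0 with hm
  have hmb : m + 1 ≤ b := by omega
  obtain ⟨d, hd⟩ : ∃ d, b = m + d := ⟨b - m, by omega⟩
  have hd1 : 1 ≤ d := by omega
  have hN : bsdN (mkCo (b + 1) n s0) K t w (ent W (i + 1) j) (ent W i (j + 1))
        (ent W (i + 2) j) (ent W (i + 1) (j + 1)) =
      n * ((2 * b ^ 2 * (b + 1) ^ 4) * u2 + (2 * b ^ 2 * (b + 1) ^ 3) * u3 +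
        (2 * b ^ 2 * (b + 1) ^ 2 + b ^ 2 * (b + 1)) * u4 + (b ^ 2 * (b + 1) + 2 * b ^ 2) * u6 +
        (106 * b) * (K * (t * t)) + (2 * SC * (b + 1) ^ 6) * (t - s0) -
        (2 * b * (b + 1) ^ 5) * w) := by
    simp only [bsdN, num, mkCo, Nat.add_sub_cancel, ← hu2, ← hu3, ← hu4, ← hu6]
  have hD : den (mkCo (b + 1) n s0) t = 2 * (b + 1) ^ 6 * d := by
    simp only [den, mkCo, Nat.add_sub_cancel]
    rw [← hm]
    congr 1
    omega
  rw [hN, hD]
  have hsub : ∀ x y : ℕ, (x : ℝ) - y ≤ ((x - y : ℕ) : ℝ) := by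
    intro x y
    rcases le_total y x with h | h
    · rw [Nat.cast_sub h]
    · rw [Nat.sub_eq_zero_of_le h, Nat.cast_zero, sub_nonpos]
      exact_mod_cast h
  have hbR : (0 : ℝ) < b := by exact_mod_cast (by omega : 0 < b)
  have hdR : (0 : ℝ) < d := by exact_mod_cast (by omega : 0 < d)
  have hrho : rho (b + 1) s0 t = (b : ℝ) / d := by
    unfold rho
    rw [← hm]
    have : ((b + 1 : ℕ) : ℝ) - 1 = b := by push_cast; ring
    rw [this]
    congr 1
    rw [hd]; push_cast; ring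
  have hhin : hin (b + 1) s0 t = ((t - s0 : ℕ) : ℝ) / d := by
    unfold hin
    rcases le_total t s0 with h | h
    · rw [Nat.sub_eq_zero_of_le h]; simp
    · congr 1
      have : m = s0 := by omega
      rw [hd, this]; push_cast; ring
  unfold Inc
  rw [← ht, hrho, hhin]
  unfold Lw
  rw [e1, e2, e3, e4, e6, htR]
  have hSC : (0 : ℝ) < SC := by norm_num
  rw [le_div_iff₀ (by positivity)]
  set A : ℕ := (2 * b ^ 2 * (b + 1) ^ 4) * u2 + (2 * b ^ 2 * (b + 1) ^ 3) * u3 +
        (2 * b ^ 2 * (b + 1) ^ 2 + b ^ 2 * (b + 1)) * u4 + (b ^ 2 * (b + 1) + 2 * b ^ 2) * u6 +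
        (106 * b) * (K * (t * t)) + (2 * SC * (b + 1) ^ 6) * (t - s0) with hA
  set A' : ℕ := (2 * b * (b + 1) ^ 5) * w with hA'
  have key : (n : ℝ) * ((A : ℝ) - A') ≤ ((n * (A - A') : ℕ) : ℝ) := by
    rw [Nat.cast_mul n (A - A')]
    exact mul_le_mul_of_nonneg_left (hsub A A') (Nat.cast_nonneg n)
  refine le_trans (le_of_eq ?_) key
  rw [hA, hA']
  generalize hX : ((t - s0 : ℕ)) = X
  push_cast
  have hb1 : (b : ℝ) + 1 ≠ 0 := by positivity
  field_simp
  ring

theorem bsd_incK (a s0 K : ℕ) (ha : 5 ≤ a) (hs : 1 ≤ s0) (hsa : s0 + 2 ≤ a) :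
    IncK a s0 ((K : ℝ) / SC) =
      ((K * (3 * a - 1) * (4 * s0) + (a - 1) * SC : ℕ) : ℝ) /
        ((4 * s0 * (a - 1) * (a - 1 - s0) : ℕ) * SC) := by
  obtain ⟨d, rfl⟩ : ∃ d, a = s0 + 1 + d := ⟨a - (s0 + 1), by omega⟩
  have hd1 : 1 ≤ d := by omega
  have h1 : 3 * (s0 + 1 + d) - 1 = 3 * s0 + 2 + 3 * d := by omega
  have h2 : s0 + 1 + d - 1 = s0 + d := by omega
  have h3 : s0 + 1 + d - 1 - s0 = d := by omega
  rw [h1, h3, h2]
  unfold IncK
  have hdR : (0 : ℝ) < d := by exact_mod_cast (by omega : 0 < d)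
  have hsR : (0 : ℝ) < s0 := by exact_mod_cast (by omega : 0 < s0)
  have e1 : ((s0 + 1 + d : ℕ) : ℝ) - 1 = s0 + d := by push_cast; ring
  have e2 : (s0 : ℝ) + d - s0 = d := by ring
  rw [e1, e2]
  push_cast
  have : (s0 : ℝ) + d ≠ 0 := by positivity
  field_simp
  ring

theorem bsd_incK_mono (a s0 : ℕ) (K K' : ℝ) (ha : 5 ≤ a) (hsa : s0 + 2 ≤ a) (h : K ≤ K') :
    IncK a s0 K ≤ IncK a s0 K' := by
  unfold IncK
  have h1 : (s0 : ℝ) + 2 ≤ a := by exact_mod_cast hsa
  have h2 : (5 : ℝ) ≤ a := by exact_mod_cast ha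
  have h3 : (0 : ℝ) < ((a : ℝ) - 1) * ((a : ℝ) - 1 - s0) :=
    mul_pos (by linarith) (by linarith)
  have h4 : (0 : ℝ) ≤ 3 * a - 1 := by linarith
  gcongr

theorem bsd_side (a s0 K : ℕ) (ha : 5 ≤ a) (hsa : s0 + 2 ≤ a)
    (h : K * (s0 - 1) ^ 2 * (4 * a ^ 2 - 3 * a + 1) ≤ SC * ((a - s0) * (a - 1) ^ 2)) :
    Side a s0 ((K : ℝ) / SC) := by
  unfold Side
  have h1 : 3 * a ≤ 4 * a ^ 2 := by nlinarith
  have h2 : ((K * (s0 - 1) ^ 2 * (4 * a ^ 2 - 3 * a + 1) : ℕ) : ℝ) ≤
      ((SC * ((a - s0) * (a - 1) ^ 2) : ℕ) : ℝ) := by exact_mod_cast h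
  have e1 : ((4 * a ^ 2 - 3 * a + 1 : ℕ) : ℝ) = 4 * (a : ℝ) ^ 2 - 3 * a + 1 := by
    rw [Nat.cast_add, Nat.cast_sub h1]; push_cast; ring
  have e2 : ((a - s0 : ℕ) : ℝ) = (a : ℝ) - s0 := Nat.cast_sub (by omega)
  have e3 : ((a - 1 : ℕ) : ℝ) = (a : ℝ) - 1 := by rw [Nat.cast_sub (by omega)]; simp
  rw [Nat.cast_mul, Nat.cast_mul, e1, Nat.cast_mul, Nat.cast_mul, e2, Nat.cast_pow (a - 1), e3,
    Nat.cast_pow] at h2
  have hSC : (0 : ℝ) < SC := by norm_num
  rw [div_mul_eq_mul_div, div_mul_eq_mul_div, div_le_iff₀ hSC]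
  linarith

theorem bsd_den (a n s0 t : ℕ) (hsa : s0 + 2 ≤ a) : 0 < den (mkCo a n s0) t := by
  simp only [den, mkCo]
  have h1 : 0 < a - 1 - min t s0 := by omega
  have h2 : 0 < a := by omega
  positivity

theorem stmtBlockSound (hB : StmtStBlock) : StmtBlockSound := by
  intro E a b n s0 K K' V V' hstep hQ hcard
  have hSC : (0 : ℝ) < SC := by norm_num
  unfold blockStep at hstep
  simp only at hstep
  by_cases hn : n = 1
  · subst hn
    rw [if_pos rfl] at hstep
    split_ifs at hstep with hc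
    obtain ⟨ha, hs, hsa, hside⟩ := hc
    simp only [Option.some.injEq, Prod.mk.injEq] at hstep
    obtain ⟨hV, hK⟩ := hstep
    rw [hK] at hside
    have hdK : 0 < 4 * s0 * (a - 1) * (a - 1 - s0) := by
      have h1 : 0 < a - 1 - s0 := by omega
      have h2 : 0 < a - 1 := by omega
      positivity
    have hKK : K ≤ K' := by
      rw [← hK]
      exact (Nat.le_add_right _ _).trans (Nat.le_add_right _ _)
    refine hB E a b 1 s0 (wT V K) (wT V' K') ((K : ℝ) / SC) ((K' : ℝ) / SC) ha hs hsa le_rfl hQ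
      hcard (by positivity) (by gcongr) (bsd_side a s0 K' ha hsa hside) ?_ (Or.inl rfl) ?_
    · rw [bsd_incK a s0 K ha hs hsa, Nat.cast_one, one_mul, ← sub_div, ← div_div,
        div_le_div_iff_of_pos_right hSC]
      set A := K * (3 * a - 1) * (4 * s0) + (a - 1) * SC
      set D := 4 * s0 * (a - 1) * (a - 1 - s0)
      have h1 : (A : ℝ) / D ≤ ((A / D + 1 : ℕ) : ℝ) := by
        push_cast
        exact (Nat.lt_floor_add_one _).le.trans (by rw [Nat.floor_div_eq_div])
      rw [← hK]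
      push_cast at h1 ⊢
      linarith
    · intro i j
      cases hx : ent V i j with
      | none =>
        right
        have h1 : ent V' i j = none := by rw [← hV]; exact bsd_tabT_none _ K i j 1 V V hx
        constructor
        · rw [wT, hx, Option.getD_none]; push_cast; ring
        · rw [wT, h1, Option.getD_none]; push_cast; ring
      | some x =>
        left
        have h1 := bsd_tabT_some (mkCo a 1 s0) K i j 1 V V x x hx hx
        rw [hV, one_mul] at h1
        set N := bsdN (mkCo a 1 s0) K (2 ^ i * 3 ^ j) x (ent V (i + 1) j) (ent V i (j + 1))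
          (ent V (i + 2) j) (ent V (i + 1) (j + 1)) with hN
        set D := den (mkCo a 1 s0) (2 ^ i * 3 ^ j) with hD
        have hD0 : 0 < D := bsd_den a 1 s0 _ hsa
        have e1 : wT V K i j = (x : ℝ) / SC := by rw [wT, hx, Option.getD_some]
        have e2 : wT V' K' i j = ((x + N / D + 1 : ℕ) : ℝ) / SC := by
          rw [wT, h1, Option.getD_some]
        have h2 : (N : ℝ) / D ≤ ((N / D + 1 : ℕ) : ℝ) := by
          push_cast
          exact (Nat.lt_floor_add_one _).le.trans (by rw [Nat.floor_div_eq_div])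
        refine ⟨?_, ?_, Or.inl rfl⟩
        · rw [e1, e2]
          gcongr
          exact (Nat.le_add_right _ _).trans (Nat.le_add_right _ _)
        · refine (bsd_inc a s0 1 K i j x V ha hs hsa hx).trans ?_
          rw [← hN, ← hD, e1, e2, ← sub_div, ← div_div, div_le_div_iff_of_pos_right hSC]
          push_cast at h2 ⊢
          linarith
  · rw [if_neg hn] at hstep
    split_ifs at hstep with hc
    obtain ⟨ha, hn1, hs, hsa, hKK, hinc, hside, hC1, hC2⟩ := hc
    simp only [Option.some.injEq, Prod.mk.injEq] at hstep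
    obtain ⟨hV, hK⟩ := hstep
    rw [hK] at hKK hinc hside hC1 hC2 hV
    rw [hV] at hC1 hC2
    have hdK : 0 < 4 * s0 * (a - 1) * (a - 1 - s0) := by
      have h1 : 0 < a - 1 - s0 := by omega
      have h2 : 0 < a - 1 := by omega
      positivity
    have hKR : (K : ℝ) / SC ≤ (K' : ℝ) / SC := by gcongr
    have hIK : (n : ℝ) * IncK a s0 ((K' : ℝ) / SC) ≤ (K' : ℝ) / SC - (K : ℝ) / SC := by
      rw [bsd_incK a s0 K' ha hs hsa, ← sub_div, ← div_div, ← mul_div_assoc,
        div_le_div_iff_of_pos_right hSC, ← mul_div_assoc,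
        div_le_iff₀ (by exact_mod_cast hdK), ← Nat.cast_sub hKK]
      exact_mod_cast hinc
    refine hB E a b n s0 (wT V K) (wT V' K') ((K : ℝ) / SC) ((K' : ℝ) / SC) ha hs hsa hn1 hQ
      hcard (by positivity) hKR (bsd_side a s0 K' ha hsa hside) ?_ (Or.inr hIK) ?_
    · exact (mul_le_mul_of_nonneg_left (bsd_incK_mono a s0 _ _ ha hsa hKR)
        (Nat.cast_nonneg n)).trans hIK
    · intro i j
      have fin : ∀ (L : ℕ) (W : List (List ℕ)) (x x' y : ℕ), ent V i j = some x →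
          ent V' i j = some x' → ent W i j = some y → x ≤ x' →
          bsdN (mkCo a n s0) L (2 ^ i * 3 ^ j) y (ent W (i + 1) j) (ent W i (j + 1))
            (ent W (i + 2) j) (ent W (i + 1) (j + 1)) ≤
            (x' - x) * den (mkCo a n s0) (2 ^ i * 3 ^ j) →
          n * Inc a s0 (wT W L) ((L : ℝ) / SC) i j ≤ wT V' K' i j - wT V K i j := by
        intro L W x x' y hx hx' hy hxx hle
        refine (bsd_inc a s0 n L i j y W ha hs hsa hy).trans ?_
        set N := bsdN (mkCo a n s0) L (2 ^ i * 3 ^ j) y (ent W (i + 1) j) (ent W i (j + 1))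
          (ent W (i + 2) j) (ent W (i + 1) (j + 1)) with hN
        set D := den (mkCo a n s0) (2 ^ i * 3 ^ j) with hD
        have hD0 : 0 < D := bsd_den a n s0 _ hsa
        have e1 : wT V K i j = (x : ℝ) / SC := by rw [wT, hx, Option.getD_some]
        have e2 : wT V' K' i j = (x' : ℝ) / SC := by rw [wT, hx', Option.getD_some]
        rw [e1, e2, ← sub_div, ← div_div, div_le_div_iff_of_pos_right hSC,
          div_le_iff₀ (by exact_mod_cast hD0), ← Nat.cast_sub hxx]
        exact_mod_cast hle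
      rcases bsd_tabC _ K i j 1 V V' V hC1 with h1 | ⟨x, x', y, hx, hx', hy, hxx, hle⟩
      · right
        constructor
        · rw [wT, h1.1, Option.getD_none]; push_cast; ring
        · rw [wT, h1.2.1, Option.getD_none]; push_cast; ring
      · left
        rw [one_mul] at hle
        refine ⟨?_, fin K V x x' y hx hx' hy hxx hle, Or.inr ?_⟩
        · rw [wT, wT, hx, hx', Option.getD_some, Option.getD_some]
          gcongr
        · rcases bsd_tabC _ K' i j 1 V V' V' hC2 with h2 | ⟨x1, x1', y1, hx1, hx1', hy1, hxx1, hle1⟩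
          · rw [hx] at h2
            exact absurd h2.1 (by simp)
          · rw [one_mul] at hle1
            exact fin K' V' x1 x1' y1 hx1 hx1' hy1 hxx1 hle1

end OddCov

end

section

/-!
# C3: the new potentials of level `0`
-/

set_option autoImplicit false

namespace OddCov

open Finset

open ConvAux in
/-- C3. -/
theorem stmtConvZero (h : StmtXsMono) : StmtConvZero := by
  intro p γ f R hp hγ hc hRm hR hRp
  obtain ⟨hmono, -⟩ := h p γ 0 f hp hγ hc
  have hx : ∀ t, xs p γ 0 f t =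
      ∑ j ∈ Icc 1 γ, lw p γ j / (j + 1) * f ((j + 1) * t) - f t / p := by
    intro t
    rw [xs, if_pos rfl]
    rfl
  refine ⟨?_, ?_, fun t => ?_⟩
  · rw [vs_zero, hc.zero, add_zero]
  · exact hc.mono.add (vs_mono hR hmono)
  · change 2 * (f (t + 1) + vs R (xs p γ 0 f) (t + 1)) ≤
      (f t + vs R (xs p γ 0 f) t) + (f (t + 2) + vs R (xs p γ 0 f) (t + 1 + 1))
    rw [vs_succ R _ (t + 1), vs_succ R _ t]
    have e : t + 1 + 1 = t + 2 := rfl
    rw [e]
    have hp0 : (0 : ℝ) < p := by exact_mod_cast (by omega : 0 < p)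
    have h1 := dil_sum hc hp γ 1 t
    have h2 : 0 ≤ xs p γ 0 f (t + 2) - xs p γ 0 f (t + 1) := by
      rw [sub_nonneg]
      exact hmono (by omega)
    have h3 : R (t + 1) ≤ R (t + 2) := hRm (by omega)
    have h4 := hR (t + 1)
    have h5 : R (t + 1) * (xs p γ 0 f (t + 2) - xs p γ 0 f (t + 1)) ≤
        R (t + 2) * (xs p γ 0 f (t + 2) - xs p γ 0 f (t + 1)) :=
      mul_le_mul_of_nonneg_right h3 h2
    have h6 : -((f t + f (t + 2) - 2 * f (t + 1)) / p) ≤
        xs p γ 0 f t + xs p γ 0 f (t + 2) - 2 * xs p γ 0 f (t + 1) := by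
      rw [hx, hx, hx]
      have e2 : (f t + f (t + 2) - 2 * f (t + 1)) / p = f t / p + f (t + 2) / p - 2 * (f (t + 1) / p) := by
        ring
      rw [e2]
      linarith
    have hD := hc.conv t
    have h7 : R (t + 1) * ((f t + f (t + 2) - 2 * f (t + 1)) / p) ≤ f t + f (t + 2) - 2 * f (t + 1) := by
      rw [mul_div_assoc', div_le_iff₀ hp0, mul_comm]
      exact mul_le_mul_of_nonneg_left (hRp _) (by linarith)
    have h8 := mul_le_mul_of_nonneg_left h6 h4
    nlinarith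

end OddCov

end

section

/-!
# Data for MP_b5285d_nt: the blocks `(a, n, s0)` below 500000
-/

namespace OddCov

def initRow (K T : ℕ) : ℕ → ℕ → List ℕ
  | 0, _ => []
  | f + 1, t => if t ≤ T then K * (t * t) :: initRow K T f (3 * t) else []

def initTab (K T : ℕ) : ℕ → ℕ → List (List ℕ)
  | 0, _ => []
  | f + 1, t => if t ≤ T then initRow K T 20 t :: initTab K T f (2 * t) else []

/-- quadratic bound at 500000, times `SC` -/
abbrev K0 : ℕ := 120000000

abbrev V0 : List (List ℕ) := initTab K0 2000000 30 1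

/-- the blocks -/
def blocks : List (ℕ × ℕ × ℕ) :=
  [(485437, 1127, 139926), (471299, 1079, 136395), (457571, 1046, 132951), (444253, 1002, 129594), (431329, 1020, 126322),
   (418771, 975, 123128), (406573, 945, 120011), (394733, 891, 116972), (383261, 911, 114014), (372107, 867, 111126),
   (361271, 833, 108307), (350767, 811, 105562), (340559, 807, 102883), (330641, 771, 100269), (321017, 765, 97721),
   (311677, 763, 95238), (302609, 721, 92816), (293803, 685, 90454), (285251, 657, 88151), (276949, 662, 85905),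
   (268883, 649, 83714), (261059, 632, 81579), (253469, 608, 79499), (246097, 594, 77471), (238939, 580, 75493),
   (232003, 538, 73569), (225257, 558, 71690), (218711, 541, 69859), (212353, 502, 68073), (206177, 521, 66331),
   (200171, 480, 64630), (194353, 474, 62975), (188693, 470, 61359), (183203, 458, 59785), (177883, 449, 58254),
   (172709, 416, 56759), (167683, 415, 55301), (162821, 400, 53885), (158113, 387, 52508), (153509, 378, 51156),
   (149053, 389, 49843), (144719, 363, 48561), (140521, 347, 47314), (136429, 345, 46093), (132469, 342, 44908),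
   (128621, 323, 43752), (124897, 316, 42628), (121259, 317, 41527), (117727, 302, 40453), (114299, 291, 39407),
   (110969, 282, 38387), (107741, 282, 37395), (104623, 265, 36433), (101581, 258, 35491), (98627, 260, 34545),
   (95773, 239, 33597), (92987, 247, 32671), (90281, 239, 31770), (87671, 231, 30900), (85121, 223, 30048),
   (82651, 210, 29221), (80251, 221, 28417), (77929, 203, 27637), (75659, 202, 26874), (73459, 200, 26133),
   (71327, 194, 25413), (69257, 182, 24714), (67247, 177, 24033), (65293, 178, 23371), (63391, 170, 22725),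
   (61547, 162, 22098), (59771, 149, 21493), (58031, 166, 20899), (56359, 163, 20328), (54721, 145, 19767),
   (53129, 147, 19221), (51581, 142, 18689), (50087, 137, 18176), (48647, 139, 17679), (47237, 132, 17193),
   (45863, 120, 16718), (44531, 123, 16257), (43237, 114, 15808), (41981, 124, 15372), (40759, 123, 14947),
   (39581, 103, 14537), (38431, 111, 14136), (37313, 102, 13745), (36229, 106, 13365), (35201, 93, 13005),
   (34183, 99, 12648), (33191, 96, 12299), (32233, 100, 11961), (31307, 83, 11635), (30403, 89, 11315),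
   (29527, 80, 11005), (28669, 81, 10701), (27847, 83, 10410), (27043, 76, 10124), (26261, 79, 9845),
   (25523, 75, 9582), (24781, 70, 9317), (24061, 65, 9060), (23369, 71, 8812), (22691, 71, 8569),
   (22031, 66, 8332), (21391, 67, 8101), (20771, 61, 7878), (20173, 58, 7662), (19597, 59, 7449),
   (19031, 61, 7238), (18481, 45, 7033), (17957, 59, 6837), (17443, 52, 6645), (16937, 52, 6456),
   (16447, 48, 6273), (15971, 46, 6095), (15511, 49, 5922), (15061, 52, 5754), (14627, 47, 5591),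
   (14207, 41, 5433), (13799, 39, 5280), (13397, 44, 5129), (13007, 38, 4983), (12637, 41, 4844),
   (12269, 42, 4705), (11923, 39, 4575), (11579, 35, 4445), (11243, 34, 4319), (10937, 31, 4203),
   (10627, 32, 4086), (10321, 30, 3971), (10037, 34, 3864), (9749, 29, 3755), (9467, 30, 3648),
   (9199, 33, 3547), (8933, 29, 3446), (8677, 31, 3349), (8429, 26, 3255), (8191, 26, 3165),
   (7963, 22, 3078), (7741, 24, 2994), (7517, 30, 2909), (7307, 21, 2829), (7103, 21, 2752),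
   (6899, 23, 2674), (6701, 23, 2599), (6521, 21, 2530), (6337, 18, 2460), (6163, 22, 2394),
   (5987, 20, 2327), (5813, 20, 2260), (5647, 21, 2197), (5483, 17, 2134), (5323, 20, 2073),
   (5167, 17, 2014), (5021, 15, 1958), (4877, 20, 1901), (4751, 13, 1850), (4621, 16, 1799),
   (4493, 14, 1748), (4363, 14, 1696), (4241, 15, 1647), (4127, 14, 1602), (4007, 14, 1555),
   (3907, 13, 1515), (3793, 13, 1470), (3691, 12, 1429), (3583, 13, 1387), (3491, 14, 1350),
   (3389, 11, 1310), (3299, 14, 1274), (3203, 10, 1236), (3109, 10, 1199), (3019, 10, 1164),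
   (2939, 9, 1132), (2857, 9, 1100), (2777, 11, 1068), (2699, 11, 1038), (2621, 12, 1007),
   (2549, 8, 979), (2477, 6, 950), (2411, 9, 924), (2341, 11, 897), (2273, 9, 870),
   (2207, 9, 845), (2143, 5, 819), (2081, 11, 795), (2027, 6, 774), (1973, 9, 753),
   (1931, 4, 737), (1877, 6, 716), (1823, 7, 694), (1777, 6, 677), (1733, 5, 659),
   (1693, 6, 644), (1657, 4, 630), (1609, 6, 611), (1567, 7, 595), (1523, 6, 577),
   (1481, 7, 561), (1439, 6, 544), (1399, 6, 529), (1361, 4, 514), (1321, 2, 498),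
   (1283, 8, 483), (1249, 4, 470), (1213, 6, 456), (1181, 4, 443), (1151, 4, 432),
   (1117, 3, 418), (1087, 6, 407), (1061, 3, 397), (1031, 5, 385), (1009, 4, 376),
   (983, 3, 366), (967, 3, 360), (941, 3, 350), (919, 3, 341), (907, 2, 337),
   (881, 3, 327), (857, 4, 318), (839, 2, 311), (821, 4, 304), (797, 3, 294),
   (773, 2, 285), (751, 4, 276), (733, 3, 269), (719, 2, 263), (701, 2, 256),
   (683, 2, 249), (673, 2, 245), (653, 3, 237), (641, 3, 233), (631, 1, 229),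
   (613, 3, 222), (599, 3, 216), (587, 2, 212), (569, 3, 205), (557, 2, 200),
   (541, 2, 194), (509, 3, 181), (499, 2, 177), (487, 2, 173), (479, 1, 170),
   (467, 1, 165), (457, 3, 161), (443, 2, 156), (431, 3, 151), (419, 2, 147),
   (409, 1, 143), (397, 2, 139), (389, 1, 136), (379, 2, 133), (367, 2, 129),
   (359, 1, 126), (349, 2, 122), (347, 1, 122), (337, 1, 118), (331, 1, 116),
   (311, 3, 110), (307, 1, 108), (293, 1, 104), (283, 1, 100), (281, 1, 99),
   (277, 1, 98), (271, 1, 96), (269, 1, 95), (263, 1, 93), (257, 1, 91),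
   (251, 1, 89), (241, 1, 86), (239, 1, 85), (233, 1, 83), (229, 1, 82),
   (227, 1, 81), (223, 1, 80), (211, 1, 75), (199, 1, 71), (197, 1, 70),
   (193, 1, 69), (191, 1, 68), (181, 1, 64), (179, 1, 63), (173, 1, 61),
   (167, 1, 58), (163, 1, 57), (157, 1, 55), (151, 1, 52), (149, 1, 51),
   (139, 1, 48), (137, 1, 47), (131, 1, 44), (127, 1, 43), (113, 1, 38),
   (109, 1, 36), (107, 1, 35), (103, 1, 34), (101, 1, 33), (97, 1, 32),
   (89, 1, 29), (83, 1, 26), (79, 1, 25), (73, 1, 23), (71, 1, 22),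
   (67, 1, 21), (61, 1, 18), (59, 1, 18), (53, 1, 16), (47, 1, 16),
   (43, 1, 12), (41, 1, 12), (37, 1, 12), (31, 1, 8), (29, 1, 8),
   (23, 1, 8), (19, 1, 4), (17, 1, 4), (13, 1, 4), (11, 1, 2),
   (7, 1, 2)]

/-- N11: the tail; quadratic potential above 500000 -/
def StmtTail : Prop :=
  ∀ (E : Finset ℕ) (Q : ℕ), Rough E 500000 Q →
    ∃ Fh : ℕ → ℝ, Conv Fh ∧ Good Q Fh ∧ ∀ t : ℕ, Fh t ≤ (K0 : ℝ) / SC * (t : ℝ) ^ 2

/-- N10: prime counts of the blocks -/
def StmtCounts : Prop := BlocksOK ∅ 500000 blocks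

end OddCov

end

section

/-!
N1: an exact convex total.
-/

namespace OddCov

open Finset

theorem stmtExact : StmtExact := by
  rintro Q F ⟨f, hf, hle, hav⟩
  refine ⟨fun t => ∑ m ∈ Q.divisors.erase 1, f m t, ?_, hle, f, hf, fun t => le_rfl, hav⟩
  constructor
  · exact Finset.sum_eq_zero fun m _ => (hf m).zero
  · intro s t hst
    exact Finset.sum_le_sum fun m _ => (hf m).mono hst
  · intro t
    rw [Finset.mul_sum, ← Finset.sum_add_distrib]
    exact Finset.sum_le_sum fun m _ => (hf m).conv t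

end OddCov

end

section

/-!
# Item N3 for MP_b5285d_nt: bound of the growth by the table
-/

namespace OddCov

open Finset

namespace GrowthAux

theorem tail (q M : ℝ) (G : ℕ → ℝ) (hq0 : 0 ≤ q) (hq : q ≤ 1 / 5) (hM : 0 ≤ M)
    (hG : ∀ m : ℕ, G m ≤ M * (m : ℝ) ^ 2) (n : ℕ) :
    ∑ j ∈ Icc 1 (6 + n), q ^ j * (G (j + 1) - G j) +
        q ^ (6 + n) * (M * ((6 + n + 1 : ℕ) : ℝ) ^ 2 - G (6 + n + 1)) +
        M * q ^ (6 + n) * (((6 + n : ℕ) : ℝ) / 2 + 7 / 8) ≤
      (-(q * G 1) + (q - q ^ 2) * G 2 + (q ^ 2 - q ^ 3) * G 3 + (q ^ 3 - q ^ 4) * G 4 +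
        (q ^ 4 - q ^ 5) * G 5 + (q ^ 5 - q ^ 6) * G 6) + 53 * (M * q ^ 6) := by
  induction n with
  | zero =>
    have h0 : 0 ≤ M * q ^ 6 := mul_nonneg hM (pow_nonneg hq0 6)
    have e : ∑ j ∈ Icc 1 (6 + 0), q ^ j * (G (j + 1) - G j) =
        (-(q * G 1) + (q - q ^ 2) * G 2 + (q ^ 2 - q ^ 3) * G 3 + (q ^ 3 - q ^ 4) * G 4 +
        (q ^ 4 - q ^ 5) * G 5 + (q ^ 5 - q ^ 6) * G 6) + q ^ 6 * G 7 := by
      simp [Finset.sum_Icc_succ_top]
      ring
    rw [e]
    norm_num
    nlinarith [h0]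
  | succ n ih =>
    have e : ∑ j ∈ Icc 1 (6 + (n + 1)), q ^ j * (G (j + 1) - G j) =
        ∑ j ∈ Icc 1 (6 + n), q ^ j * (G (j + 1) - G j) +
          q ^ (6 + n + 1) * (G (6 + n + 2) - G (6 + n + 1)) := by
      rw [show 6 + (n + 1) = 6 + n + 1 from rfl, Finset.sum_Icc_succ_top (by omega)]
    rw [e]
    refine le_trans ?_ ih
    have hqn : 0 ≤ q ^ (6 + n) := pow_nonneg hq0 _
    have hd : 0 ≤ M * ((6 + n + 1 : ℕ) : ℝ) ^ 2 - G (6 + n + 1) := sub_nonneg.mpr (hG _)
    rw [show 6 + (n + 1) = 6 + n + 1 from rfl, show 6 + n + 1 + 1 = 6 + n + 2 from rfl]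
    set S := ∑ j ∈ Icc 1 (6 + n), q ^ j * (G (j + 1) - G j) with hS
    have hx : ((6 + n + 2 : ℕ) : ℝ) = ((6 + n : ℕ) : ℝ) + 2 := by push_cast; ring
    have hy : ((6 + n + 1 : ℕ) : ℝ) = ((6 + n : ℕ) : ℝ) + 1 := by push_cast; ring
    rw [hy] at hd
    rw [hx, hy, pow_succ q (6 + n)]
    set x : ℝ := ((6 + n : ℕ) : ℝ) with hxd
    have hx0 : 0 ≤ x := Nat.cast_nonneg _
    set P := q ^ (6 + n) with hP
    have h1 : P * q * (M * (x + 1) ^ 2 - G (6 + n + 1)) ≤
        P * (M * (x + 1) ^ 2 - G (6 + n + 1)) := by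
      apply mul_le_mul_of_nonneg_right _ hd
      nlinarith
    have h2 : M * P * q * (5 / 2 * x + 35 / 8) ≤ M * P * (x / 2 + 7 / 8) := by
      have h3 : 0 ≤ M * P := mul_nonneg hM hqn
      have h4 : q * (5 / 2 * x + 35 / 8) ≤ 1 / 5 * (5 / 2 * x + 35 / 8) := by
        apply mul_le_mul_of_nonneg_right hq
        positivity
      calc M * P * q * (5 / 2 * x + 35 / 8) = M * P * (q * (5 / 2 * x + 35 / 8)) := by ring
        _ ≤ M * P * (1 / 5 * (5 / 2 * x + 35 / 8)) := mul_le_mul_of_nonneg_left h4 h3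
        _ = M * P * (x / 2 + 7 / 8) := by ring
    have e2 : S + P * q * (G (6 + n + 2) - G (6 + n + 1)) +
          P * q * (M * (x + 2) ^ 2 - G (6 + n + 2)) +
          M * (P * q) * ((x + 1) / 2 + 7 / 8) =
        S + P * q * (M * (x + 1) ^ 2 - G (6 + n + 1)) + M * P * q * (5 / 2 * x + 35 / 8) := by
      ring
    rw [e2]
    linarith

theorem bound (q M : ℝ) (G : ℕ → ℝ) (hq0 : 0 ≤ q) (hq : q ≤ 1 / 5) (hM : 0 ≤ M)
    (hG : ∀ m : ℕ, G m ≤ M * (m : ℝ) ^ 2) (hmono : Monotone G) (γ : ℕ) :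
    ∑ j ∈ Icc 1 γ, q ^ j * (G (j + 1) - G j) ≤
      (-(q * G 1) + (q - q ^ 2) * G 2 + (q ^ 2 - q ^ 3) * G 3 + (q ^ 3 - q ^ 4) * G 4 +
        (q ^ 4 - q ^ 5) * G 5 + (q ^ 5 - q ^ 6) * G 6) + 53 * (M * q ^ 6) := by
  have h1 := tail q M G hq0 hq hM hG γ
  have h2 : ∑ j ∈ Icc 1 γ, q ^ j * (G (j + 1) - G j) ≤
      ∑ j ∈ Icc 1 (6 + γ), q ^ j * (G (j + 1) - G j) := by
    apply Finset.sum_le_sum_of_subset_of_nonneg
    · exact Finset.Icc_subset_Icc_right (by omega)
    · intro j _ _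
      exact mul_nonneg (pow_nonneg hq0 _) (sub_nonneg.mpr (hmono (Nat.le_succ j)))
  have h3 : 0 ≤ q ^ (6 + γ) * (M * ((6 + γ + 1 : ℕ) : ℝ) ^ 2 - G (6 + γ + 1)) :=
    mul_nonneg (pow_nonneg hq0 _) (sub_nonneg.mpr (hG _))
  have h4 : 0 ≤ M * q ^ (6 + γ) * (((6 + γ : ℕ) : ℝ) / 2 + 7 / 8) := by positivity
  linarith

end GrowthAux

open GrowthAux

theorem stmtGrowth : StmtGrowth := by
  intro a γ i j Fh w K R ha hF hw hK hR0 hRa
  set t : ℕ := 2 ^ i * 3 ^ j with ht
  have htpos : 0 < t := by positivity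
  have hapos : (0 : ℝ) < a := by
    have : 0 < a := by omega
    exact_mod_cast this
  have ha5 : (5 : ℝ) ≤ a := by exact_mod_cast ha
  set q : ℝ := (a : ℝ)⁻¹ with hq
  have hq0 : 0 ≤ q := inv_nonneg.mpr hapos.le
  have hq5 : q ≤ 1 / 5 := by
    rw [hq, one_div]
    exact inv_anti₀ (by norm_num) ha5
  have hK0 : 0 ≤ K := by
    have h1 : Fh 0 ≤ Fh 1 := hF.mono (Nat.zero_le 1)
    have h2 := hK 1
    rw [hF.zero] at h1
    norm_num at h2
    linarith
  have hM : 0 ≤ K * (t : ℝ) ^ 2 := by positivity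
  have hmono : Monotone fun m : ℕ => Fh (m * t) := by
    intro m n hmn
    exact hF.mono (Nat.mul_le_mul_right t hmn)
  have hG : ∀ m : ℕ, (fun m : ℕ => Fh (m * t)) m ≤ K * (t : ℝ) ^ 2 * (m : ℝ) ^ 2 := by
    intro m
    have := hK (m * t)
    push_cast at this
    calc Fh (m * t) ≤ K * ((m : ℝ) * t) ^ 2 := this
      _ = K * (t : ℝ) ^ 2 * (m : ℝ) ^ 2 := by ring
  have hb := bound q (K * (t : ℝ) ^ 2) (fun m : ℕ => Fh (m * t)) hq0 hq5 hM hG hmono γ
  have hX : Xop a γ Fh t = ∑ j ∈ Icc 1 γ, q ^ j * (Fh ((j + 1) * t) - Fh (j * t)) := rfl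
  rw [← hX] at hb
  have g1 : Fh (1 * t) ≤ w i j := by rw [one_mul]; exact hw i j
  have g2 : Fh (2 * t) ≤ w (i + 1) j := by
    have : 2 * t = 2 ^ (i + 1) * 3 ^ j := by rw [ht, pow_succ]; ring
    rw [this]; exact hw _ _
  have g3 : Fh (3 * t) ≤ w i (j + 1) := by
    have : 3 * t = 2 ^ i * 3 ^ (j + 1) := by rw [ht, pow_succ]; ring
    rw [this]; exact hw _ _
  have g4 : Fh (4 * t) ≤ w (i + 2) j := by
    have : 4 * t = 2 ^ (i + 2) * 3 ^ j := by rw [ht, pow_add]; ring
    rw [this]; exact hw _ _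
  have g6 : Fh (6 * t) ≤ w (i + 1) (j + 1) := by
    have : 6 * t = 2 ^ (i + 1) * 3 ^ (j + 1) := by rw [ht, pow_succ, pow_succ]; ring
    rw [this]; exact hw _ _
  have g5 : Fh (5 * t) ≤ (w (i + 2) j + w (i + 1) (j + 1)) / 2 := by
    have h1 := stmtChord Fh hF (4 * t) (5 * t) t t (by omega) le_rfl
    have e1 : 4 * t + t = 5 * t := by ring
    have e2 : 5 * t + t = 6 * t := by ring
    rw [e1, e2] at h1
    have ht' : (0 : ℝ) < t := by exact_mod_cast htpos
    have h2 : Fh (5 * t) - Fh (4 * t) ≤ Fh (6 * t) - Fh (5 * t) := by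
      rw [mul_comm (t : ℝ)] at h1
      exact le_of_mul_le_mul_right h1 ht'
    linarith
  have hRq : R * q ≤ 1 := by
    rw [hq, ← div_eq_mul_inv, div_le_one hapos]
    exact hRa
  have hq1 : q ≤ 1 := by linarith
  have c1 : 0 ≤ 1 - R * q := by linarith
  have cc : ∀ n : ℕ, 0 ≤ R * (q ^ n - q ^ (n + 1)) := by
    intro n
    apply mul_nonneg hR0
    rw [sub_nonneg]
    exact pow_le_pow_of_le_one hq0 hq1 (Nat.le_succ n)
  have d1 := mul_le_mul_of_nonneg_left g1 c1
  have d2 := mul_le_mul_of_nonneg_left g2 (cc 1)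
  have d3 := mul_le_mul_of_nonneg_left g3 (cc 2)
  have d4 := mul_le_mul_of_nonneg_left g4 (cc 3)
  have d5 := mul_le_mul_of_nonneg_left g5 (cc 4)
  have d6 := mul_le_mul_of_nonneg_left g6 (cc 5)
  have hRb := mul_le_mul_of_nonneg_left hb hR0
  have hLw : Lw a w K i j = -(q * w i j) + (q - q ^ 2) * w (i + 1) j +
      (q ^ 2 - q ^ 3) * w i (j + 1) + (q ^ 3 - q ^ 4) * w (i + 2) j +
      (q ^ 4 - q ^ 5) * ((w (i + 2) j + w (i + 1) (j + 1)) / 2) +
      (q ^ 5 - q ^ 6) * w (i + 1) (j + 1) + 53 * (K * (t : ℝ) ^ 2 * q ^ 6) := by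
    unfold Lw
    have hcast : (t : ℝ) = 2 ^ i * 3 ^ j := by rw [ht]; push_cast; ring
    rw [hcast, hq]
    simp only [div_eq_mul_inv, inv_pow]
    ring
  rw [hLw]
  have hFt : Fh t = Fh (1 * t) := by rw [one_mul]
  rw [hFt]
  norm_num at d2 d3 d4 d5 d6
  nlinarith [d1, d2, d3, d4, d5, d6, hRb]

end OddCov

end

section

/-!
# Item A2: Jensen at integer points with integer mean
-/

namespace OddCov

open Finset

/-- supporting line of a convex sequence -/
theorem Conv.support {f : ℕ → ℝ} (hf : Conv f) (M x : ℕ) :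
    f M + (f (M + 1) - f M) * ((x : ℝ) - M) ≤ f x := by
  have hD := hf.incr_mono
  rcases le_total M x with h | h
  · obtain ⟨m, rfl⟩ := Nat.exists_eq_add_of_le h
    have h1 : (m : ℝ) * (f (M + 1) - f M) ≤ f (M + m) - f M := by
      rw [sum_incr f M m]
      calc (m : ℝ) * (f (M + 1) - f M) = ∑ _i ∈ range m, (f (M + 1) - f M) := by
            rw [Finset.sum_const, card_range, nsmul_eq_mul]
        _ ≤ _ := Finset.sum_le_sum fun i _ => hD (show M ≤ M + i by omega)
    push_cast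
    nlinarith
  · obtain ⟨m, rfl⟩ := Nat.exists_eq_add_of_le h
    have h1 : f (x + m) - f x ≤ (m : ℝ) * (f (x + m + 1) - f (x + m)) := by
      rw [sum_incr f x m]
      calc _ ≤ ∑ _i ∈ range m, (f (x + m + 1) - f (x + m)) :=
            Finset.sum_le_sum fun i hi => hD (show x + i ≤ x + m by
              have := mem_range.mp hi
              omega)
        _ = _ := by rw [Finset.sum_const, card_range, nsmul_eq_mul]
    push_cast
    nlinarith

theorem stmtJensen : StmtJensen := by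
  intro f hf j n
  set M := ∑ i ∈ range (j + 1), n i with hM
  have h1 : ∑ i ∈ range (j + 1), (f M + (f (M + 1) - f M) * ((((j + 1) * n i : ℕ) : ℝ) - M)) ≤
      ∑ i ∈ range (j + 1), f ((j + 1) * n i) :=
    Finset.sum_le_sum fun i _ => hf.support M ((j + 1) * n i)
  refine le_trans (le_of_eq ?_) h1
  rw [Finset.sum_add_distrib, ← Finset.mul_sum, Finset.sum_sub_distrib, Finset.sum_const,
    Finset.sum_const, card_range, nsmul_eq_mul, nsmul_eq_mul]
  have h2 : ∑ i ∈ range (j + 1), (((j + 1) * n i : ℕ) : ℝ) = ((j + 1 : ℕ) : ℝ) * M := by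
    rw [hM]
    push_cast
    rw [Finset.mul_sum]
  rw [h2]
  push_cast
  ring

end OddCov

end

section

/-!
N2: one prime `p ≥ a`, everything evaluated at `a`.
-/

namespace OddCov

open Finset

theorem oneP_tail (p : ℝ) (hp : 1 < p) (n : ℕ) :
    ∑ j ∈ Icc 1 n, (p⁻¹) ^ j * ((j : ℝ) + 1) ^ 2 +
      (p⁻¹) ^ n * (((n : ℝ) + 1) ^ 2 / (p - 1) + 2 * ((n : ℝ) + 1) * p / (p - 1) ^ 2
        + p * (p + 1) / (p - 1) ^ 3) = (4 * p ^ 2 - 3 * p + 1) / (p - 1) ^ 3 := by
  have h1 : p - 1 ≠ 0 := by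
    intro h
    linarith
  have h0 : p ≠ 0 := by
    intro h
    linarith
  induction n with
  | zero =>
    simp
    field_simp
    ring
  | succ n ih =>
    rw [Finset.sum_Icc_succ_top (by omega), ← ih, add_assoc]
    congr 1
    push_cast
    rw [pow_succ]
    field_simp
    ring

theorem oneP_sum (p : ℝ) (hp : 1 < p) (n : ℕ) :
    ∑ j ∈ Icc 1 n, (p⁻¹) ^ j * ((j : ℝ) + 1) ^ 2 ≤ (4 * p ^ 2 - 3 * p + 1) / (p - 1) ^ 3 := by
  rw [← oneP_tail p hp n]
  have h1 : 0 < p - 1 := by linarith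
  have h0 : 0 < p := by linarith
  have : 0 ≤ (p⁻¹) ^ n * (((n : ℝ) + 1) ^ 2 / (p - 1) + 2 * ((n : ℝ) + 1) * p / (p - 1) ^ 2
        + p * (p + 1) / (p - 1) ^ 3) := by positivity
  linarith

theorem oneP_side (a p s0 D : ℝ) (ha : 1 < a) (hap : a ≤ p) (hs : s0 < a) (hD : 0 ≤ D)
    (h : D * (4 * a ^ 2 - 3 * a + 1) ≤ (a - s0) * (a - 1) ^ 2) :
    D * ((4 * p ^ 2 - 3 * p + 1) / (p - 1) ^ 3) ≤ (p - s0) / (p - 1) := by
  have hu : 0 < p - 1 := by linarith
  have hv : 0 < a - 1 := by linarith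
  have has : 0 < a - s0 := by linarith
  have h1 : (4 * p ^ 2 - 3 * p + 1) * (a - 1) ^ 2 ≤ (4 * a ^ 2 - 3 * a + 1) * (p - 1) ^ 2 := by
    have h2 : (4 * a ^ 2 - 3 * a + 1) * (p - 1) ^ 2 - (4 * p ^ 2 - 3 * p + 1) * (a - 1) ^ 2
        = (p - a) * (5 * (p - 1) * (a - 1) + 2 * ((p - 1) + (a - 1))) := by ring
    have h3 : 0 ≤ (p - a) * (5 * (p - 1) * (a - 1) + 2 * ((p - 1) + (a - 1))) := by
      apply mul_nonneg (by linarith)
      positivity
    linarith
  have h4 : D * (4 * p ^ 2 - 3 * p + 1) ≤ (p - s0) * (p - 1) ^ 2 := by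
    have h5 : D * (4 * p ^ 2 - 3 * p + 1) * (a - 1) ^ 2
        ≤ (p - s0) * (p - 1) ^ 2 * (a - 1) ^ 2 := by
      calc D * (4 * p ^ 2 - 3 * p + 1) * (a - 1) ^ 2
          = D * ((4 * p ^ 2 - 3 * p + 1) * (a - 1) ^ 2) := by ring
        _ ≤ D * ((4 * a ^ 2 - 3 * a + 1) * (p - 1) ^ 2) := mul_le_mul_of_nonneg_left h1 hD
        _ = D * (4 * a ^ 2 - 3 * a + 1) * (p - 1) ^ 2 := by ring
        _ ≤ (a - s0) * (a - 1) ^ 2 * (p - 1) ^ 2 :=
            mul_le_mul_of_nonneg_right h (by positivity)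
        _ ≤ (p - s0) * (a - 1) ^ 2 * (p - 1) ^ 2 := by
            apply mul_le_mul_of_nonneg_right _ (by positivity)
            apply mul_le_mul_of_nonneg_right _ (by positivity)
            linarith
        _ = (p - s0) * (p - 1) ^ 2 * (a - 1) ^ 2 := by ring
    exact le_of_mul_le_mul_right h5 (by positivity)
  rw [le_div_iff₀ hu, mul_div_assoc', div_mul_eq_mul_div, div_le_iff₀ (by positivity)]
  calc D * (4 * p ^ 2 - 3 * p + 1) * (p - 1) ≤ (p - s0) * (p - 1) ^ 2 * (p - 1) :=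
        mul_le_mul_of_nonneg_right h4 hu.le
    _ = (p - s0) * (p - 1) ^ 3 := by ring

theorem stmtOneP (h : StmtStep) : StmtOneP := by
  intro a p γ s0 Q Fh K ha hap hp hcop hQ hs1 hs2 hconv hgood hK hside
  have haR : (5 : ℝ) ≤ a := by exact_mod_cast ha
  have hapR : (a : ℝ) ≤ p := by exact_mod_cast hap
  have hsR : (s0 : ℝ) + 2 ≤ a := by exact_mod_cast hs2
  have hs1R : (1 : ℝ) ≤ s0 := by exact_mod_cast hs1
  have hK0 : 0 ≤ K := by
    have h1 := hK 1
    have h2 := hconv.mono (zero_le_one (α := ℕ))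
    rw [hconv.zero] at h2
    simp at h1
    linarith
  refine h p γ s0 Q Fh _ hp hcop hQ (by omega) hgood ?_ ?_
  · refine le_trans ?_ (oneP_side a p s0 (K * ((s0 - 1 : ℕ) : ℝ) ^ 2) (by linarith) hapR
      (by linarith) (by positivity) hside)
    calc ∑ j ∈ Icc 1 γ, ((p : ℝ)⁻¹) ^ j * Fh ((j + 1) * (s0 - 1))
        ≤ ∑ j ∈ Icc 1 γ, (K * ((s0 - 1 : ℕ) : ℝ) ^ 2) *
            (((p : ℝ)⁻¹) ^ j * ((j : ℝ) + 1) ^ 2) := by
          refine Finset.sum_le_sum fun j _ => ?_
          have h1 := hK ((j + 1) * (s0 - 1))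
          have h2 : 0 ≤ ((p : ℝ)⁻¹) ^ j := by positivity
          calc ((p : ℝ)⁻¹) ^ j * Fh ((j + 1) * (s0 - 1))
              ≤ ((p : ℝ)⁻¹) ^ j * (K * (((j + 1) * (s0 - 1) : ℕ) : ℝ) ^ 2) :=
                mul_le_mul_of_nonneg_left h1 h2
            _ = _ := by
                rw [Nat.cast_mul, Nat.cast_add, Nat.cast_one]
                ring
      _ = (K * ((s0 - 1 : ℕ) : ℝ) ^ 2) *
            ∑ j ∈ Icc 1 γ, (((p : ℝ)⁻¹) ^ j * ((j : ℝ) + 1) ^ 2) := by rw [Finset.mul_sum]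
      _ ≤ _ := mul_le_mul_of_nonneg_left (oneP_sum p (by linarith) γ) (by positivity)
  · intro t
    have hm : ((min t s0 : ℕ) : ℝ) ≤ s0 := by exact_mod_cast min_le_right t s0
    have hm0 : (0 : ℝ) ≤ ((min t s0 : ℕ) : ℝ) := Nat.cast_nonneg _
    have hrho : rho p s0 t ≤ rho a s0 t := by
      rw [rho, rho, div_le_div_iff₀ (by linarith) (by linarith)]
      nlinarith
    have hrho0 : 0 ≤ rho p s0 t := by
      rw [rho]
      apply div_nonneg <;> linarith
    have hdiff : ∀ j : ℕ, 0 ≤ Fh ((j + 1) * t) - Fh (j * t) := by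
      intro j
      have h1 : j * t ≤ (j + 1) * t := Nat.mul_le_mul_right t (by omega)
      linarith [hconv.mono h1]
    have hX : Xop p γ Fh t ≤ Xop a γ Fh t := by
      rw [Xop, Xop]
      refine Finset.sum_le_sum fun j _ => mul_le_mul_of_nonneg_right ?_ (hdiff j)
      apply pow_le_pow_left₀ (by positivity)
      exact inv_anti₀ (by linarith) hapR
    have hX0 : 0 ≤ Xop p γ Fh t := by
      rw [Xop]
      exact Finset.sum_nonneg fun j _ => mul_nonneg (by positivity) (hdiff j)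
    have hhin : hin p s0 t ≤ hin a s0 t := by
      rw [hin, hin]
      apply div_le_div_of_nonneg_left (by positivity) (by linarith) (by linarith)
    have h5 : rho p s0 t * Xop p γ Fh t ≤ rho a s0 t * Xop a γ Fh t :=
      mul_le_mul hrho hX hX0 (hrho0.trans hrho)
    linarith

end OddCov

end

section

/-!
# N6: induction over the primes of a block
-/

namespace OddCov

open Finset

theorem stmtPath : StmtPath := by
  classical
  intro E a b n P h0 hcard hstep hup Q hQ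
  -- the primes of `Q` below `b`
  have key : ∀ k : ℕ, ∀ Q, Rough E a Q → k ≤ n →
      (Q.primeFactors.filter fun p => p < b).card = k → P k Q := by
    intro k
    induction k with
    | zero =>
      intro Q hQ _ hc
      apply h0
      refine ⟨hQ.1, fun p hp hpQ => ⟨?_, (hQ.2 p hp hpQ).2⟩⟩
      by_contra hlt
      push Not at hlt
      have : p ∈ Q.primeFactors.filter fun p => p < b :=
        Finset.mem_filter.2 ⟨Nat.mem_primeFactors.2 ⟨hp, hpQ, hQ.1.ne'⟩, hlt⟩
      rw [Finset.card_eq_zero.1 hc] at this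
      exact absurd this (Finset.notMem_empty p)
    | succ k ih =>
      intro Q hQ hk hc
      have hne : (Q.primeFactors.filter fun p => p < b).Nonempty := by
        rw [← Finset.card_pos, hc]; omega
      obtain ⟨p, hp⟩ := hne
      obtain ⟨hp1, hp2⟩ := Finset.mem_filter.1 hp
      obtain ⟨hpp, hpQ, hQ0⟩ := Nat.mem_primeFactors.1 hp1
      obtain ⟨g, Q1, hndvd, hQe⟩ := Nat.exists_eq_pow_mul_and_not_dvd hQ0 p hpp.ne_one
      have hQ1 : Q1 ≠ 0 := by
        rintro rfl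
        exact hndvd (dvd_zero p)
      have hdvd : Q1 ∣ Q := ⟨p ^ g, by rw [hQe, mul_comm]⟩
      have hR1 : Rough E a Q1 :=
        ⟨Nat.pos_of_ne_zero hQ1, fun p' hp' hd => hQ.2 p' hp' (hd.trans hdvd)⟩
      have hset : (Q1.primeFactors.filter fun p => p < b) =
          (Q.primeFactors.filter fun p => p < b).erase p := by
        ext r
        simp only [Finset.mem_filter, Finset.mem_erase, Nat.mem_primeFactors]
        constructor
        · rintro ⟨⟨hr, hrQ, _⟩, hrb⟩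
          refine ⟨?_, ⟨hr, hrQ.trans hdvd, hQ0⟩, hrb⟩
          rintro rfl
          exact hndvd hrQ
        · rintro ⟨hrp, ⟨hr, hrQ, _⟩, hrb⟩
          refine ⟨⟨hr, ?_, hQ1⟩, hrb⟩
          rw [hQe] at hrQ
          rcases (Nat.Prime.dvd_mul hr).1 hrQ with h | h
          · exact absurd ((Nat.prime_dvd_prime_iff_eq hr hpp).1 (hr.dvd_of_dvd_pow h)) hrp
          · exact h
      have hc1 : (Q1.primeFactors.filter fun p => p < b).card = k := by
        rw [hset, Finset.card_erase_of_mem hp, hc]; rfl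
      have hP := ih Q1 hR1 (by omega) hc1
      rw [hQe]
      exact hstep k (by omega) Q1 p g hpp (hQ.2 p hpp hpQ).1 hp2
        ((Nat.Prime.coprime_iff_not_dvd hpp).2 hndvd) (Nat.pos_of_ne_zero hQ1) hP
  set k := (Q.primeFactors.filter fun p => p < b).card with hk
  have hkn : k ≤ n := by
    refine le_trans (Finset.card_le_card ?_) hcard
    intro p hp
    obtain ⟨hp1, hp2⟩ := Finset.mem_filter.1 hp
    obtain ⟨hpp, hpQ, hQ0⟩ := Nat.mem_primeFactors.1 hp1
    obtain ⟨ha, hE⟩ := hQ.2 p hpp hpQ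
    exact Finset.mem_filter.2 ⟨Finset.mem_Ico.2 ⟨ha, hp2⟩, hpp, hE⟩
  have hPk := key k Q hQ hkn hk.symm
  have hfin : ∀ d : ℕ, k + d ≤ n → P (k + d) Q := by
    intro d
    induction d with
    | zero => intro _; exact hPk
    | succ d ih =>
      intro hd
      exact hup (k + d) (by omega) Q (ih (by omega))
  have := hfin (n - k) (by omega)
  rwa [Nat.add_sub_cancel' hkn] at this

end OddCov

end

section

/-!
N4 for MP_b5285d_nt: the quadratic bound.
-/

namespace OddCov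

open Finset

theorem quad_abel (a : ℝ) (ha : 1 ≤ a) (g : ℕ → ℝ) (hg : ∀ j, 0 ≤ g j) (γ : ℕ) :
    (a⁻¹) ^ (γ + 1) * g (γ + 2) - g 1 / a ≤
      ∑ j ∈ Icc 1 (γ + 1), (a⁻¹) ^ j * (g (j + 1) - g j) := by
  have ha0 : 0 < a := by linarith
  induction γ with
  | zero =>
    simp only [zero_add, Icc_self, sum_singleton, pow_one]
    rw [mul_sub]
    have : a⁻¹ * g 1 = g 1 / a := by rw [div_eq_mul_inv, mul_comm]
    rw [this]
  | succ γ ih =>
    rw [Finset.sum_Icc_succ_top (by omega)]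
    have h1 : 0 ≤ (a⁻¹) ^ (γ + 1) * (1 - a⁻¹) * g (γ + 2) := by
      apply mul_nonneg
      · apply mul_nonneg (by positivity)
        rw [sub_nonneg]
        exact inv_le_one_of_one_le₀ ha
      · exact hg _
    have h2 : (a⁻¹) ^ (γ + 1 + 1) = (a⁻¹) ^ (γ + 1) * a⁻¹ := pow_succ _ _
    rw [h2]
    have h3 : γ + 1 + 1 = γ + 2 := rfl
    rw [h3]
    have h4 : γ + 2 + 1 = γ + 1 + 2 := rfl
    rw [h4]
    nlinarith [ih, h1]

theorem quad_low (a : ℝ) (ha : 1 ≤ a) (g : ℕ → ℝ) (hg : ∀ j, 0 ≤ g j) (γ : ℕ) :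
    - (g 1 / a) ≤ ∑ j ∈ Icc 1 γ, (a⁻¹) ^ j * (g (j + 1) - g j) := by
  have ha0 : 0 < a := by linarith
  rcases γ with _ | γ
  · simp only [Nat.lt_one_iff, Icc_eq_empty_of_lt, sum_empty]
    have := div_nonneg (hg 1) ha0.le
    linarith
  · refine le_trans ?_ (quad_abel a ha g hg γ)
    have : 0 ≤ (a⁻¹) ^ (γ + 1) * g (γ + 2) := mul_nonneg (by positivity) (hg _)
    linarith

theorem quad_sum (a : ℝ) (ha : 1 < a) (γ : ℕ) :
    ∑ j ∈ Icc 1 γ, (a⁻¹) ^ j * (2 * (j : ℝ) + 1) =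
      (3 * a - 1) / (a - 1) ^ 2 - (a⁻¹) ^ γ * (2 * γ / (a - 1) + (3 * a - 1) / (a - 1) ^ 2) := by
  have ha0 : a ≠ 0 := by linarith
  have ha1 : a - 1 ≠ 0 := by linarith
  induction γ with
  | zero => simp
  | succ γ ih =>
    rw [Finset.sum_Icc_succ_top (by omega), ih]
    have h2 : (a⁻¹) ^ (γ + 1) = (a⁻¹) ^ γ * a⁻¹ := pow_succ _ _
    rw [h2]
    push_cast
    field_simp
    ring

theorem quad_sum_le (a : ℝ) (ha : 1 < a) (γ : ℕ) :
    ∑ j ∈ Icc 1 γ, (a⁻¹) ^ j * (2 * (j : ℝ) + 1) ≤ (3 * a - 1) / (a - 1) ^ 2 := by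
  rw [quad_sum a ha]
  have h1 : 0 < a - 1 := by linarith
  have h0 : 0 < a := by linarith
  have : 0 ≤ (a⁻¹) ^ γ * (2 * γ / (a - 1) + (3 * a - 1) / (a - 1) ^ 2) := by
    apply mul_nonneg (by positivity)
    apply add_nonneg (by positivity)
    apply div_nonneg (by linarith) (by positivity)
  linarith

theorem stmtQuad : StmtQuad := by
  intro a γ s0 t Fh K ha hs hsa hconv hK
  have hK0 : 0 ≤ K := by
    have h1 := hK 1
    have h2 := hconv.mono (Nat.zero_le 1)
    rw [hconv.zero] at h2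
    simp at h1
    linarith
  have haR : (5 : ℝ) ≤ (a : ℝ) := by exact_mod_cast ha
  have hsR : (1 : ℝ) ≤ (s0 : ℝ) := by exact_mod_cast hs
  have hsaR : (s0 : ℝ) + 2 ≤ (a : ℝ) := by exact_mod_cast hsa
  have hden : 0 < (a : ℝ) - 1 - s0 := by linarith
  have hden1 : 1 ≤ (a : ℝ) - 1 - s0 := by linarith
  have hmin : ((min t s0 : ℕ) : ℝ) ≤ s0 := by exact_mod_cast min_le_right _ _
  have hmin0 : 0 ≤ ((min t s0 : ℕ) : ℝ) := Nat.cast_nonneg _
  -- bounds of rho
  set ρ := rho a s0 t with hρ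
  have hρle : ρ ≤ ((a : ℝ) - 1) / ((a : ℝ) - 1 - s0) := by
    rw [hρ]
    unfold rho
    apply div_le_div_of_nonneg_left (by linarith) hden
    linarith
  have hρ0 : 0 ≤ ρ := by
    rw [hρ]
    unfold rho
    apply div_nonneg (by linarith)
    linarith
  have hρa : ρ ≤ a := by
    refine hρle.trans ?_
    rw [div_le_iff₀ hden]
    nlinarith
  -- the comparison with K t^2
  set g : ℕ → ℝ := fun j => K * ((j * t : ℕ) : ℝ) ^ 2 - Fh (j * t) with hg
  have hg0 : ∀ j, 0 ≤ g j := fun j => by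
    rw [hg]
    have := hK (j * t)
    simp only
    linarith
  have h1 := quad_low a (by linarith) g hg0 γ
  have h2 : ∑ j ∈ Icc 1 γ, ((a : ℝ)⁻¹) ^ j * (g (j + 1) - g j) =
      K * (t : ℝ) ^ 2 * ∑ j ∈ Icc 1 γ, ((a : ℝ)⁻¹) ^ j * (2 * (j : ℝ) + 1) - Xop a γ Fh t := by
    unfold Xop
    rw [Finset.mul_sum, ← Finset.sum_sub_distrib]
    apply Finset.sum_congr rfl
    intro j _
    rw [hg]
    simp only
    push_cast
    ring
  rw [h2] at h1
  have h3 := quad_sum_le a (by linarith) γ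
  set S := ∑ j ∈ Icc 1 γ, ((a : ℝ)⁻¹) ^ j * (2 * (j : ℝ) + 1) with hS
  have hS0 : 0 ≤ S := by
    rw [hS]
    apply Finset.sum_nonneg
    intro j _
    positivity
  have hg1 : g 1 = K * (t : ℝ) ^ 2 - Fh t := by
    rw [hg]
    simp
  -- Fh + rho X ≤ K t^2 (1 + rho S)
  have h4 : Fh t + ρ * Xop a γ Fh t ≤ K * (t : ℝ) ^ 2 * (1 + ρ * S) := by
    have h5 : ρ * Xop a γ Fh t ≤ ρ * (K * (t : ℝ) ^ 2 * S + g 1 / a) :=
      mul_le_mul_of_nonneg_left (by linarith) hρ0
    have h6 : ρ * (g 1 / a) ≤ g 1 := by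
      rw [mul_div_assoc', div_le_iff₀ (by linarith), mul_comm]
      exact mul_le_mul_of_nonneg_left hρa (hg0 1)
    rw [hg1] at h5 h6
    nlinarith [h5, h6]
  have h7 : ρ * S ≤ (3 * a - 1) / (((a : ℝ) - 1) * ((a : ℝ) - 1 - s0)) := by
    calc ρ * S ≤ ((a : ℝ) - 1) / ((a : ℝ) - 1 - s0) * ((3 * a - 1) / ((a : ℝ) - 1) ^ 2) :=
          mul_le_mul hρle h3 hS0 (by apply div_nonneg <;> linarith)
      _ = (3 * a - 1) / (((a : ℝ) - 1) * ((a : ℝ) - 1 - s0)) := by
          have : (a : ℝ) - 1 ≠ 0 := by linarith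
          field_simp
  have h8 : hin a s0 t ≤ 1 / (4 * s0 * ((a : ℝ) - 1 - s0)) * (t : ℝ) ^ 2 := by
    unfold hin
    have h9 : 4 * (s0 : ℝ) * ((t - s0 : ℕ) : ℝ) ≤ (t : ℝ) ^ 2 := by
      rcases le_total s0 t with h | h
      · rw [Nat.cast_sub h]
        nlinarith [sq_nonneg ((t : ℝ) - 2 * s0)]
      · rw [Nat.sub_eq_zero_of_le h]
        simp only [Nat.cast_zero, mul_zero]
        positivity
    rw [div_le_iff₀ hden]
    have : 1 / (4 * s0 * ((a : ℝ) - 1 - s0)) * (t : ℝ) ^ 2 * ((a : ℝ) - 1 - s0) =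
        (t : ℝ) ^ 2 / (4 * s0) := by
      field_simp
    rw [this, le_div_iff₀ (by positivity)]
    linarith
  unfold IncK
  have h10 : K * (t : ℝ) ^ 2 * (1 + ρ * S) ≤
      K * (t : ℝ) ^ 2 * (1 + (3 * a - 1) / (((a : ℝ) - 1) * ((a : ℝ) - 1 - s0))) :=
    mul_le_mul_of_nonneg_left (by linarith) (by positivity)
  have h11 : K * (3 * a - 1) / (((a : ℝ) - 1) * ((a : ℝ) - 1 - s0)) =
      K * ((3 * a - 1) / (((a : ℝ) - 1) * ((a : ℝ) - 1 - s0))) := by
    rw [mul_div_assoc]
  rw [h11]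
  calc Fh t + ρ * Xop a γ Fh t + hin a s0 t
      ≤ K * (t : ℝ) ^ 2 * (1 + (3 * a - 1) / (((a : ℝ) - 1) * ((a : ℝ) - 1 - s0))) +
        1 / (4 * s0 * ((a : ℝ) - 1 - s0)) * (t : ℝ) ^ 2 := by linarith
    _ = _ := by ring

end OddCov

end

section

/-!
# MP_b5285d_nt, item N9: soundness of a run
-/

namespace OddCov

open Finset

/-- soundness of a run, given soundness of one block (N8) -/
theorem stmtRunSound (hB : StmtBlockSound) : StmtRunSound := by
  intro E bs
  induction bs with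
  | nil =>
    intro b K K' V V' hrun hb _ Q hQ
    simp only [runBlocks, Option.some.injEq, Prod.mk.injEq] at hrun
    obtain ⟨rfl, rfl⟩ := hrun
    exact hb Q hQ
  | cons hd0 bs ih =>
    obtain ⟨a, n, s0⟩ := hd0
    intro b K K' V V' hrun hb hok Q hQ
    simp only [BlocksOK] at hok
    simp only [lastA] at hQ
    unfold runBlocks at hrun
    cases hstep : blockStep a n s0 V K with
    | none => rw [hstep] at hrun; simp at hrun
    | some r =>
      obtain ⟨V1, K1⟩ := r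
      rw [hstep] at hrun
      simp only at hrun
      exact ih a K1 K' V1 V' hrun (hB E a b n s0 K K1 V V1 hstep hb hok.1) hok.2 Q hQ

end OddCov

end

section

/-!
# N7: a block with at most `n` primes
-/

namespace OddCov

open Finset

theorem st_mono {Q : ℕ} {w w' : ℕ → ℕ → ℝ} {K K' : ℝ} (h : St Q w K)
    (hw : ∀ i j, w i j ≤ w' i j) (hK : K ≤ K') : St Q w' K' := by
  obtain ⟨Fh, h1, h2, h3, h4⟩ := h
  refine ⟨Fh, h1, h2, fun i j => (h3 i j).trans (hw i j), fun t => (h4 t).trans ?_⟩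
  exact mul_le_mul_of_nonneg_right hK (by positivity)

theorem side_mono {a s0 : ℕ} {K K' : ℝ} (ha : 5 ≤ a) (h : K ≤ K') (hs : Side a s0 K') :
    Side a s0 K := by
  unfold Side at *
  refine le_trans ?_ hs
  have h5 : (5 : ℝ) ≤ a := by exact_mod_cast ha
  have h1 : (0 : ℝ) ≤ 4 * (a : ℝ) ^ 2 - 3 * a + 1 := by nlinarith
  have h2 : (0 : ℝ) ≤ ((s0 - 1 : ℕ) : ℝ) ^ 2 := by positivity
  exact mul_le_mul_of_nonneg_right (mul_le_mul_of_nonneg_right h h2) h1

theorem incK_affine (a s0 : ℕ) (K K' r : ℝ) :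
    IncK a s0 (K + r * (K' - K)) = (1 - r) * IncK a s0 K + r * IncK a s0 K' := by
  unfold IncK
  ring

theorem inc_affine (a s0 : ℕ) (w w' : ℕ → ℕ → ℝ) (K K' r : ℝ) (i j : ℕ) :
    Inc a s0 (fun i j => w i j + r * (w' i j - w i j)) (K + r * (K' - K)) i j =
      (1 - r) * Inc a s0 w K i j + r * Inc a s0 w' K' i j := by
  unfold Inc Lw
  ring

theorem stmtStBlock (hPath : StmtPath) (hOne : StmtStOne) : StmtStBlock := by
  intro E a b n s0 w w' K K' ha hs hsa hn hb hcard hK0 hKK hside hI1 hI2 hT Q hQ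
  have hn0 : (0 : ℝ) < n := by exact_mod_cast hn
  have key : ∀ k : ℕ, k < n → ∀ x y z : ℝ, n * x ≤ z → (n = 1 ∨ n * y ≤ z) →
      (1 - (k : ℝ) / n) * x + (k : ℝ) / n * y ≤ z / n := by
    intro k hk x y z h1 h2
    rcases h2 with h2 | h2
    · subst h2
      have : k = 0 := by omega
      subst this
      simp at h1 ⊢
      exact h1
    · have hx : x ≤ z / n := by
        rw [le_div_iff₀ hn0]; linarith
      have hy : y ≤ z / n := by
        rw [le_div_iff₀ hn0]; linarith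
      have hk1 : (k : ℝ) / n ≤ 1 := by
        rw [div_le_one hn0]; exact_mod_cast hk.le
      have hk0 : 0 ≤ (k : ℝ) / n := by positivity
      nlinarith
  have hstep : ∀ (k : ℕ) (x y : ℝ), x + ((k + 1 : ℕ) : ℝ) / n * (y - x) =
      x + (k : ℝ) / n * (y - x) + (y - x) / n := by
    intro k x y
    push_cast
    ring
  have hww : ∀ i j, w i j ≤ w' i j := by
    intro i j
    rcases hT i j with h | h
    · exact h.1
    · rw [h.1, h.2]
      exact mul_le_mul_of_nonneg_right hKK (by positivity)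
  have hKm : ∀ k : ℕ, K + (k : ℝ) / n * (K' - K) ≤ K + ((k + 1 : ℕ) : ℝ) / n * (K' - K) := by
    intro k
    rw [hstep]
    have : 0 ≤ (K' - K) / n := div_nonneg (by linarith) hn0.le
    linarith
  have main := hPath E a b n
    (fun k Q => St Q (fun i j => w i j + (k : ℝ) / n * (w' i j - w i j))
      (K + (k : ℝ) / n * (K' - K))) ?_ hcard ?_ ?_ Q hQ
  · have h1 : (n : ℝ) / n = 1 := div_self hn0.ne'
    simpa [h1] using main
  · intro Q hQ
    simpa using hb Q hQ
  · intro k hk Q p γ hp hap _ hcop hQ0 hP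
    refine hOne a p γ s0 Q _ _ _ _ ha hap hp hcop hQ0 hs hsa hP ?_ ?_ ?_
    · refine side_mono ha ?_ hside
      have hk1 : (k : ℝ) / n ≤ 1 := by
        rw [div_le_one hn0]; exact_mod_cast hk.le
      nlinarith
    · rw [incK_affine, hstep]
      have := key k hk _ _ _ hI1 hI2
      linarith
    · intro i j
      rcases hT i j with h | h
      · left
        rw [inc_affine]
        have := key k hk _ _ _ h.2.1 h.2.2
        have h3 := hstep k (w i j) (w' i j)
        linarith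
      · right
        rw [h.1, h.2]
        apply le_of_eq
        ring
  · intro k hk Q hP
    refine st_mono hP ?_ (hKm k)
    intro i j
    have h3 := hstep k (w i j) (w' i j)
    have : 0 ≤ (w' i j - w i j) / n := div_nonneg (by linarith [hww i j]) hn0.le
    show _ ≤ w i j + ((k + 1 : ℕ) : ℝ) / n * (w' i j - w i j)
    linarith

end OddCov

end

section

/-!
N5 for MP_b5285d_nt: one prime on states.
-/

namespace OddCov

open Finset

theorem stmtStOne (h1 : StmtExact) (h2 : StmtOneP) (h3 : StmtGrowth) (h4 : StmtQuad) :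
    StmtStOne := by
  intro a p γ s0 Q w w' K K' ha hap hp hpQ hQ hs hsa hSt hSide hKK hw
  obtain ⟨Fh, hconv, hgood, hFw, hFK⟩ := hSt
  have hgood2 := h2 a p γ s0 Q Fh K ha hap hp hpQ hQ hs hsa hconv hgood hFK hSide
  obtain ⟨Fh2, hconv2, hle2, hgood3⟩ := h1 _ _ hgood2
  have hquad : ∀ t : ℕ, Fh2 t ≤ K' * (t : ℝ) ^ 2 := by
    intro t
    refine (hle2 t).trans ((h4 a γ s0 t Fh K ha hs hsa hconv hFK).trans ?_)
    exact mul_le_mul_of_nonneg_right hKK (by positivity)
  refine ⟨Fh2, hconv2, hgood3, ?_, hquad⟩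
  intro i j
  rcases hw i j with h | h
  · refine (hle2 _).trans ?_
    have hsaR : (s0 : ℝ) + 2 ≤ (a : ℝ) := by exact_mod_cast hsa
    have hmin : ((min (2 ^ i * 3 ^ j) s0 : ℕ) : ℝ) ≤ s0 := by exact_mod_cast min_le_right _ _
    have haR : (5 : ℝ) ≤ (a : ℝ) := by exact_mod_cast ha
    have hden : 1 ≤ (a : ℝ) - 1 - ((min (2 ^ i * 3 ^ j) s0 : ℕ) : ℝ) := by linarith
    have hρ0 : 0 ≤ rho a s0 (2 ^ i * 3 ^ j) := by
      unfold rho
      apply div_nonneg <;> linarith
    have hρa : rho a s0 (2 ^ i * 3 ^ j) ≤ a := by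
      unfold rho
      rw [div_le_iff₀ (by linarith)]
      nlinarith
    have h5 := h3 a γ i j Fh w K (rho a s0 (2 ^ i * 3 ^ j)) ha hconv hFw hFK hρ0 hρa
    unfold Inc at h
    linarith
  · refine (hquad _).trans (le_trans (le_of_eq ?_) h)
    push_cast
    ring

end OddCov

end

section

/-!
# Final numerical statements for MP_b5285d_nt
-/

namespace OddCov

open Finset

/-- growth operator of the prime 3 at `t = 1` (levels up to 11 from the table) -/
noncomputable def Lw3 (w : ℕ → ℕ → ℝ) (K : ℝ) : ℝ :=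
  - w 0 0 / 3 + (1 / 3 - 1 / 3 ^ 2) * w 1 0 + (1 / 3 ^ 2 - 1 / 3 ^ 3) * w 0 1
    + (1 / 3 ^ 3 - 1 / 3 ^ 4) * w 2 0 + (1 / 3 ^ 4 - 1 / 3 ^ 5) * ((w 2 0 + w 1 1) / 2)
    + (1 / 3 ^ 5 - 1 / 3 ^ 6) * w 1 1 + (1 / 3 ^ 6 - 1 / 3 ^ 7) * ((w 1 1 + w 3 0) / 2)
    + (1 / 3 ^ 7 - 1 / 3 ^ 8) * w 3 0 + (1 / 3 ^ 8 - 1 / 3 ^ 9) * w 0 2
    + (1 / 3 ^ 9 - 1 / 3 ^ 10) * ((2 * w 0 2 + w 2 1) / 3)
    + (1 / 3 ^ 10 - 1 / 3 ^ 11) * ((w 0 2 + 2 * w 2 1) / 3)
    + (1 / 3 ^ 11 - 1 / 3 ^ 12) * w 2 1 + 184 * K / 3 ^ 12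

/-- P1: the terminal step at 3, all exponents -/
def StmtGrowth3 : Prop :=
  ∀ (γ : ℕ) (Fh : ℕ → ℝ) (w : ℕ → ℕ → ℝ) (K : ℝ), Conv Fh →
    (∀ i j, Fh (2 ^ i * 3 ^ j) ≤ w i j) → (∀ t : ℕ, Fh t ≤ K * (t : ℝ) ^ 2) →
    Fh 1 + 2 * Xop 3 γ Fh 1 ≤ w 0 0 + 2 * Lw3 w K

/-- P1': the terminal step at 3, exponent at most 2 -/
def StmtGrowth3Two : Prop :=
  ∀ (γ : ℕ) (Fh : ℕ → ℝ) (w : ℕ → ℕ → ℝ), γ ≤ 2 → Conv Fh →
    (∀ i j, Fh (2 ^ i * 3 ^ j) ≤ w i j) →
    Fh 1 + 2 * Xop 3 γ Fh 1 ≤ 1 / 3 * w 0 0 + 4 / 9 * w 1 0 + 2 / 9 * w 0 1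

/-- P2: the terminal step `{3, 5}` (no 9) on states; uses `StmtGrowth` at `a = 5` -/
def StmtFin9 : Prop :=
  ∀ (γ Q : ℕ) (w : ℕ → ℕ → ℝ) (K : ℝ) (r : ℕ → ℤ), 0 < Q → Nat.Coprime 15 Q → 1 ≤ γ → St Q w K →
    0.4 * (w 0 0 + 2 * Lw 5 w K 0 0) + 0.6 * (w 1 0 + 4 / 3 * Lw 5 w K 1 0) < 1 →
    ∃ x : ℤ, Avoids (3 * 5 ^ γ * Q) (fun m => {r m}) x

/-- P3: the terminal step at 3 on states -/
def StmtFin5 : Prop :=
  ∀ (γ Q : ℕ) (w : ℕ → ℕ → ℝ) (K : ℝ) (r : ℕ → ℤ), 0 < Q → Nat.Coprime 3 Q → 1 ≤ γ → St Q w K →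
    w 0 0 + 2 * Lw3 w K < 1 →
    ∃ x : ℤ, Avoids (3 ^ γ * Q) (fun m => {r m}) x

/-- P4: passing to the moduli that are used -/
def StmtUse : Prop :=
  ∀ (Q : ℕ) (S : Finset ℕ) (r : ℕ → ℤ), 0 < Q → (∀ m ∈ S, 1 < m ∧ m ∣ Q) →
    (∃ x : ℤ, Avoids Q (fun m => {r m}) x) → ∃ x : ℤ, ∀ m ∈ S, ¬ x ≡ r m [ZMOD (m : ℤ)]

/-- P5: the covering systems form of the problem -/
def StmtCoset : Prop :=
  ∀ (s : ℕ) (m : Fin s → ℕ), (∀ i, 1 < m i) → Function.Injective m →
    (∃ x : (i : Fin s) → ZMod (m i), ∀ y ∈ AddSubgroup.zmultiples (1 : (i : Fin s) → ZMod (m i)),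
        ∃ i, (x + y) i = 0) →
    ∃ r : ℕ → ℤ, ∀ z : ℤ, ∃ k ∈ Finset.univ.image m, z ≡ r k [ZMOD (k : ℤ)]

/-- P6: arithmetic of the exclusion of 5: if `5 ∤ L`, `L` odd then `L ∣ 3^γ Q` with `Q` 7-rough -/
def StmtArith5 : Prop :=
  ∀ L : ℕ, 0 < L → Odd L → ¬ 5 ∣ L →
    ∃ γ Q : ℕ, 1 ≤ γ ∧ Rough ∅ 7 Q ∧ Nat.Coprime 3 Q ∧ L ∣ 3 ^ γ * Q

/-- P7: if `9 ∤ L`, `L` odd then `L ∣ 3 * 5^γ Q` with `Q` 7-rough -/
def StmtArith9 : Prop :=
  ∀ L : ℕ, 0 < L → Odd L → ¬ 9 ∣ L →
    ∃ γ Q : ℕ, 1 ≤ γ ∧ Rough ∅ 7 Q ∧ Nat.Coprime 15 Q ∧ L ∣ 3 * 5 ^ γ * Q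

end OddCov

end

section

/-!
# C1: `xs` is monotone and `0` at `0`
-/

namespace OddCov

open Finset

theorem xsm_incr {f : ℕ → ℝ} (hf : Conv f) {s t : ℕ} (h : s ≤ t) :
    f (s + 1) - f s ≤ f (t + 1) - f t := by
  induction t, h using Nat.le_induction with
  | base => exact le_rfl
  | succ t _ ih =>
    have := hf.conv t
    have e : t + 1 + 1 = t + 2 := rfl
    rw [e]
    linarith

theorem xsm_block {f : ℕ → ℝ} (hf : Conv f) {a t : ℕ} (h : t ≤ a) (k : ℕ) :
    (k : ℝ) * (f (t + 1) - f t) ≤ f (a + k) - f a := by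
  induction k with
  | zero => simp
  | succ k ih =>
    have h1 := xsm_incr hf (show t ≤ a + k by omega)
    have e : a + (k + 1) = a + k + 1 := by ring
    rw [e]
    push_cast
    linarith

theorem xsm_lw_sum (p γ : ℕ) (hγ : 1 ≤ γ) : ∑ j ∈ Icc 1 γ, lw p γ j = 1 / p := by
  have := share_abel_lw p γ (fun _ => 1) hγ
  simp only [sub_self, mul_zero, sum_const_zero, mul_one] at this
  linarith

/-- C1 -/
theorem stmtXsMono : StmtXsMono := by
  intro p γ i f hp hγ hf
  refine ⟨?_, ?_⟩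
  · refine monotone_nat_of_le_succ fun t => ?_
    unfold xs
    by_cases hi : i = 0
    · subst hi
      rw [if_pos rfl, if_pos rfl]
      simp only [Nat.zero_max] 
      have h1 : ∑ j ∈ Icc 1 γ, lw p γ j * (f (t + 1) - f t) ≤
          ∑ j ∈ Icc 1 γ, (lw p γ j / (j + 1) * f ((j + 1) * (t + 1)) -
            lw p γ j / (j + 1) * f ((j + 1) * t)) := by
        refine sum_le_sum fun j _ => ?_
        have h2 : (0 : ℝ) < (j : ℝ) + 1 := by positivity
        have h3 : 0 ≤ lw p γ j / ((j : ℝ) + 1) := div_nonneg (share_lw_nonneg p γ j hp) h2.le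
        have h4 := xsm_block hf (show t ≤ (j + 1) * t by nlinarith) (j + 1)
        have e : (j + 1) * t + (j + 1) = (j + 1) * (t + 1) := by ring
        rw [e] at h4
        push_cast at h4
        have h5 := mul_le_mul_of_nonneg_left h4 h3
        calc lw p γ j * (f (t + 1) - f t)
            = lw p γ j / ((j : ℝ) + 1) * (((j : ℝ) + 1) * (f (t + 1) - f t)) := by
              field_simp
          _ ≤ _ := h5
          _ = _ := by ring
      rw [← sum_mul, xsm_lw_sum p γ hγ, sum_sub_distrib] at h1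
      have e1 : (1 : ℝ) / p * (f (t + 1) - f t) = f (t + 1) / p - f t / p := by ring
      rw [e1] at h1
      linarith
    · rw [if_neg hi, if_neg hi, sub_zero, sub_zero]
      refine sum_le_sum fun j _ => ?_
      have h2 : (0 : ℝ) < (j : ℝ) + 1 := by positivity
      have h3 : 0 ≤ lw p γ j / ((j : ℝ) + 1) := div_nonneg (share_lw_nonneg p γ j hp) h2.le
      exact mul_le_mul_of_nonneg_left (hf.mono (Nat.mul_le_mul_left _ (Nat.le_succ t))) h3
  · unfold xs
    simp [hf.zero]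

end OddCov

end
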