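import Pool.Agent.Work.MP_b5285d_nt.Bd.B01
import Pool.Agent.Work.MP_b5285d_nt.Bd.B02
import Pool.Agent.Work.MP_b5285d_nt.ThreeFive

/-! Bundle of small proof modules (one section per former module). -/

section

/-!
# C2: sum of the shares
-/

namespace OddCov

open Finset

/-- C2 -/
theorem stmtXsSum : StmtXsSum := by
  intro p γ f t hp hγ
  have e2 : ∑ i ∈ range (γ + 1), xs p γ i f t =
      ∑ j ∈ Icc 1 γ, lw p γ j / (j + 1) * ∑ i ∈ range (j + 1), f ((j + 1) * t) - f t / p := by
    unfold xs
    rw [sum_sub_distrib]
    congr 1
    · simp only [mul_sum]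
      refine sum_comm' ?_
      intro i j
      simp only [mem_range, mem_Icc]
      omega
    · rw [sum_eq_single 0]
      · simp
      · intro i _ hi; simp [hi]
      · intro h; exact absurd (mem_range.2 (Nat.succ_pos γ)) h
  have e3 : ∑ j ∈ Icc 1 γ, lw p γ j / (j + 1) * ∑ i ∈ range (j + 1), f ((j + 1) * t) =
      ∑ j ∈ Icc 1 γ, lw p γ j * f ((j + 1) * t) := by
    refine sum_congr rfl fun j _ => ?_
    rw [sum_const, card_range, nsmul_eq_mul]
    push_cast
    have h2 : (j : ℝ) + 1 ≠ 0 := by positivity
    field_simp
  have e4 := share_abel_lw p γ (fun j => f ((j + 1) * t)) hγ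
  simp only [zero_add, one_mul] at e4
  rw [e2, e3]
  unfold Xop
  have e5 : ∑ j ∈ Icc 1 γ, ((p : ℝ)⁻¹) ^ j * (f ((j + 1) * t) - f (j * t)) =
      ∑ j ∈ Icc 1 γ, ((p : ℝ)⁻¹) ^ j * (f ((j + 1) * t) - f ((j - 1 + 1) * t)) := by
    refine sum_congr rfl fun j hj => ?_
    rw [mem_Icc] at hj
    rw [Nat.sub_add_cancel hj.1]
  rw [e5, e4]
  ring

end OddCov

end

section

/-!
# P6, P7: arithmetic of the exclusions
-/

namespace OddCov

theorem prime_ge_seven {p : ℕ} (hp : p.Prime) (h2 : p ≠ 2) (h3 : p ≠ 3) (h5 : p ≠ 5) : 7 ≤ p := by
  by_contra h
  push Not at h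
  have := hp.two_le
  interval_cases p <;> first | omega | (revert hp; decide)

theorem stmtArith5 : StmtArith5 := by
  intro L hL hodd h5
  have hL0 : L ≠ 0 := hL.ne'
  refine ⟨L.factorization 3 + 1, ordCompl[3] L, by omega, ⟨Nat.ordCompl_pos 3 hL0, ?_⟩, ?_, ?_⟩
  · intro p hp hd
    refine ⟨?_, by simp⟩
    have hdL : p ∣ L := hd.trans (Nat.ordCompl_dvd L 3)
    refine prime_ge_seven hp ?_ ?_ ?_
    · rintro rfl
      exact (Nat.not_even_iff_odd.2 hodd) (even_iff_two_dvd.2 hdL)
    · rintro rfl
      exact Nat.not_dvd_ordCompl hp hL0 hd
    · rintro rfl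
      exact h5 hdL
  · exact Nat.coprime_ordCompl Nat.prime_three hL0
  · calc L = 3 ^ L.factorization 3 * ordCompl[3] L := (Nat.ordProj_mul_ordCompl_eq_self L 3).symm
      _ ∣ 3 ^ (L.factorization 3 + 1) * ordCompl[3] L :=
        Nat.mul_dvd_mul_right (pow_dvd_pow 3 (by omega)) _

theorem stmtArith9 : StmtArith9 := by
  intro L hL hodd h9
  have hL0 : L ≠ 0 := hL.ne'
  set M := ordCompl[3] L with hM
  have hM0 : M ≠ 0 := (Nat.ordCompl_pos 3 hL0).ne'
  have hML : M ∣ L := Nat.ordCompl_dvd L 3
  have h3M : ¬ 3 ∣ M := Nat.not_dvd_ordCompl Nat.prime_three hL0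
  set Q := ordCompl[5] M with hQ
  have hQM : Q ∣ M := Nat.ordCompl_dvd M 5
  have h3Q : ¬ 3 ∣ Q := fun h => h3M (h.trans hQM)
  have h5Q : ¬ 5 ∣ Q := Nat.not_dvd_ordCompl Nat.prime_five hM0
  refine ⟨M.factorization 5 + 1, Q, by omega, ⟨Nat.ordCompl_pos 5 hM0, ?_⟩, ?_, ?_⟩
  · intro p hp hd
    refine ⟨?_, by simp⟩
    have hdL : p ∣ L := (hd.trans hQM).trans hML
    refine prime_ge_seven hp ?_ ?_ ?_
    · rintro rfl
      exact (Nat.not_even_iff_odd.2 hodd) (even_iff_two_dvd.2 hdL)
    · rintro rfl
      exact h3Q hd
    · rintro rfl
      exact h5Q hd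
  · have h3 : Nat.Coprime 3 Q := (Nat.Prime.coprime_iff_not_dvd Nat.prime_three).2 h3Q
    have h5 : Nat.Coprime 5 Q := (Nat.Prime.coprime_iff_not_dvd Nat.prime_five).2 h5Q
    have : (15 : ℕ) = 3 * 5 := by norm_num
    rw [this]
    exact Nat.Coprime.mul_left h3 h5
  · have hle : L.factorization 3 ≤ 1 := by
      by_contra h
      push Not at h
      apply h9
      have : (3 : ℕ) ^ 2 ∣ L := (pow_dvd_pow 3 h).trans (Nat.ordProj_dvd L 3)
      simpa using this
    have e1 : L = 3 ^ L.factorization 3 * M := (Nat.ordProj_mul_ordCompl_eq_self L 3).symm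
    have e2 : M = 5 ^ M.factorization 5 * Q := (Nat.ordProj_mul_ordCompl_eq_self M 5).symm
    have d1 : 3 ^ L.factorization 3 ∣ 3 := by
      calc 3 ^ L.factorization 3 ∣ 3 ^ 1 := pow_dvd_pow 3 hle
        _ = 3 := by norm_num
    have d2 : M ∣ 5 ^ (M.factorization 5 + 1) * Q := by
      calc M = 5 ^ M.factorization 5 * Q := e2
        _ ∣ _ := Nat.mul_dvd_mul_right (pow_dvd_pow 5 (by omega)) _
    calc L = 3 ^ L.factorization 3 * M := e1
      _ ∣ 3 * (5 ^ (M.factorization 5 + 1) * Q) := Nat.mul_dvd_mul d1 d2
      _ = _ := by ring

end OddCov

end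

section

/-!
# MP_b5285d_nt: the prime counts of the blocks of `Data.lean`
-/

namespace OddCov

theorem blocksOK_of_listOK (E : Finset ℕ) : ∀ (l : List (ℕ × ℕ × ℕ)) (b : ℕ),
    listOK b l = true → BlocksOK E b l := by
  intro l
  induction l with
  | nil => intro b _; exact trivial
  | cons x l ih =>
    obtain ⟨a, n, s⟩ := x
    intro b h
    rw [listOK, Bool.and_eq_true] at h
    refine ⟨?_, ih a h.2⟩
    refine le_trans (Finset.card_le_card ?_) (card_of_bndOK h.1)
    intro q hq
    rw [PrIn, Finset.mem_filter] at hq
    exact Finset.mem_filter.mpr ⟨hq.1, hq.2.1⟩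

theorem listOK_data : listOK 500000 blocks = true := by decide +kernel

/-- the prime counts, for every set `E` of excluded primes -/
theorem stmtDataCounts (E : Finset ℕ) : BlocksOK E 500000 blocks :=
  blocksOK_of_listOK E _ _ listOK_data

end OddCov

end

section

/-!
# Glue lemmas for runs of the checker
-/

namespace OddCov

open Finset

theorem lastA_append (b : ℕ) (l₁ l₂ : List (ℕ × ℕ × ℕ)) :
    lastA b (l₁ ++ l₂) = lastA (lastA b l₁) l₂ := by
  induction l₁ generalizing b with
  | nil => rfl
  | cons x xs ih => obtain ⟨a, n, s⟩ := x; simpa [lastA] using ih a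

theorem blocksOK_append (E : Finset ℕ) (b : ℕ) (l₁ l₂ : List (ℕ × ℕ × ℕ)) :
    BlocksOK E b (l₁ ++ l₂) ↔ BlocksOK E b l₁ ∧ BlocksOK E (lastA b l₁) l₂ := by
  induction l₁ generalizing b with
  | nil => simp [BlocksOK, lastA]
  | cons x xs ih =>
    obtain ⟨a, n, s⟩ := x
    simp only [List.cons_append, BlocksOK, lastA, ih a, and_assoc]

theorem blocksOK_mono {E E' : Finset ℕ} (h : E ⊆ E') (b : ℕ) (l : List (ℕ × ℕ × ℕ))
    (hl : BlocksOK E b l) : BlocksOK E' b l := by
  induction l generalizing b with
  | nil => trivial
  | cons x xs ih =>
    obtain ⟨a, n, s⟩ := x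
    refine ⟨le_trans (Finset.card_le_card ?_) hl.1, ih a hl.2⟩
    intro p hp
    simp only [PrIn, mem_filter] at hp ⊢
    exact ⟨hp.1, hp.2.1, fun hE => hp.2.2 (h hE)⟩

theorem wT_of {V : List (List ℕ)} {i j v : ℕ} (K : ℕ) (h : ent V i j = some v) :
    wT V K i j = (v : ℝ) / SC := by
  simp [wT, h]

theorem rough_mono {E : Finset ℕ} {a b Q : ℕ} (h : a ≤ b) (hQ : Rough E b Q) : Rough E a Q :=
  ⟨hQ.1, fun p hp hd => ⟨h.trans (hQ.2 p hp hd).1, (hQ.2 p hp hd).2⟩⟩

/-- entries of `initRow` -/
theorem initRow_get (K T : ℕ) : ∀ (f t j v : ℕ), (initRow K T f t)[j]? = some v →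
    v = K * (3 ^ j * t) ^ 2 := by
  intro f
  induction f with
  | zero => intro t j v h; simp [initRow] at h
  | succ f ih =>
    intro t j v h
    rw [initRow] at h
    split_ifs at h with hc
    · cases j with
      | zero => simp at h; rw [← h]; ring
      | succ j =>
        rw [List.getElem?_cons_succ] at h
        rw [ih _ _ _ h]; ring
    · simp at h

theorem initTab_ent (K T : ℕ) : ∀ (f t i j v : ℕ), ent (initTab K T f t) i j = some v →
    v = K * (2 ^ i * 3 ^ j * t) ^ 2 := by
  intro f
  induction f with
  | zero => intro t i j v h; simp [initTab, ent] at h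
  | succ f ih =>
    intro t i j v h
    rw [initTab] at h
    split_ifs at h with hc
    · cases i with
      | zero =>
        simp only [ent, List.getElem?_cons_zero, Option.bind_some] at h
        rw [initRow_get _ _ _ _ _ _ h]; ring
      | succ i =>
        simp only [ent, List.getElem?_cons_succ] at h
        rw [ih (2 * t) i j v h]; ring
    · simp [ent] at h

/-- the initial state -/
theorem st_init (hT : StmtTail) (E : Finset ℕ) : ∀ Q, Rough E 500000 Q →
    St Q (wT V0 K0) ((K0 : ℝ) / SC) := by
  intro Q hQ
  obtain ⟨Fh, hc, hg, hb⟩ := hT E Q hQ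
  refine ⟨Fh, hc, hg, fun i j => ?_, hb⟩
  have hval : wT V0 K0 i j = (K0 : ℝ) / SC * (((2 ^ i * 3 ^ j : ℕ)) : ℝ) ^ 2 := by
    unfold wT
    rcases h : ent V0 i j with _ | v
    · simp only [Option.getD_none]; push_cast; ring
    · have := initTab_ent _ _ _ _ _ _ _ h
      rw [mul_one] at this
      simp only [Option.getD_some]
      rw [this]; push_cast; ring
  rw [hval]
  exact hb _

end OddCov

end

section

/-!
# Kernel run, part 1 (blocks 0 to 104)
-/

set_option maxRecDepth 100000

namespace OddCov

/-- blocks of part 1 -/
def seg1 : List (ℕ × ℕ × ℕ) := (blocks.drop 0).take 105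

/-- table after part 1 -/
def VC1 : List (List ℕ) := [
   [273361460, 2460338459, 22145364967, 199371010674, 1796040898526, 16211022859940,
    147228999367653, 1370403813083332, 15189285982748477, 299002373984360796, 2945742871538886183,
    20863189615333810657, 172510549133064292812, 1845001112403046906566],
   [1093464716, 9841868923, 88595390585, 797861531193, 7194470255611, 65133089908350,
    598014752067916, 5938597065007269, 102493615253414968, 1355694260160530964,
    10200149229116940828, 73567875400790002914, 831227316033444371767],
   [4374011298, 39371600686, 354493209179, 3194482702286, 28861835905824, 263011579855327,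
    2490870082996558, 31276187386931557, 581222006956359997, 4988537808959508944,
    34471143091942107309, 296945454448969990649],
   [17497266783, 157519443657, 1418869253423, 12802504256226, 116147280652075, 1075797740021970,
    11444706170477689, 223061377127203454, 2363582651461412342, 16997974485133627788,
    124228092672581559586, 1462819441759567100307],
   [69998849110, 630342737098, 5682701932424, 51411615964417, 470794634821383, 4594607518848281,
    72697358369707176, 1069415795148943805, 8300902098682041850, 59516496717653393674,
    514449819776182506026],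
   [280073778262, 2523500999029, 22789527711498, 207358438753704, 1947662355407331,
    23137924626692326, 446246736623601071, 4032510559710115980, 28050471332665925214,
    237543503541509799458, 2580319612039096127325],
   [1120924185142, 10111217673685, 91644927141480, 845396435299724, 8695755960784468,
    164021867364592812, 1889071547095151067, 13843903090331865885, 100136868348616409317,
    1160256486200494137180],
   [4488762515281, 40585633358108, 370831410487765, 3567895004260531, 51125347848813743,
    837552778896401344, 6747683423259088816, 48217556616707303901, 410501514123593486094],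
   [17996141658733, 163527767865972, 1525912545701640, 17257049644442873, 338971835273818499,
    3243650561059936885, 22843811709587498940, 190246356194572380242, 2044798924581099867617],
   [72323605378355, 664907344473957, 6664254179392217, 118791665136506790, 1502715579059201330,
    11171180816165001562, 80838770871817468716, 920667950898925349705],
   [292217712660989, 2779408200549758, 36160525328985752, 651344232143825084, 5475649248640619243,
    37775252605839803646, 327881183590993481579],
   [1197244154820535, 12958396939354382, 254376639638173935, 2606585864564726674,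
    18611122895540337392, 136726663007602178682, 1620969538546034474825],
   [5144456215551499, 84747109212239213, 1188742505515400469, 9094205619647541447,
    65356317083705406666, 568653125677011705692],
   [26393883070991055, 502223879898499621, 4432396024896857722, 30725421001738252087,
    262162443244559454397, 2860334704582521196650],
   [188286624605141771, 2087097174223600617, 15161353035811760568, 110138938556410606497,
    1285468061826657306384],
   [934233754525243261, 7396730215338198303, 52916173772724137887, 453563942264657316544],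
   [3576878140981549663, 25014503512685926789, 209855109201800334837, 2266383383403646502430],
   [12344631946433990653, 88854224812571296383, 1019825864495293557324],
   [42902171284342094104, 362114817916696606731],
   [168182880482237856523, 1796349031298522054400],
   [809442745903704917249]]

def KC1 : ℕ := 1082924242

theorem run1 : runBlocks seg1 V0 K0 = some (VC1, KC1) := by
  decide +kernel

end OddCov

end

section

/-!
# The fibre step and its two terminal forms, without hypotheses
-/

namespace OddCov

theorem step_all : StmtStep :=
  stmtStep stmtChord stmtJensen stmtSupport stmtMeasure stmtClassCard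
    (stmtFibre stmtChord stmtClassCard) (stmtShare stmtJensen)
    stmtXsMono stmtXsSum (stmtConvZero stmtXsMono) stmtConvPos stmtMK stmtRho stmtHp stmtTotal
    stmtHpInterp stmtDivSum stmtLift

theorem noFive_all : StmtNoFive := stmtNoFive step_all

end OddCov

end

section

/-!
# MP_b5285d_nt, item N11: the quadratic bound above 500000

Dyadic blocks `[a, 2a)`, `a = 500000 * 2^j`; the number of primes in a block is bounded with the
central binomial coefficient.
-/

namespace OddCov

open Finset

namespace TailAux

/-- quadratic bound for the potential -/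
def QB (Q : ℕ) (K : ℝ) : Prop :=
  ∃ Fh : ℕ → ℝ, Conv Fh ∧ Good Q Fh ∧ ∀ t : ℕ, Fh t ≤ K * (t : ℝ) ^ 2

theorem QB.mono {Q : ℕ} {K K' : ℝ} (h : QB Q K) (hK : K ≤ K') : QB Q K' := by
  obtain ⟨Fh, h1, h2, h3⟩ := h
  refine ⟨Fh, h1, h2, fun t => (h3 t).trans ?_⟩
  exact mul_le_mul_of_nonneg_right hK (by positivity)

theorem QB_one : QB 1 0 := by
  refine ⟨fun _ => 0, ⟨rfl, fun _ _ _ => le_rfl, fun _ => by norm_num⟩, ⟨fun _ _ => 0, ?_, ?_, ?_⟩,
    fun t => by simp⟩
  · exact fun _ => ⟨rfl, fun _ _ _ => le_rfl, fun _ => by norm_num⟩
  · intro t
    simp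
  · intro C _
    refine ⟨0, ?_⟩
    intro m hm
    simp at hm

theorem QB_step (h1 : StmtExact) (h2 : StmtOneP) (h4 : StmtQuad) {a p γ s0 Q : ℕ} {K : ℝ}
    (ha : 5 ≤ a) (hap : a ≤ p) (hp : p.Prime) (hc : Nat.Coprime p Q) (hQ : 0 < Q) (hs : 1 ≤ s0)
    (hs' : s0 + 2 ≤ a) (h : QB Q K) (hside : Side a s0 K) : QB (p ^ γ * Q) (K + IncK a s0 K) := by
  obtain ⟨Fh, hF1, hF2, hF3⟩ := h
  have hG := h2 a p γ s0 Q Fh K ha hap hp hc hQ hs hs' hF1 hF2 hF3 hside
  obtain ⟨F2, hc2, hle, hG2⟩ := h1 _ _ hG
  exact ⟨F2, hc2, hG2, fun t => (hle t).trans (h4 a γ s0 t Fh K ha hs hs' hF1 hF3)⟩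

/-- number of primes in a dyadic block -/
theorem card_block (E : Finset ℕ) (m : ℕ) (hm : ¬ m.Prime) :
    m ^ (PrIn E m (2 * m)).card ≤ 4 ^ m := by
  have h1 : m ^ (PrIn E m (2 * m)).card ≤ ∏ p ∈ PrIn E m (2 * m), p := by
    rw [← Finset.prod_const]
    refine Finset.prod_le_prod' fun p hp => ?_
    unfold PrIn at hp
    rw [Finset.mem_filter, Finset.mem_Ico] at hp
    exact hp.1.1
  have h2 : ∏ p ∈ PrIn E m (2 * m), p ∣ (2 * m).choose m := by
    refine Finset.prod_primes_dvd _ (fun p hp => ?_) (fun p hp => ?_)
    · unfold PrIn at hp
      rw [Finset.mem_filter] at hp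
      exact hp.2.1.prime
    · unfold PrIn at hp
      rw [Finset.mem_filter, Finset.mem_Ico] at hp
      obtain ⟨⟨h3, h4⟩, h5, _⟩ := hp
      have h6 : m < p := lt_of_le_of_ne h3 (by rintro rfl; exact hm h5)
      exact h5.dvd_choose h6 (by omega) h4.le
  have h3 : 0 < (2 * m).choose m := Nat.choose_pos (by omega)
  calc m ^ (PrIn E m (2 * m)).card ≤ ∏ p ∈ PrIn E m (2 * m), p := h1
    _ ≤ (2 * m).choose m := Nat.le_of_dvd h3 h2
    _ ≤ 2 ^ (2 * m) := Nat.choose_le_two_pow _ _
    _ = 4 ^ m := by rw [pow_mul]; norm_num

/-- the left end of block `j` -/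
def nj (j : ℕ) : ℕ := 500000 * 2 ^ j

theorem nj_succ (j : ℕ) : nj (j + 1) = 2 * nj j := by
  unfold nj
  rw [pow_succ]
  ring

theorem nj_not_prime (j : ℕ) : ¬ (nj j).Prime := by
  unfold nj
  have h : 500000 * 2 ^ j = 2 * (250000 * 2 ^ j) := by ring
  rw [h]
  refine Nat.not_prime_mul (by norm_num) ?_
  have : 0 < 2 ^ j := pow_pos (by norm_num) j
  omega

theorem card_le (E : Finset ℕ) (j : ℕ) :
    (189 + 10 * j) * (PrIn E (nj j) (2 * nj j)).card ≤ 20 * nj j := by
  have h1 := card_block E (nj j) (nj_not_prime j)
  set c := (PrIn E (nj j) (2 * nj j)).card with hc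
  have h2 : 2 ^ (189 + 10 * j) ≤ (nj j) ^ 10 := by
    unfold nj
    rw [mul_pow, pow_add, ← pow_mul, mul_comm j 10]
    exact Nat.mul_le_mul_right _ (by norm_num)
  have h3 : 2 ^ ((189 + 10 * j) * c) ≤ 2 ^ (20 * nj j) := by
    calc 2 ^ ((189 + 10 * j) * c) = (2 ^ (189 + 10 * j)) ^ c := by rw [pow_mul]
      _ ≤ ((nj j) ^ 10) ^ c := Nat.pow_le_pow_left h2 c
      _ = ((nj j) ^ c) ^ 10 := by rw [← pow_mul, ← pow_mul, mul_comm]
      _ ≤ (4 ^ nj j) ^ 10 := Nat.pow_le_pow_left h1 10
      _ = 2 ^ (20 * nj j) := by
        rw [show (4 : ℕ) = 2 ^ 2 by norm_num, ← pow_mul, ← pow_mul]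
        congr 1
        ring
  exact (Nat.pow_le_pow_iff_right (by norm_num)).1 h3

/-- the constants of the block with left end `a`: growth and source -/
theorem incK_le {a s0 : ℕ} {K : ℝ} (ha : 500000 ≤ a) (hs : (s0 : ℝ) = 31 / 100 * a) (hK : 0 ≤ K) :
    IncK a s0 K ≤ K * (4.348 / a) + 1.1688 / (a : ℝ) ^ 2 := by
  have haR : (500000 : ℝ) ≤ a := by exact_mod_cast ha
  have ha0 : (0 : ℝ) < a := by linarith
  unfold IncK
  rw [hs]
  have hd1 : (0 : ℝ) < (a : ℝ) - 1 := by linarith
  have hd2 : (0 : ℝ) < (a : ℝ) - 1 - 31 / 100 * a := by linarith
  have e1 : K * (3 * a - 1) / (((a : ℝ) - 1) * ((a : ℝ) - 1 - 31 / 100 * a)) ≤ K * (4.348 / a) := by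
    rw [mul_div_assoc]
    refine mul_le_mul_of_nonneg_left ?_ hK
    rw [div_le_div_iff₀ (mul_pos hd1 hd2) ha0]
    nlinarith
  have e2 : 1 / (4 * (31 / 100 * (a : ℝ)) * ((a : ℝ) - 1 - 31 / 100 * a)) ≤
      1.1688 / (a : ℝ) ^ 2 := by
    rw [div_le_div_iff₀ (by positivity) (by positivity)]
    nlinarith
  linarith

theorem side_ok {a s0 : ℕ} {K : ℝ} (ha : 500000 ≤ a) (hs : (s0 : ℝ) = 31 / 100 * a) (hs1 : 1 ≤ s0)
    (hK : K ≤ 6 / 10 / a) : Side a s0 K := by
  have haR : (500000 : ℝ) ≤ a := by exact_mod_cast ha
  have ha0 : (0 : ℝ) < a := by linarith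
  unfold Side
  rw [Nat.cast_sub hs1, hs, Nat.cast_one]
  have h1 : K * (31 / 100 * (a : ℝ) - 1) ^ 2 * (4 * (a : ℝ) ^ 2 - 3 * a + 1) ≤
      6 / 10 / a * (31 / 100 * (a : ℝ)) ^ 2 * (4 * (a : ℝ) ^ 2) := by
    have h2 : (0 : ℝ) ≤ 4 * (a : ℝ) ^ 2 - 3 * a + 1 := by nlinarith
    have h3 : (31 / 100 * (a : ℝ) - 1) ^ 2 ≤ (31 / 100 * (a : ℝ)) ^ 2 := by nlinarith
    have h4 : (0 : ℝ) ≤ 6 / 10 / a := by positivity
    calc K * (31 / 100 * (a : ℝ) - 1) ^ 2 * (4 * (a : ℝ) ^ 2 - 3 * a + 1) ≤
        6 / 10 / a * (31 / 100 * (a : ℝ) - 1) ^ 2 * (4 * (a : ℝ) ^ 2 - 3 * a + 1) := by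
          refine mul_le_mul_of_nonneg_right ?_ h2
          exact mul_le_mul_of_nonneg_right hK (by positivity)
      _ ≤ 6 / 10 / a * (31 / 100 * (a : ℝ)) ^ 2 * (4 * (a : ℝ) ^ 2) := by
          refine mul_le_mul ?_ (by linarith) h2 (by positivity)
          exact mul_le_mul_of_nonneg_left h3 h4
  refine h1.trans ?_
  have h5 : 6 / 10 / (a : ℝ) * (31 / 100 * (a : ℝ)) ^ 2 * (4 * (a : ℝ) ^ 2) =
      0.23064 * (a : ℝ) ^ 3 := by
    field_simp
    ring
  rw [h5]
  nlinarith [mul_pos ha0 ha0, mul_pos (mul_pos ha0 ha0) ha0]

/-- the sequence of bounds -/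
noncomputable def kap (j : ℕ) : ℝ := 6 / ((j + 10) * (nj j : ℝ))

theorem exp_poly {x : ℝ} (h0 : 0 ≤ x) (h1 : x ≤ 1) :
    Real.exp x ≤ 1 + x + x ^ 2 / 2 + x ^ 3 / 6 + 5 * x ^ 4 / 96 := by
  have h := Real.exp_bound' h0 h1 (n := 4) (by norm_num)
  refine h.trans (le_of_eq ?_)
  simp only [Finset.sum_range_succ, Finset.sum_range_zero, Nat.factorial]
  push_cast
  ring

/-- the numerical inequality for block `j` -/
theorem key_ineq (j : ℝ) (hj : 0 ≤ j) :
    (3 / (j + 11) + 0.26882) * Real.exp (8.696 / (18.9 + j)) ≤ 6 / (j + 10) + 0.26882 := by
  have hL : 0 < 18.9 + j := by linarith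
  set x : ℝ := 8.696 / (18.9 + j) with hx
  have hx0 : 0 ≤ x := by positivity
  have hx1 : x ≤ 1 := by
    rw [hx, div_le_one hL]
    linarith
  have h1 := exp_poly hx0 hx1
  have h2 : (0 : ℝ) ≤ 3 / (j + 11) + 0.26882 := by positivity
  refine (mul_le_mul_of_nonneg_left h1 h2).trans ?_
  rw [hx]
  have hj10 : 0 < j + 10 := by linarith
  have hj11 : 0 < j + 11 := by linarith
  rw [← sub_nonneg]
  have key : 6 / (j + 10) + 0.26882 - (3 / (j + 11) + 0.26882) *
      (1 + 8.696 / (18.9 + j) + (8.696 / (18.9 + j)) ^ 2 / 2 + (8.696 / (18.9 + j)) ^ 3 / 6 +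
        5 * (8.696 / (18.9 + j)) ^ 4 / 96) =
      ((6 * (j + 11) + 0.26882 * ((j + 10) * (j + 11))) * (18.9 + j) ^ 4 -
        (3 * (j + 10) + 0.26882 * ((j + 10) * (j + 11))) *
        ((18.9 + j) ^ 4 + 8.696 * (18.9 + j) ^ 3 + 8.696 ^ 2 / 2 * (18.9 + j) ^ 2 +
          8.696 ^ 3 / 6 * (18.9 + j) + 5 * 8.696 ^ 4 / 96)) /
      ((j + 10) * (j + 11) * (18.9 + j) ^ 4) := by
    field_simp
  rw [key]
  refine div_nonneg ?_ (by positivity)
  have h5 := pow_nonneg hj 2
  have h6 := pow_nonneg hj 3
  have h7 := pow_nonneg hj 4
  have h8 := pow_nonneg hj 5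
  have h9 := pow_nonneg hj 6
  nlinarith

end TailAux

open TailAux

theorem stmtTail (h1 : StmtExact) (h2 : StmtOneP) (h4 : StmtQuad) (h6 : StmtPath) : StmtTail := by
  intro E Q hQ
  -- all `Q < N`
  have main : ∀ (J : ℕ) (i : ℕ), i ≤ J → ∀ Q : ℕ, Rough E (nj (J - i)) Q → Q < nj J →
      QB Q (kap (J - i)) := by
    intro J i
    induction i with
    | zero =>
      intro _ Q hR hlt
      have hQ1 : Q = 1 := by
        by_contra hne
        obtain ⟨p, hp, hpQ⟩ := Nat.exists_prime_and_dvd hne
        have h7 := (hR.2 p hp hpQ).1
        have h8 := Nat.le_of_dvd hR.1 hpQ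
        rw [Nat.sub_zero] at h7
        omega
      rw [hQ1]
      refine QB_one.mono ?_
      unfold kap
      positivity
    | succ i ih =>
      intro hi Q hR hlt
      obtain ⟨j, hj⟩ : ∃ j, J - i = j + 1 := ⟨J - i - 1, by omega⟩
      have hj' : J - (i + 1) = j := by omega
      rw [hj'] at hR ⊢
      have ih' := ih (by omega)
      rw [hj, nj_succ] at ih'
      set a := nj j with ha
      have ha5 : 500000 ≤ a := by
        rw [ha]
        unfold nj
        have : 0 < 2 ^ j := pow_pos (by norm_num) j
        omega
      have haR : (500000 : ℝ) ≤ a := by exact_mod_cast ha5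
      have ha0 : (0 : ℝ) < a := by linarith
      set s0 := 155000 * 2 ^ j with hs0
      have hs : (s0 : ℝ) = 31 / 100 * a := by
        rw [hs0, ha]
        unfold nj
        push_cast
        ring
      have hs1 : 1 ≤ s0 := by
        rw [hs0]
        have : 0 < 2 ^ j := pow_pos (by norm_num) j
        omega
      have hs2 : s0 + 2 ≤ a := by
        have : (s0 : ℝ) + 2 ≤ a := by rw [hs]; linarith
        exact_mod_cast this
      set n := (PrIn E a (2 * a)).card with hn
      have hcard : (189 + 10 * j) * n ≤ 20 * a := card_le E j
      set g : ℝ := 4.348 / a with hg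
      set β : ℝ := 0.26882 / a with hβ
      have hg0 : 0 ≤ g := by positivity
      have hβ0 : 0 ≤ β := by positivity
      set κ' : ℝ := kap (j + 1) with hκ'
      have hκ'0 : 0 ≤ κ' := by
        rw [hκ']
        unfold kap
        positivity
      let Kk : ℕ → ℝ := fun k => (κ' + β) * (1 + g) ^ k - β
      have hKk0 : ∀ k, 0 ≤ Kk k := by
        intro k
        have : (1 : ℝ) ≤ (1 + g) ^ k := one_le_pow₀ (by linarith)
        show 0 ≤ (κ' + β) * (1 + g) ^ k - β
        nlinarith
      have hKk : ∀ k, Kk k + (Kk k * g + β * g) = Kk (k + 1) := by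
        intro k
        show (κ' + β) * (1 + g) ^ k - β + (((κ' + β) * (1 + g) ^ k - β) * g + β * g) =
          (κ' + β) * (1 + g) ^ (k + 1) - β
        rw [pow_succ]
        ring
      have hmono : ∀ k, Kk k ≤ Kk (k + 1) := by
        intro k
        rw [← hKk k]
        have := mul_nonneg (hKk0 k) hg0
        have := mul_nonneg hβ0 hg0
        linarith
      have hmono' : Monotone Kk := monotone_nat_of_le_succ hmono
      have hlast : Kk n ≤ kap j := by
        have hx : g * n ≤ 8.696 / (18.9 + (j : ℝ)) := by
          rw [hg, div_mul_eq_mul_div, div_le_div_iff₀ ha0 (by positivity)]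
          have : (189 + 10 * (j : ℝ)) * n ≤ 20 * a := by exact_mod_cast hcard
          nlinarith
        have hpow : (1 + g) ^ n ≤ Real.exp (8.696 / (18.9 + (j : ℝ))) := by
          calc (1 + g) ^ n ≤ (Real.exp g) ^ n := by
                refine pow_le_pow_left₀ (by linarith) ?_ n
                have := Real.add_one_le_exp g
                linarith
            _ = Real.exp (g * n) := by
                rw [← Real.exp_nat_mul, mul_comm]
            _ ≤ _ := Real.exp_le_exp.2 hx
        have hk := key_ineq (j : ℝ) (Nat.cast_nonneg j)
        have e1 : κ' + β = (3 / ((j : ℝ) + 11) + 0.26882) / a := by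
          rw [hκ', hβ]
          unfold kap
          rw [nj_succ, ← ha]
          push_cast
          field_simp
          ring
        have e2 : kap j = (6 / ((j : ℝ) + 10)) / a := by
          unfold kap
          rw [← ha, div_div]
        show (κ' + β) * (1 + g) ^ n - β ≤ kap j
        rw [sub_le_iff_le_add, e2, hβ, ← add_div]
        calc (κ' + β) * (1 + g) ^ n ≤ (κ' + β) * Real.exp (8.696 / (18.9 + (j : ℝ))) :=
              mul_le_mul_of_nonneg_left hpow (by linarith)
          _ = ((3 / ((j : ℝ) + 11) + 0.26882) * Real.exp (8.696 / (18.9 + (j : ℝ)))) / a := by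
              rw [e1]
              ring
          _ ≤ (6 / ((j : ℝ) + 10) + 0.26882) / a := by
              exact div_le_div_of_nonneg_right hk ha0.le
      have hkap : kap j ≤ 6 / 10 / a := by
        unfold kap
        rw [← ha, div_div]
        refine div_le_div_of_nonneg_left (by norm_num) (by positivity) ?_
        have : (0 : ℝ) ≤ j := Nat.cast_nonneg j
        nlinarith
      have hP := h6 E a (2 * a) n (fun k Q => Q < nj J → QB Q (Kk k))
        (by
          intro Q' hR' hlt'
          refine (ih' Q' hR' hlt').mono ?_
          have : Kk 0 = κ' := by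
            show (κ' + β) * (1 + g) ^ 0 - β = κ'
            rw [pow_zero]
            ring
          rw [this])
        le_rfl
        (by
          intro k hk Q' p γ hp hap _ hcop hQ' hprev hlt'
          have hpos : 0 < p ^ γ := pow_pos hp.pos γ
          have hlt'' : Q' < nj J := lt_of_le_of_lt (Nat.le_mul_of_pos_left Q' hpos) hlt'
          have hb := QB_step h1 h2 h4 (γ := γ) (by omega) hap hp hcop hQ' hs1 hs2 (hprev hlt'')
            (side_ok ha5 hs hs1 (((hmono' (Nat.le_of_lt hk)).trans hlast).trans hkap))
          refine hb.mono ?_
          rw [← hKk k]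
          have h9 := incK_le (K := Kk k) ha5 hs (hKk0 k)
          rw [← hg] at h9
          have h10 : 1.1688 / (a : ℝ) ^ 2 ≤ β * g := by
            rw [hβ, hg, div_mul_div_comm, ← pow_two]
            refine div_le_div_of_nonneg_right (by norm_num) (by positivity)
          linarith)
        (by
          intro k _ Q' hprev hlt'
          exact (hprev hlt').mono (hmono k))
        Q hR hlt
      exact hP.mono hlast
  obtain ⟨J, hJ⟩ : ∃ J, Q < nj J := by
    refine ⟨Q, ?_⟩
    unfold nj
    have : Q < 2 ^ Q := Nat.lt_two_pow_self
    omega
  have h := main J J le_rfl Q (by rw [Nat.sub_self]; simpa [nj] using hQ) hJ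
  rw [Nat.sub_self] at h
  have h' : QB Q ((K0 : ℝ) / SC) := by
    refine h.mono ?_
    unfold kap nj
    norm_num [K0, SC]
  exact h'

end OddCov

end

section

/-!
# Terminal steps on states (P2, P3, P4)
-/

namespace OddCov

open Finset

theorem stmtFin9 : StmtFin9 := by
  intro γ Q w K r hQ hc hγ ⟨Fh, hconv, hgood, hw, hK⟩ hnum
  refine stmtThreeFive γ Q Fh r hQ hc hγ hgood ?_
  have g1 := stmtGrowth 5 γ 0 0 Fh w K 2 (by norm_num) hconv hw hK (by norm_num) (by norm_num)
  have g2 := stmtGrowth 5 γ 1 0 Fh w K (4 / 3) (by norm_num) hconv hw hK (by norm_num)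
    (by norm_num)
  norm_num at g1 g2
  nlinarith [g1, g2, hnum]

theorem stmtFin5 (h3 : StmtGrowth3) : StmtFin5 := by
  intro γ Q w K r hQ hc hγ ⟨Fh, hconv, hgood, hw, hK⟩ hnum
  refine noFive_all γ Q Fh r hQ hc hγ hgood ?_
  exact lt_of_le_of_lt (h3 γ Fh w K hconv hw hK) hnum

theorem stmtUse : StmtUse := by
  intro Q S r hQ hS ⟨x, hx⟩
  refine ⟨x, fun m hm => ?_⟩
  have h := hS m hm
  refine hx m ?_ (r m) (by simp)
  rw [Finset.mem_erase, Nat.mem_divisors]
  exact ⟨by omega, h.2, hQ.ne'⟩

end OddCov

end

section

/-!
# Kernel run, part 2 (blocks 105 to 209)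
-/

set_option maxRecDepth 100000

namespace OddCov

/-- blocks of part 2 -/
def seg2 : List (ℕ × ℕ × ℕ) := (blocks.drop 105).take 105

/-- table after part 2 -/
def VC2 : List (List ℕ) := [
   [801200162, 7219810163, 65229595234, 595114058599, 5804950136277, 102644960007191,
    5733253063714455, 80763732654432500, 547269461876384506, 3103892723584462610,
    18368305339443807591, 175180224486029924597, 3133096581135819183790, 43914253421765615000107],
   [3206796240, 28934292394, 262572867124, 2455327724517, 30664909763057, 1266542146901988,
    35126586014640809, 280597426743311471, 1636774034577882541, 9544225818070889266,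
    66971404832497840480, 926604019518133936815, 19539165150478875828491],
   [12843307692, 116198383029, 1067128593902, 11085615122863, 282047461115021, 13251098991220220,
    138185067894912618, 868872911754181206, 4846944260066613796, 33112374477349448394,
    300227982584982041975, 5547728777067259536371],
   [51505505888, 469010088551, 4500666631862, 70578516258557, 3860699090386045, 64077356879350892,
    452144973110693333, 2586488858026867495, 15162600276655724587, 140697985142800747334,
    1625680731323213898205, 34707367116278637644127],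
   [207158956000, 1923959532835, 22404399424447, 791747075154892, 26954342617014451,
    229337972163832156, 1363397335352666300, 7912010968214598105, 54469728924536535668,
    736137441877136251364, 9827706910460878295120],
   [839789516739, 8462456738417, 184315895174903, 9578706944916703, 111383184301440472,
    718261203664156717, 4037933371312604760, 27093219408163892377, 240577157094449035285,
    4388194933411678513497, 61663190334743312738822],
   [3504087962776, 49619941803372, 2502383352467547, 50448465460178834, 372671196022029906,
    2128398803363434977, 12535023477510412902, 113271332656793317856, 1290931709133414935928,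
    27431693708404802286345],
   [16639269111637, 520881255974263, 20405976432701954, 186954139075206772, 1134665648272277958,
    6314163642689607489, 44382631140258500360, 585804159802549469209, 7775481522976544096121],
   [122303911986485, 6751919492329995, 89258993841255603, 595110585050739982, 3364555491356884287,
    20005458019039258996, 193026528515196153716, 3474026633859970219727, 48733046127491759174266],
   [1571256736322009, 39344929212278226, 306323784085577250, 1774260425646897085,
    10373009767755139556, 73425913547431061013, 1025678884951920583545, 21682038752536157469254],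
   [15188433654477115, 151772429752365112, 943296119898160316, 5255695237647402368,
    36204659105334880724, 331273432018405109327, 6152779965612907063058],
   [71065692713209101, 492137817983596584, 2803936333877293012, 16502333631742692193,
    154935446067586121323, 1800579199808586429940, 38515336246512181587670],
   [251004302365609764, 1478350905570537288, 8595797050702593589, 59670773169479763744,
    814612769785694575750, 10901419490225758246510],
   [783112031368962123, 4377530222138586014, 29602631613486220134, 265308753647822559711,
    4866370633347006423159, 68430801312815596673978],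
   [2336287737899177898, 13633906213823212403, 124655283623963933912, 1429488906638638781986,
    30440928756517383863470],
   [7129303371567076333, 48581519456705066813, 648053276874065250145, 8624420048514109847501],
   [24243344306294716122, 212746989944441933831, 3852226575088561537216, 54080920061806852577526],
   [100437295610265923634, 1135481345695244659410, 24060123120451418582157],
   [515917009905255285321, 6824055568381579140653],
   [3050091508947916565872, 42741373111846427062000],
   [19017586133253332067016]]

def KC2 : ℕ := 26879820978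

theorem run2 : runBlocks seg2 VC1 KC1 = some (VC2, KC2) := by
  decide +kernel

end OddCov

end

section

/-!
# Kernel run, part 3 (blocks 210 to 315)
-/

set_option maxRecDepth 100000

namespace OddCov

/-- blocks of part 3 -/
def seg3 : List (ℕ × ℕ × ℕ) := (blocks.drop 210).take 106

/-- table after part 3 -/
def V23 : List (List ℕ) := [
   [24283908141, 1690359550250, 112781345826215, 1840153443639848, 12524582803541680,
    65403487196742847, 317076427625344378, 1752772172501884679, 13164579189658952774,
    181891238521881990383, 2459380333701043704323, 45461904179359905070945,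
    752514223003624454508456, 9002234199922559539767813],
   [333927370453, 24936744956739, 777781114276255, 6456752839201055, 36177849240666217,
    176239359854017814, 892048947093675240, 6276627342076696409, 62490458213223851431,
    1033883263552046747836, 14208815761004015828568, 252784129613712541324730,
    4001024545665009528889782],
   [5195677050101, 276748935197887, 3173084447392535, 19623393344037393, 99087153308157943,
    476932690532865085, 2811510969570258398, 27771403712762185866, 338482993408703034814,
    5989252491061182183685, 80883738717028891927672, 1364403504354796557486412],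
   [68576376382432, 1451657221129382, 10375029547029882, 55158259723467905, 267227210303509443,
    1366030483460828888, 10717326886169166088, 144803085122178901713, 1938673268962589864582,
    34379899933977308925621, 449338537413161838059644, 7112890445368296622285540],
   [589303017401166, 5283834916337149, 30367831686808639, 149221224814662555, 742635326176379531,
    4469324746121987887, 50091643119121279684, 819092127006852747354, 11202596431430316283439,
    193184498006548261758881, 2425539345787907718820377],
   [2550286408313677, 16359693945518623, 83759194858966568, 403237062994662224,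
    2279284968897934181, 17860882717403842805, 268989879483987903865, 4736385573396418429900,
    63840121436262226010599, 1057004561651517411192838, 12645082390405767173770712],
   [8566574235145282, 46469856682641491, 226295881541512608, 1145064876223200362,
    8379353811474041151, 86648597019182237267, 1534927107387425470320, 27171805033176430435376,
    355049382092888971368087, 5620074060412886927843179],
   [25445157460980118, 126331209674851997, 626252146419084359, 3683936558979750150,
    38008789699079942133, 474473916332798804856, 8857304440405328236301, 152650640908228376743796,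
    1916495366851454469441505],
   [70739476924835409, 341327679880073769, 1899134346726198929, 14427063790574425670,
    201228378474397630251, 2727512416360234132489, 50451494404059949060568,
    835177446497496964642709, 9991192861098142953081358],
   [191607386652389506, 962840949674709213, 6855130960870717259, 68940097287535823434,
    1146141085911338413927, 15765954759004009621452, 280547447892277228582370,
    4440563425497058598286908],
   [528483394065289739, 3053319652831369322, 30566319016475683200, 374774768564103258958,
    6644717588910159155798, 89763049228266424381253, 1514285555647151779155833],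
   [1584969475887783374, 11735737287734125071, 160149032818750353513, 2149847648391559558384,
    38152541607691128303221, 498692523786818288144210, 7894290635619923416573775],
   [5619639816002643938, 55233242717302480905, 907917543996485121526, 12429923066654651753232,
    214401032084269857696203, 2691992713636351524338219],
   [24620458571928383460, 297759400587033646505, 5254512431389253800634, 70847788017142184890627,
    1173117253183650780153505, 14034235267142267554466838],
   [127568995880948150326, 1701965372197662469634, 30153075030437274938549,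
    394046020382992074162849, 6237477350325222303141201],
   [719496758503633586093, 9827377790501104542019, 169414927931832578347838,
    2127027493218675560123922],
   [4155768726223156071000, 55988965906561429160986, 926921531059365652622718,
    11088796028014144086218924],
   [23831596238966111671123, 311360402959182709209914, 4928388843115529902387326],
   [133869026350581502650388, 1680632878466185231241063],
   [732394933330223199119250, 8761533438659837260255472],
   [3894046002575370055411654]]

def K23 : ℕ := 4529083292004

theorem run3 : runBlocks seg3 VC2 KC2 = some (V23, K23) := by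
  decide +kernel

end OddCov

end

section

/-!
# The final part of the run (19, 17, 13, 11, 7) and the state at 7
-/

set_option maxRecDepth 100000

namespace OddCov

def seg4 : List (ℕ × ℕ × ℕ) := blocks.drop 316

def V7 : List (List ℕ) := [
   [3970089056827, 160373372248141, 1506897146620819, 8800265742497311, 43313178259472976,
    206791840246505270, 1207673942219219623, 11045488467870295156, 140111399647732024813,
    2211462908587669580982, 32083133780299722876442, 510965564958695113104782,
    7032357947059069189218698, 78519730678473957782234281],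
   [42685871614274, 720389904796049, 4722991390085490, 24306580711939230, 115500432914250947,
    592791328398363211, 4578144092549320264, 55883862135517262002, 785350657313982156174,
    12447932090067286730837, 173787115545851282063448, 2630274785896249956394563,
    34897693466172336943664737],
   [307087152096542, 2457256823701488, 13498457029934944, 65031078917177689, 317142596797845402,
    1951544746819365605, 21133798908676895872, 308086200247204217038, 4440011076608578357390,
    68706423914177982941780, 915270774939438525438666, 13098320565959873584424100],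
   [1221453472950407, 7365887471087929, 36682129699119347, 174354464650183487, 957687819242261843,
    7831063904183066794, 111370313490570158864, 1743652484548761433629, 24778106490613679544723,
    369876565248250752091849, 4675974085863923223573442, 62040296762853871389775424],
   [3921187699173118, 20527778103641032, 97942638145175533, 492681168763608313,
    3438573166256286150, 37730971325027907772, 621878064027819359730, 9819391496218382868118,
    135171757947767345425904, 1939055759928416580768833, 23285826502054394088242031],
   [11347256212611979, 55156236369760662, 267648254810400624, 1580501443731439704,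
    15149394344455549762, 202945744679333384740, 3510836421817783609842, 54247732204228262303249,
    717708761694783970722581, 9878069521468140652552202, 110293797970847167205819066],
   [31048433925074911, 147804808282238989, 797812462042898523, 6157355317241468254,
    77916239153434821981, 1139192149838398045830, 19583201708365478484038, 292259077617442397665176,
    3694617563711618354331698, 49019507719956952650136595],
   [83093227292542913, 414743395063043598, 2808509214523286537, 29065785864889614948,
    432589068575631314984, 6417448775959334342986, 106811573313936608393039,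
    1532108013762391366511171, 18398700474539108635266571],
   [226345046032597074, 1310910900439669457, 12144834936807735561, 155095893219690250904,
    2453144907327215177410, 35604197194078724222684, 567092474188498539359970,
    7804910430126629509785609, 87145735567423750621442788],
   [667512352280290889, 5011072857786801581, 61767250193297856371, 870772043394859645870,
    13813063669714082708526, 192873072826695085660909, 2919222426250592245712523,
    38731475314321363755240862],
   [2308659198086019757, 23294570903767029016, 341383592111472534018, 4926088289542446820437,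
    76250297447034022230691, 1015811536678481733127285, 14537265024504440896945464],
   [9804785014949001331, 123249537051578755097, 1934096907956346080053, 27497058290569453533727,
    410504183068520133728083, 5189654993846113773152779, 68855906407334797581118005],
   [49272637176998565489, 689446810445425493930, 10896039482325128793182, 150016180829969103480964,
    2152068055215577580897743, 25843945857377779755600135],
   [270741288278090785245, 3895040345801181118449, 60203676679793085675566,
    796546776729492692772085, 10963244507635329897643315, 122410433965471614766259979],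
   [1530216373720132101169, 21731818159961617922504, 324360512695776444842601,
    4100490020185769296645362, 54404681522017802752370558],
   [8613064746616918227535, 118541010765846401502903, 1700414816246734332346173,
    20419931805125573228211868],
   [47574968972305226918192, 629385001543597922935411, 8662333503052731160110255,
    96719374883672689961956201],
   [256295062798366653252798, 3239912771706667954913198, 42986428120560384763700357],
   [1343551266206722919599882, 16134288397223589319548599],
   [6844327861061920294202631, 76420264286403363564441279],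
   [33964596814522554495094546]]

def K7 : ℕ := 36873061182888

theorem run4 : runBlocks seg4 V23 K23 = some (V7, K7) := by
  decide +kernel

theorem blocks_split : blocks = seg1 ++ (seg2 ++ (seg3 ++ seg4)) := by
  decide +kernel

theorem lastA_seg1 : lastA 500000 seg1 = 22691 := by decide +kernel
theorem lastA_seg2 : lastA 22691 seg2 = 1151 := by decide +kernel
theorem lastA_seg3 : lastA 1151 seg3 = 23 := by decide +kernel
theorem lastA_seg4 : lastA 23 seg4 = 7 := by decide +kernel

/-- the state at 23, for every set of excluded primes -/
theorem st23 (hT : StmtTail) (hR : StmtRunSound) (E : Finset ℕ) (hC : BlocksOK E 500000 blocks) :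
    ∀ Q, Rough E 23 Q → St Q (wT V23 K23) ((K23 : ℝ) / SC) := by
  rw [blocks_split, blocksOK_append, blocksOK_append, blocksOK_append, lastA_seg1, lastA_seg2,
    lastA_seg3] at hC
  obtain ⟨h1, h2, h3, -⟩ := hC
  have s1 := hR E seg1 500000 K0 KC1 V0 VC1 run1 (st_init hT E) h1
  rw [lastA_seg1] at s1
  have s2 := hR E seg2 _ KC1 KC2 VC1 VC2 run2 s1 h2
  rw [lastA_seg2] at s2
  have s3 := hR E seg3 _ KC2 K23 VC2 V23 run3 s2 h3
  rw [lastA_seg3] at s3
  exact s3

/-- the state at 7 -/
theorem st7 (hT : StmtTail) (hR : StmtRunSound) (hC : BlocksOK ∅ 500000 blocks) :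
    ∀ Q, Rough ∅ 7 Q → St Q (wT V7 K7) ((K7 : ℝ) / SC) := by
  have h23 := st23 hT hR ∅ hC
  rw [blocks_split, blocksOK_append, blocksOK_append, blocksOK_append, lastA_seg1, lastA_seg2,
    lastA_seg3] at hC
  obtain ⟨-, -, -, h4⟩ := hC
  have s4 := hR ∅ seg4 23 K23 K7 V23 V7 run4 h23 h4
  rwa [lastA_seg4] at s4

theorem w7_0_0 : wT V7 K7 0 0 = 3970089056827 / 100000000000000 := by
  rw [wT_of K7 (v := 3970089056827) (by decide +kernel)]; norm_num [SC]

theorem w7_1_0 : wT V7 K7 1 0 = 42685871614274 / 100000000000000 := by
  rw [wT_of K7 (v := 42685871614274) (by decide +kernel)]; norm_num [SC]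

theorem w7_0_1 : wT V7 K7 0 1 = 160373372248141 / 100000000000000 := by
  rw [wT_of K7 (v := 160373372248141) (by decide +kernel)]; norm_num [SC]

theorem w7_2_0 : wT V7 K7 2 0 = 307087152096542 / 100000000000000 := by
  rw [wT_of K7 (v := 307087152096542) (by decide +kernel)]; norm_num [SC]

theorem w7_1_1 : wT V7 K7 1 1 = 720389904796049 / 100000000000000 := by
  rw [wT_of K7 (v := 720389904796049) (by decide +kernel)]; norm_num [SC]

theorem w7_3_0 : wT V7 K7 3 0 = 1221453472950407 / 100000000000000 := by
  rw [wT_of K7 (v := 1221453472950407) (by decide +kernel)]; norm_num [SC]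

theorem w7_0_2 : wT V7 K7 0 2 = 1506897146620819 / 100000000000000 := by
  rw [wT_of K7 (v := 1506897146620819) (by decide +kernel)]; norm_num [SC]

theorem w7_2_1 : wT V7 K7 2 1 = 2457256823701488 / 100000000000000 := by
  rw [wT_of K7 (v := 2457256823701488) (by decide +kernel)]; norm_num [SC]

theorem w7_1_2 : wT V7 K7 1 2 = 4722991390085490 / 100000000000000 := by
  rw [wT_of K7 (v := 4722991390085490) (by decide +kernel)]; norm_num [SC]

theorem k7 : (K7 : ℝ) / SC = 36873061182888 / 100000000000000 := by
  norm_num [K7, SC]

theorem num9 : 0.4 * (wT V7 K7 0 0 + 2 * Lw 5 (wT V7 K7) ((K7 : ℝ) / SC) 0 0) +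
    0.6 * (wT V7 K7 1 0 + 4 / 3 * Lw 5 (wT V7 K7) ((K7 : ℝ) / SC) 1 0) < 1 := by
  simp only [Lw, zero_add, Nat.reduceAdd]
  rw [w7_0_0, w7_1_0, w7_0_1, w7_2_0, w7_1_1, w7_3_0, w7_2_1, k7]
  norm_num

theorem num5 : wT V7 K7 0 0 + 2 * Lw3 (wT V7 K7) ((K7 : ℝ) / SC) < 1 := by
  simp only [Lw3]
  rw [w7_0_0, w7_1_0, w7_0_1, w7_2_0, w7_1_1, w7_3_0, w7_0_2, w7_2_1, k7]
  norm_num

end OddCov

end
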