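import Pool.Agent.Work.MP_b5285d_nt.StepMAux
import Pool.Agent.Work.MP_b5285d_nt.Bd.B01
import Pool.Agent.Work.MP_b5285d_nt.Bd.B02
import Pool.Agent.Work.MP_b5285d_nt.Bd.B03
import Pool.Agent.Work.MP_b5285d_nt.FinalA

/-! Bundle of small proof modules (one section per former module). -/

section

/-!
# MP_b5285d_nt: the fibre step with a general weight `M`

Generalisation of `Step.lean` (helper29): the weights of the pure classes are `M p^-i` with
`M * ∑_{i ≤ γ} p^-i ≤ 1` (for `γ = 1` one may take `M = p`).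
-/

namespace OddCov

open Finset

namespace StepMPf

open StepPf StepMAux

/-- weights of the pure classes -/
noncomputable def wtM (M : ℝ) (p i : ℕ) : ℝ := M * ((p : ℝ)⁻¹) ^ i

theorem wtM_nonneg {M : ℝ} (hM : 0 ≤ M) (p i : ℕ) : 0 ≤ wtM M p i :=
  mul_nonneg hM (by positivity)

open Classical in
/-- the new potential -/
noncomputable def potM (M : ℝ) (p γ s0 : ℕ) (f : ℕ → ℕ → ℝ) (X : ℕ → ℝ) (m : ℕ) : ℕ → ℝ :=
  if m / p ^ (m.factorization p) = 1 then fun t => wtM M p (m.factorization p) * hpM M s0 X t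
  else if m.factorization p = 0 then
    fun t => f (m / p ^ (m.factorization p)) t +
      vs (rhoM M s0) (xs p γ 0 (f (m / p ^ (m.factorization p)))) t
  else vs (rhoM M s0) (xs p γ (m.factorization p) (f (m / p ^ (m.factorization p))))

theorem potM_pow {M : ℝ} {p γ s0 : ℕ} (hp' : p.Prime) (f : ℕ → ℕ → ℝ) (X : ℕ → ℝ) (i : ℕ) (t : ℕ) :
    potM M p γ s0 f X (p ^ i) t = wtM M p i * hpM M s0 X t := by
  have h1 : (p ^ i).factorization p = i := by
    rw [hp'.factorization_pow, Finsupp.single_eq_same]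
  rw [potM, h1, Nat.div_self (pow_pos hp'.pos i), if_pos rfl]

theorem potM_mul {M : ℝ} {p γ s0 : ℕ} (hp' : p.Prime) (f : ℕ → ℕ → ℝ) (X : ℕ → ℝ) {m : ℕ}
    (hm : m ≠ 0) (hm1 : m ≠ 1) (hpm : ¬ p ∣ m) (i t : ℕ) :
    potM M p γ s0 f X (p ^ i * m) t =
      (if i = 0 then f m t else 0) + vs (rhoM M s0) (xs p γ i (f m)) t := by
  rw [potM, fact_mul hp' hm hpm, Nat.mul_div_cancel_left m (pow_pos hp'.pos i), if_neg hm1]
  by_cases hi : i = 0
  · rw [if_pos hi, if_pos hi, hi]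
  · rw [if_neg hi, if_neg hi, zero_add]

theorem sum_potM {M : ℝ} {p γ s0 : ℕ} (hp' : p.Prime) (f : ℕ → ℕ → ℝ) (X : ℕ → ℝ) {m : ℕ}
    (hm : m ≠ 0) (hm1 : m ≠ 1) (hpm : ¬ p ∣ m) (n : ℕ → ℕ) :
    ∑ i ∈ range (γ + 1), potM M p γ s0 f X (p ^ i * m) (n i) =
      f m (n 0) + ∑ i ∈ range (γ + 1), vs (rhoM M s0) (xs p γ i (f m)) (n i) := by
  have h1 : ∀ i ∈ range (γ + 1), potM M p γ s0 f X (p ^ i * m) (n i) =
      (if i = 0 then f m (n i) else 0) + vs (rhoM M s0) (xs p γ i (f m)) (n i) :=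
    fun i _ => potM_mul hp' f X hm hm1 hpm i (n i)
  rw [Finset.sum_congr rfl h1, Finset.sum_add_distrib]
  congr 1
  rw [Finset.sum_ite_eq' (range (γ + 1)) 0 (fun i => f m (n i)), if_pos (by simp)]

end StepMPf

open StepPf StepMPf StepMAux in
/-- the fibre step with a general weight -/
theorem stmtStepM : StmtStepM := by
  classical
  have hA3 : StmtSupport := stmtSupport
  have hB1 : StmtMeasure := stmtMeasure
  have hB2 : StmtClassCard := stmtClassCard
  have hB3 : StmtFibre := stmtFibre stmtChord stmtClassCard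
  have hB4 : StmtShare := stmtShare stmtJensen
  have hC1 : StmtXsMono := stmtXsMono
  have hC2 : StmtXsSum := stmtXsSum
  have hC3 : StmtConvZero := stmtConvZero stmtXsMono
  have hC4 : StmtConvPos := stmtConvPos
  have hC5 : StmtMK := stmtMK
  have hD1 : StmtDivSum := stmtDivSum
  have hD2 : StmtLift := stmtLift
  intro p γ s0 Q M F' F hp' hcop hQ hs0 hMp hMw hgood hhyp hF
  obtain ⟨f, hfc, hft, hfg⟩ := hgood
  have hp2 : 2 ≤ p := hp'.two_le
  have hp1 : 1 ≤ p := by omega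
  have hs0R : (0 : ℝ) ≤ s0 := Nat.cast_nonneg _
  have hM0 : 0 < M := by linarith
  have hp0 : (0 : ℝ) < p := by exact_mod_cast hp'.pos
  have hrm := rho_mono hs0
  have hr1 := one_le_rho hs0
  have hrp := rho_le hs0 hMp
  have hrint := rho_interp hs0
  have hr0 : ∀ t, 0 ≤ rhoM M s0 t := fun t => zero_le_one.trans (hr1 t)
  rcases Nat.eq_zero_or_pos γ with rfl | hγ
  · rw [pow_zero, one_mul]
    refine ⟨f, hfc, fun t => (hft t).trans ?_, hfg⟩
    have h1 := hF t
    have h2 : Xop p 0 F' t = 0 := by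
      simp [Xop]
    rw [h2, mul_zero, add_zero] at h1
    linarith [StepMAux.hin_nonneg hs0 t]
  set D := Q.divisors.erase 1 with hD
  have hDm : ∀ m ∈ D, m ≠ 0 ∧ m ≠ 1 ∧ ¬ p ∣ m := by
    intro m hm
    rw [hD, Finset.mem_erase, Nat.mem_divisors] at hm
    refine ⟨?_, hm.1, ?_⟩
    · rintro rfl
      exact hQ.ne' (Nat.eq_zero_of_zero_dvd hm.2.1)
    · intro hpm
      have := Nat.Coprime.eq_one_of_dvd hcop (hpm.trans hm.2.1)
      omega
  let Fh : ℕ → ℝ := fun t => ∑ m ∈ D, f m t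
  let X : ℕ → ℝ := fun t => ∑ m ∈ D, ∑ i ∈ range (γ + 1), xs p γ i (f m) t
  have hXop : ∀ t, X t = Xop p γ Fh t := by
    intro t
    show ∑ m ∈ D, ∑ i ∈ range (γ + 1), xs p γ i (f m) t = Xop p γ (fun t => ∑ m ∈ D, f m t) t
    rw [Xop_sum]
    exact Finset.sum_congr rfl fun m _ => hC2 p γ (f m) t hp2 hγ
  have hXmono : Monotone X := by
    intro a b hab
    exact Finset.sum_le_sum fun m _ => Finset.sum_le_sum fun i _ =>
      (hC1 p γ i (f m) hp2 hγ (hfc m)).1 hab
  have hX0 : X 0 = 0 :=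
    Finset.sum_eq_zero fun m _ => Finset.sum_eq_zero fun i _ =>
      (hC1 p γ i (f m) hp2 hγ (hfc m)).2
  have hFh0 : ∀ t, 0 ≤ Fh t := fun t => Finset.sum_nonneg fun m _ => Conv.nonneg (hfc m) t
  have hXs : X (s0 - 1) ≤ (M - s0 + 1) / M := by
    refine le_trans ?_ hhyp
    rw [hXop]
    refine Finset.sum_le_sum fun j _ => ?_
    refine mul_le_mul_of_nonneg_left ?_ (by positivity)
    have h1 := hFh0 (j * (s0 - 1))
    have h2 := hft ((j + 1) * (s0 - 1))
    have h3 : Fh ((j + 1) * (s0 - 1)) ≤ F' ((j + 1) * (s0 - 1)) := h2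
    linarith
  have hhp : Conv (hpM M s0 X) := hp_conv hs0 X hXmono hX0 hXs
  have hw0 : ∀ i, 0 ≤ wtM M p i := wtM_nonneg hM0.le p
  have hwle : ∑ i ∈ Icc 1 γ, wtM M p i ≤ 1 := by
    unfold wtM
    rw [← Finset.mul_sum]
    exact hMw
  refine ⟨potM M p γ s0 f X, ?_, ?_, ?_⟩
  · -- convexity
    intro m
    unfold potM
    split_ifs with h1 h2
    · exact Conv.smul hhp (hw0 _)
    · exact hC3 p γ _ (rhoM M s0) hp2 hγ (hfc _) hrm hr0 hrp
    · exact hC4 p γ _ _ (rhoM M s0) hp2 hγ (Nat.one_le_iff_ne_zero.2 h2) (hfc _) hrm hr0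
  · -- the total
    intro t
    refine le_trans ?_ (hF t)
    rw [hD1 p γ Q (fun m => potM M p γ s0 f X m t) hp' hcop hQ]
    have e1 : ∑ i ∈ Icc 1 γ, potM M p γ s0 f X (p ^ i) t ≤ hpM M s0 X t := by
      have : ∀ i ∈ Icc 1 γ, potM M p γ s0 f X (p ^ i) t = wtM M p i * hpM M s0 X t :=
        fun i _ => potM_pow hp' f X i t
      rw [Finset.sum_congr rfl this, ← Finset.sum_mul]
      exact mul_le_of_le_one_left (Conv.nonneg hhp t) hwle
    have e2 : ∑ m ∈ Q.divisors.erase 1, ∑ i ∈ range (γ + 1), potM M p γ s0 f X (p ^ i * m) t =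
        Fh t + vs (rhoM M s0) X t := by
      have : ∀ m ∈ D, ∑ i ∈ range (γ + 1), potM M p γ s0 f X (p ^ i * m) t =
          f m t + ∑ i ∈ range (γ + 1), vs (rhoM M s0) (xs p γ i (f m)) t := fun m hm =>
        sum_potM hp' f X (hDm m hm).1 (hDm m hm).2.1 (hDm m hm).2.2 (fun _ => t)
      rw [Finset.sum_congr rfl this, Finset.sum_add_distrib]
      congr 1
      show _ = vs (rhoM M s0) (fun t => ∑ m ∈ D, ∑ i ∈ range (γ + 1), xs p γ i (f m) t) t
      rw [vs_sum]
      exact Finset.sum_congr rfl fun m _ => (vs_sum _ _ _ _).symm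
    have e3 := total M s0 X t hX0
    have e4 := step_mono p γ hp1 F' Fh hft t (rhoM M s0 t) (hr0 t) (hrp t)
    rw [← hXop] at e4
    show ∑ i ∈ Icc 1 γ, potM M p γ s0 f X (p ^ i) t +
      ∑ m ∈ Q.divisors.erase 1, ∑ i ∈ range (γ + 1), potM M p γ s0 f X (p ^ i * m) t ≤ _
    rw [e2]
    linarith
  · -- the covering part
    intro C hC
    let n : ℕ → ℕ := fun i => Multiset.card (C (p ^ i))
    set s : ℝ := ∑ i ∈ Icc 1 γ, wtM M p i * n i with hs
    have hs_nonneg : 0 ≤ s := Finset.sum_nonneg fun i _ => mul_nonneg (hw0 i) (Nat.cast_nonneg _)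
    set k := ⌊s⌋₊ with hk
    set θ : ℝ := s - k with hθ
    have hθ0 : 0 ≤ θ := sub_nonneg.2 (Nat.floor_le hs_nonneg)
    have hθ1 : θ ≤ 1 := by
      have := Nat.lt_floor_add_one s
      rw [hθ]
      linarith
    have hsk : s = k + θ := by rw [hθ]; ring
    set m0 : ℝ := min s s0 with hm0
    have hm00 : 0 ≤ m0 := le_min hs_nonneg hs0R
    have hm0s : m0 ≤ s0 := min_le_right _ _
    have hden0 : 0 < M - m0 := by linarith
    set R : ℝ := M / (M - m0) with hR
    have hR1 : 1 ≤ R := by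
      rw [hR, le_div_iff₀ hden0]
      linarith
    have hR0 : 0 ≤ R := by linarith
    have hRp : R ≤ p := by
      rw [hR, div_le_iff₀ hden0]
      nlinarith
    have hRint : R ≤ (1 - θ) * rhoM M s0 k + θ * rhoM M s0 (k + 1) := by
      have := hrint k θ hθ0 hθ1
      rw [← hsk, ← hm0] at this
      exact this
    set α : ℝ := s / M with hα
    -- the covered part of the fibre
    let B : Finset ℕ := (range (p ^ γ)).filter fun y : ℕ =>
      ∃ i ∈ Icc 1 γ, ∃ c ∈ C (p ^ i), c ≡ (y : ℤ) [ZMOD ((p ^ i : ℕ) : ℤ)]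
    have hBcard : (B.card : ℝ) ≤ α * ((p ^ γ : ℕ) : ℝ) := by
      have h1 : B.card ≤ ∑ y ∈ range (p ^ γ), ∑ i ∈ Icc 1 γ,
          Multiset.card (pick (p ^ i) (y : ℤ) (C (p ^ i))) := by
        rw [Finset.card_filter]
        refine Finset.sum_le_sum fun y _ => ?_
        split_ifs with h
        · obtain ⟨i, hi, c, hc, hcy⟩ := h
          refine le_trans ?_ (Finset.single_le_sum
            (f := fun i => Multiset.card (pick (p ^ i) (y : ℤ) (C (p ^ i))))
            (fun _ _ => Nat.zero_le _) hi)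
          show 1 ≤ Multiset.card (pick (p ^ i) (y : ℤ) (C (p ^ i)))
          rw [Nat.one_le_iff_ne_zero, Ne, Multiset.card_eq_zero]
          intro h0
          have : c ∈ pick (p ^ i) (y : ℤ) (C (p ^ i)) := Multiset.mem_filter.2 ⟨hc, hcy⟩
          rw [h0] at this
          exact Multiset.notMem_zero c this
        · exact Nat.zero_le _
      rw [Finset.sum_comm] at h1
      have h2 : ∑ i ∈ Icc 1 γ, ∑ y ∈ range (p ^ γ),
          Multiset.card (pick (p ^ i) (y : ℤ) (C (p ^ i))) =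
          ∑ i ∈ Icc 1 γ, n i * p ^ (γ - i) :=
        Finset.sum_congr rfl fun i hi =>
          pick_sum hB2 hp'.pos (Finset.mem_Icc.1 hi).2 (C (p ^ i))
      rw [h2] at h1
      have h3 : (B.card : ℝ) ≤ ∑ i ∈ Icc 1 γ, (n i : ℝ) * (p : ℝ) ^ (γ - i) := by
        exact_mod_cast h1
      refine h3.trans (le_of_eq ?_)
      rw [hα, hs, Finset.sum_div, Finset.sum_mul]
      refine Finset.sum_congr rfl fun i hi => ?_
      have hi' := (Finset.mem_Icc.1 hi).2
      rw [wtM, Nat.cast_pow]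
      have e : (p : ℝ) ^ γ = (p : ℝ) ^ (γ - i) * (p : ℝ) ^ i := by
        rw [← pow_add, Nat.sub_add_cancel hi']
      rw [e, inv_pow]
      have hpi : (p : ℝ) ^ i ≠ 0 := pow_ne_zero _ hp0.ne'
      field_simp
    have hNpos : 0 < p ^ γ := pow_pos hp'.pos γ
    obtain ⟨μ, hμ0, hμ1, hμR, hμB⟩ := hB1 (p ^ γ) B α R hNpos (Finset.filter_subset _ _) hBcard hR1
    rw [Nat.cast_pow] at hμR
    -- the measure of the covered part
    have hμB' : ∑ y ∈ B, μ y ≤ max 0 (((k : ℝ) + θ - s0) / (M - s0)) := by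
      refine hμB.trans ?_
      rw [← hsk]
      have e1 : 1 - (1 - α) * R = (s - m0) / (M - m0) := by
        rw [hα, hR]
        field_simp
        ring
      rw [e1]
      rcases le_total s s0 with h | h
      · have : m0 = s := min_eq_left h
        rw [this, sub_self, zero_div, max_self]
        exact le_max_left _ _
      · have : m0 = s0 := min_eq_right h
        rw [this]
    -- the mean of one potential
    have hE : ∀ m ∈ D, ∑ y ∈ range (p ^ γ), μ y * f m (Multiset.card (fib p γ C (y : ℤ) m)) ≤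
        f m (Multiset.card (C (p ^ 0 * m))) + ∑ i ∈ range (γ + 1),
          (vs (rhoM M s0) (xs p γ i (f m)) (Multiset.card (C (p ^ i * m))) +
            ((1 - θ) * us (rhoM M s0) (xs p γ i (f m)) (min k s0) +
              θ * us (rhoM M s0) (xs p γ i (f m)) (min (k + 1) s0))) := by
      intro m hm
      have h1 := hB3 p γ (f m) (fun i => C (p ^ i * m)) μ R hp2 (hfc m) hμ0 hμ1.le hμR hR0
      rw [hμ1, one_mul] at h1
      have h2 := hB4 p γ (f m) (fun i => Multiset.card (C (p ^ i * m))) R hp2 hγ (hfc m) hR0 hRp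
      refine (h1.trans h2).trans ?_
      refine add_le_add le_rfl ?_
      rw [Finset.mul_sum]
      refine Finset.sum_le_sum fun i _ => ?_
      obtain ⟨hxm, hx0⟩ := hC1 p γ i (f m) hp2 hγ (hfc m)
      rcases Nat.lt_or_ge k s0 with hks | hks
      · have h3 := hC5 (rhoM M s0) (xs p γ i (f m)) k (Multiset.card (C (p ^ i * m))) θ R hrm hxm hx0
          hθ0 hθ1 hRint
        rw [Nat.min_eq_left hks.le, Nat.min_eq_left (Nat.succ_le_of_lt hks)]
        exact h3
      · have hR' : R ≤ (1 - (0 : ℝ)) * rhoM M s0 s0 + 0 * rhoM M s0 (s0 + 1) := by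
          rw [rho_min M s0 k hks, rho_min M s0 (k + 1) (hks.trans (Nat.le_succ k))] at hRint
          have e : (1 - θ) * rhoM M s0 s0 + θ * rhoM M s0 s0 = rhoM M s0 s0 := by ring
          rw [e] at hRint
          simpa using hRint
        have h3 := hC5 (rhoM M s0) (xs p γ i (f m)) s0 (Multiset.card (C (p ^ i * m))) 0 R hrm hxm
          hx0 le_rfl zero_le_one hR'
        rw [Nat.min_eq_right hks, Nat.min_eq_right (hks.trans (Nat.le_succ k))]
        have e : (1 - θ) * us (rhoM M s0) (xs p γ i (f m)) s0 +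
            θ * us (rhoM M s0) (xs p γ i (f m)) s0 = us (rhoM M s0) (xs p γ i (f m)) s0 := by ring
        rw [e]
        simpa using h3
    -- the potential of the pure classes
    have hpure : (1 - θ) * us (rhoM M s0) X (min k s0) + θ * us (rhoM M s0) X (min (k + 1) s0) +
        max 0 (((k : ℝ) + θ - s0) / (M - s0)) ≤ ∑ i ∈ Icc 1 γ, wtM M p i * hpM M s0 X (n i) :=
      (hp_interp hs0 X k θ hθ0 hθ1).trans
        (hA3 (hpM M s0 X) hhp γ (wtM M p) n hw0 hwle k θ hθ0 hθ1 (hs.symm.trans hsk))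
    have hus : ∀ j, ∑ m ∈ D, ∑ i ∈ range (γ + 1), us (rhoM M s0) (xs p γ i (f m)) j =
        us (rhoM M s0) X j := by
      intro j
      show _ = us (rhoM M s0) (fun t => ∑ m ∈ D, ∑ i ∈ range (γ + 1), xs p γ i (f m) t) j
      rw [us_sum]
      exact Finset.sum_congr rfl fun m _ => (us_sum _ _ _ _).symm
    -- the mean of everything
    have hPhi : Phi (p ^ γ * Q) (potM M p γ s0 f X) C =
        ∑ i ∈ Icc 1 γ, wtM M p i * hpM M s0 X (n i) +
        ∑ m ∈ D, (f m (Multiset.card (C (p ^ 0 * m))) +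
          ∑ i ∈ range (γ + 1),
            vs (rhoM M s0) (xs p γ i (f m)) (Multiset.card (C (p ^ i * m)))) := by
      unfold Phi
      rw [hD1 p γ Q (fun m => potM M p γ s0 f X m (Multiset.card (C m))) hp' hcop hQ]
      congr 1
      · exact Finset.sum_congr rfl fun i _ => potM_pow hp' f X i _
      · exact Finset.sum_congr rfl fun m hm =>
          sum_potM hp' f X (hDm m hm).1 (hDm m hm).2.1 (hDm m hm).2.2
            (fun i => Multiset.card (C (p ^ i * m)))
    have hmean : ∑ y ∈ range (p ^ γ), μ y * (Phi Q f (fib p γ C (y : ℤ)) +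
        (if y ∈ B then 1 else 0)) < ∑ y ∈ range (p ^ γ), μ y := by
      rw [hμ1]
      refine lt_of_le_of_lt ?_ hC
      rw [hPhi]
      have e1 : ∑ y ∈ range (p ^ γ), μ y * (Phi Q f (fib p γ C (y : ℤ)) +
          (if y ∈ B then 1 else 0)) =
          (∑ m ∈ D, ∑ y ∈ range (p ^ γ), μ y * f m (Multiset.card (fib p γ C (y : ℤ) m))) +
            ∑ y ∈ B, μ y := by
        simp only [mul_add, Finset.sum_add_distrib]
        congr 1
        · rw [Finset.sum_comm]
          refine Finset.sum_congr rfl fun y _ => ?_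
          unfold Phi
          rw [Finset.mul_sum]
        · simp only [mul_ite, mul_one, mul_zero]
          rw [← Finset.sum_filter]
          refine Finset.sum_congr ?_ fun _ _ => rfl
          ext y
          simp only [B, Finset.mem_filter]
          tauto
      rw [e1]
      have e2 := Finset.sum_le_sum hE
      have e3 : ∑ m ∈ D, (f m (Multiset.card (C (p ^ 0 * m))) + ∑ i ∈ range (γ + 1),
          (vs (rhoM M s0) (xs p γ i (f m)) (Multiset.card (C (p ^ i * m))) +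
            ((1 - θ) * us (rhoM M s0) (xs p γ i (f m)) (min k s0) +
              θ * us (rhoM M s0) (xs p γ i (f m)) (min (k + 1) s0)))) =
          ∑ m ∈ D, (f m (Multiset.card (C (p ^ 0 * m))) +
          ∑ i ∈ range (γ + 1),
            vs (rhoM M s0) (xs p γ i (f m)) (Multiset.card (C (p ^ i * m)))) +
          ((1 - θ) * us (rhoM M s0) X (min k s0) + θ * us (rhoM M s0) X (min (k + 1) s0)) := by
        rw [← hus, ← hus, Finset.mul_sum, Finset.mul_sum, ← Finset.sum_add_distrib,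
          ← Finset.sum_add_distrib]
        refine Finset.sum_congr rfl fun m _ => ?_
        rw [Finset.sum_add_distrib, Finset.sum_add_distrib, Finset.mul_sum, Finset.mul_sum]
        ring
      rw [e3] at e2
      linarith
    obtain ⟨y, hy, hylt⟩ := Finset.exists_lt_of_sum_lt hmean
    have hPhi0 : 0 ≤ Phi Q f (fib p γ C (y : ℤ)) :=
      Finset.sum_nonneg fun m _ => Conv.nonneg (hfc m) _
    have hlt1 : Phi Q f (fib p γ C (y : ℤ)) + (if y ∈ B then (1 : ℝ) else 0) < 1 := by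
      by_contra hc
      have := mul_le_mul_of_nonneg_left (not_lt.1 hc) (hμ0 y)
      rw [mul_one] at this
      exact absurd hylt (not_lt.2 this)
    have hyB : y ∉ B := by
      intro h
      rw [if_pos h] at hlt1
      linarith
    rw [if_neg hyB, add_zero] at hlt1
    obtain ⟨x', hx'⟩ := hfg (fib p γ C (y : ℤ)) hlt1
    refine hD2 p γ Q C (y : ℤ) x' hp' hcop hQ ?_ hx'
    intro i hi c hc hcy
    exact hyB (Finset.mem_filter.2 ⟨hy, i, hi, c, hc, hcy⟩)

end OddCov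

end

section

/-!
# MP_b5285d_nt: the step for a prime with exponent at most one (weight `M = p`)

The state step, the list checker `capStep` and its soundness; the terminal step at `3` with
exponent at most two (weight `M = 9 / 4`).
-/

namespace OddCov

open Finset

namespace Cap

theorem four_mul (s t : ℕ) : 4 * (s : ℝ) * ((t - s : ℕ) : ℝ) ≤ (t : ℝ) ^ 2 := by
  rcases le_total t s with h | h
  · rw [Nat.sub_eq_zero_of_le h]
    simp only [Nat.cast_zero, mul_zero]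
    positivity
  · rw [Nat.cast_sub h]
    nlinarith [sq_nonneg ((t : ℝ) - 2 * s)]

/-- the growth caused by a prime with exponent at most one -/
theorem grow (p γ s0 : ℕ) (Fh : ℕ → ℝ) (hp : 0 < p) (hγ : γ ≤ 1) (hs : s0 < p) (hc : Conv Fh)
    (t : ℕ) :
    Fh t + rhoM p s0 t * Xop p γ Fh t ≤
      Fh t + (Fh (2 * t) - Fh t) / ((p : ℝ) - (min t s0 : ℕ)) := by
  have hp0 : (0 : ℝ) < p := by exact_mod_cast hp
  have hs' : (s0 : ℝ) < p := by exact_mod_cast hs
  have hd := StepMAux.den hs' t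
  have hm : Fh t ≤ Fh (2 * t) := hc.mono (by omega)
  rcases Nat.lt_or_ge γ 1 with h | h
  · have : γ = 0 := by omega
    subst this
    have h2 : Xop p 0 Fh t = 0 := by simp [Xop]
    rw [h2, mul_zero]
    have := div_nonneg (sub_nonneg.2 hm) hd.le
    linarith
  · have : γ = 1 := by omega
    subst this
    have h2 : Xop p 1 Fh t = (p : ℝ)⁻¹ * (Fh (2 * t) - Fh t) := by
      simp [Xop]
    rw [h2]
    unfold rhoM
    refine le_of_eq ?_
    field_simp

theorem st_cap (p γ s0 Q : ℕ) (w w' : ℕ → ℕ → ℝ) (K K' : ℝ) (hp : p.Prime) (hγ : γ ≤ 1)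
    (hcop : Nat.Coprime p Q) (hQ : 0 < Q) (hs : 1 ≤ s0) (hsp : s0 < p) (hSt : St Q w K)
    (hside : 4 * K * ((s0 - 1 : ℕ) : ℝ) ^ 2 ≤ (p : ℝ) - s0 + 1)
    (hK : K * (1 + 3 / ((p : ℝ) - s0)) + 1 / (4 * s0 * ((p : ℝ) - s0)) ≤ K')
    (hw : ∀ i j, w i j + ((w (i + 1) j - w i j) + ((2 ^ i * 3 ^ j - s0 : ℕ) : ℝ)) /
        ((p : ℝ) - (min (2 ^ i * 3 ^ j) s0 : ℕ)) ≤ w' i j ∨
      K' * ((2 : ℝ) ^ i * 3 ^ j) ^ 2 ≤ w' i j) :
    St (p ^ γ * Q) w' K' := by
  obtain ⟨Fh, hconv, hgood, hFw, hFK⟩ := hSt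
  have hp0 : (0 : ℝ) < p := by exact_mod_cast hp.pos
  have hs' : (s0 : ℝ) < p := by exact_mod_cast hsp
  have hs1 : (s0 : ℝ) + 1 ≤ p := by exact_mod_cast hsp
  have hs0 : (1 : ℝ) ≤ s0 := by exact_mod_cast hs
  have hK0 : 0 ≤ K := by
    have h1 : Fh 0 ≤ Fh 1 := hconv.mono (by norm_num)
    rw [hconv.zero] at h1
    have h2 := hFK 1
    simp at h2
    linarith
  have hG := stmtStepM p γ s0 Q (p : ℝ) Fh
    (fun t => Fh t + rhoM p s0 t * Xop p γ Fh t + hinM p s0 t) hp hcop hQ hs'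
    (by nlinarith)
    (by
      rcases Nat.lt_or_ge γ 1 with h | h
      · have : γ = 0 := by omega
        subst this
        simp
      · have : γ = 1 := by omega
        subst this
        simp [hp0.ne'])
    hgood
    (by
      rcases Nat.lt_or_ge γ 1 with h | h
      · have : γ = 0 := by omega
        subst this
        simp only [Finset.Icc_eq_empty (show ¬ (1 : ℕ) ≤ 0 by norm_num), Finset.sum_empty]
        exact div_nonneg (by linarith) hp0.le
      · have : γ = 1 := by omega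
        subst this
        simp only [Finset.Icc_self, Finset.sum_singleton, pow_one]
        have h1 := hFK ((1 + 1) * (s0 - 1))
        have h2 : K * (((1 + 1) * (s0 - 1) : ℕ) : ℝ) ^ 2 = 4 * K * ((s0 - 1 : ℕ) : ℝ) ^ 2 := by
          push_cast
          ring
        rw [h2] at h1
        rw [div_eq_inv_mul]
        exact mul_le_mul_of_nonneg_left (h1.trans hside) (by positivity))
    (fun t => le_rfl)
  obtain ⟨F2, hc2, hle, hG2⟩ := stmtExact _ _ hG
  have hin_eq : ∀ t : ℕ, hinM (p : ℝ) s0 t = ((t - s0 : ℕ) : ℝ) / ((p : ℝ) - (min t s0 : ℕ)) := by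
    intro t
    unfold hinM
    rcases le_total t s0 with h | h
    · rw [Nat.sub_eq_zero_of_le h]
      simp
    · rw [Nat.min_eq_right h]
  have hquad : ∀ t : ℕ, F2 t ≤ K' * (t : ℝ) ^ 2 := by
    intro t
    refine (hle t).trans ?_
    have h1 := grow p γ s0 Fh hp.pos hγ hsp hconv t
    have hd := StepMAux.den hs' t
    have hmin : ((min t s0 : ℕ) : ℝ) ≤ s0 := by exact_mod_cast min_le_right _ _
    have hd1 : 1 ≤ (p : ℝ) - (min t s0 : ℕ) := by linarith
    have hds : (0 : ℝ) < (p : ℝ) - s0 := by linarith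
    set D : ℝ := (p : ℝ) - (min t s0 : ℕ) with hD
    have h2 : Fh t + (Fh (2 * t) - Fh t) / D ≤ K * (t : ℝ) ^ 2 * (1 + 3 / ((p : ℝ) - s0)) := by
      have e1 : Fh t + (Fh (2 * t) - Fh t) / D = Fh t * (1 - 1 / D) + Fh (2 * t) * (1 / D) := by
        ring
      have e2 : 0 ≤ 1 - 1 / D := by
        rw [sub_nonneg, div_le_one (by linarith)]
        exact hd1
      have e3 : 0 ≤ 1 / D := by positivity
      have e4 := mul_le_mul_of_nonneg_right (hFK t) e2
      have e5 := mul_le_mul_of_nonneg_right (hFK (2 * t)) e3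
      have e6 : K * (t : ℝ) ^ 2 * (1 - 1 / D) + K * ((2 * t : ℕ) : ℝ) ^ 2 * (1 / D) =
          K * (t : ℝ) ^ 2 * (1 + 3 * (1 / D)) := by
        push_cast
        ring
      have e7 : 1 / D ≤ 1 / ((p : ℝ) - s0) :=
        one_div_le_one_div_of_le hds (by linarith)
      have e8 : K * (t : ℝ) ^ 2 * (1 + 3 * (1 / D)) ≤
          K * (t : ℝ) ^ 2 * (1 + 3 / ((p : ℝ) - s0)) := by
        refine mul_le_mul_of_nonneg_left ?_ (by positivity)
        rw [← mul_one_div 3 ((p : ℝ) - s0)]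
        linarith
      linarith
    have h3 : hinM (p : ℝ) s0 t ≤ 1 / (4 * s0 * ((p : ℝ) - s0)) * (t : ℝ) ^ 2 := by
      unfold hinM
      have h4 := four_mul s0 t
      rw [one_div_mul_eq_div, div_le_div_iff₀ hds (by positivity)]
      nlinarith
    have h5 : K * (t : ℝ) ^ 2 * (1 + 3 / ((p : ℝ) - s0)) +
        1 / (4 * s0 * ((p : ℝ) - s0)) * (t : ℝ) ^ 2 ≤ K' * (t : ℝ) ^ 2 := by
      have := mul_le_mul_of_nonneg_right hK (sq_nonneg (t : ℝ))
      linarith
    linarith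
  refine ⟨F2, hc2, hG2, fun i j => ?_, hquad⟩
  rcases hw i j with h | h
  · refine (hle _).trans ?_
    have h1 := grow p γ s0 Fh hp.pos hγ hsp hconv (2 ^ i * 3 ^ j)
    rw [hin_eq]
    have hmin : ((min (2 ^ i * 3 ^ j) s0 : ℕ) : ℝ) ≤ s0 := by exact_mod_cast min_le_right _ _
    have hd1 : 1 ≤ (p : ℝ) - (min (2 ^ i * 3 ^ j) s0 : ℕ) := by linarith
    set D : ℝ := (p : ℝ) - (min (2 ^ i * 3 ^ j) s0 : ℕ) with hD
    have e1 : Fh (2 ^ i * 3 ^ j) + (Fh (2 * (2 ^ i * 3 ^ j)) - Fh (2 ^ i * 3 ^ j)) / D =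
        Fh (2 ^ i * 3 ^ j) * (1 - 1 / D) + Fh (2 * (2 ^ i * 3 ^ j)) * (1 / D) := by ring
    have e2 : 0 ≤ 1 - 1 / D := by
      rw [sub_nonneg, div_le_one (by linarith)]
      exact hd1
    have e3 : 0 ≤ 1 / D := by positivity
    have e4 := mul_le_mul_of_nonneg_right (hFw i j) e2
    have e5' : Fh (2 * (2 ^ i * 3 ^ j)) ≤ w (i + 1) j := by
      have := hFw (i + 1) j
      rwa [show 2 ^ (i + 1) * 3 ^ j = 2 * (2 ^ i * 3 ^ j) by rw [pow_succ]; ring] at this
    have e5 := mul_le_mul_of_nonneg_right e5' e3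
    have e6 : w i j + ((w (i + 1) j - w i j) + ((2 ^ i * 3 ^ j - s0 : ℕ) : ℝ)) / D =
        w i j * (1 - 1 / D) + w (i + 1) j * (1 / D) + ((2 ^ i * 3 ^ j - s0 : ℕ) : ℝ) / D := by
      ring
    rw [e6] at h
    linarith
  · refine (hquad _).trans (le_trans (le_of_eq ?_) h)
    push_cast
    ring

/-! ## the checker -/

/-- one row -/
def capRow (p s0 K : ℕ) : ℕ → List ℕ → List ℕ → List ℕ
  | t, v :: vs, u =>
      (v + (hd (4 * (K * (t * t))) u - v + SC * (t - s0)) / (p - min t s0) + 1) ::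
        capRow p s0 K (3 * t) vs u.tail
  | _, [], _ => []

/-- all rows -/
def capTab (p s0 K : ℕ) : ℕ → List (List ℕ) → List (List ℕ)
  | t, v :: vs => capRow p s0 K t v (vs.headD []) :: capTab p s0 K (2 * t) vs
  | _, [] => []

/-- the step of the checker for a prime `p` with exponent at most one -/
def capStep (p s0 : ℕ) (V : List (List ℕ)) (K : ℕ) : Option (List (List ℕ) × ℕ) :=
  if 1 ≤ s0 ∧ s0 < p ∧ 4 * K * (s0 - 1) ^ 2 ≤ SC * (p - s0 + 1) then
    some (capTab p s0 K 1 V, K + (3 * K * (4 * s0) + SC) / (4 * s0 * (p - s0)) + 1)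
  else none

theorem capRow_get (p s0 K : ℕ) : ∀ (j t : ℕ) (v u : List ℕ),
    (capRow p s0 K t v u)[j]? = (v[j]?).map fun x =>
      x + ((u[j]?).getD (4 * (K * (t * 3 ^ j * (t * 3 ^ j)))) - x + SC * (t * 3 ^ j - s0)) /
        (p - min (t * 3 ^ j) s0) + 1
  | 0, t, v, u => by
      cases v with
      | nil => simp [capRow]
      | cons x vs => simp [capRow, bsd_hd]
  | j + 1, t, v, u => by
      cases v with
      | nil => simp [capRow]
      | cons x vs =>
        rw [capRow, List.getElem?_cons_succ, capRow_get p s0 K j (3 * t) vs u.tail,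
          List.getElem?_cons_succ, bsd_tl]
        have e : 3 * t * 3 ^ j = t * 3 ^ (j + 1) := by ring
        rw [e]

theorem capTab_ent (p s0 K : ℕ) : ∀ (i j t : ℕ) (V : List (List ℕ)),
    ent (capTab p s0 K t V) i j = (ent V i j).map fun x =>
      x + ((ent V (i + 1) j).getD (4 * (K * (t * 2 ^ i * 3 ^ j * (t * 2 ^ i * 3 ^ j)))) - x +
        SC * (t * 2 ^ i * 3 ^ j - s0)) / (p - min (t * 2 ^ i * 3 ^ j) s0) + 1
  | 0, j, t, V => by
      cases V with
      | nil => simp [capTab, bsd_nil]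
      | cons v vs =>
        rw [capTab, bsd_zero, bsd_zero, capRow_get, bsd_headD, bsd_succ]
        simp
  | i + 1, j, t, V => by
      cases V with
      | nil => simp [capTab, bsd_nil]
      | cons v vs =>
        rw [capTab, bsd_succ, bsd_succ, capTab_ent p s0 K i j (2 * t) vs, bsd_succ]
        have e : 2 * t * 2 ^ i = t * 2 ^ (i + 1) := by ring
        rw [e]

theorem SC_pos : (0 : ℝ) < (SC : ℝ) := by norm_num [SC]

theorem cast_sub_le (a b : ℕ) : (a : ℝ) - b ≤ ((a - b : ℕ) : ℝ) := by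
  rcases le_total a b with h | h
  · rw [Nat.sub_eq_zero_of_le h]
    have : (a : ℝ) ≤ b := by exact_mod_cast h
    simp only [Nat.cast_zero]
    linarith
  · rw [Nat.cast_sub h]

theorem div_add_one_ge (a b : ℕ) (hb : 0 < b) : (a : ℝ) / b ≤ ((a / b : ℕ) : ℝ) + 1 := by
  have hb0 : (0 : ℝ) < b := by exact_mod_cast hb
  rw [div_le_iff₀ hb0]
  have h : a < (a / b + 1) * b := by
    have := Nat.lt_div_mul_add (a := a) hb
    linarith
  have h' : (a : ℝ) < (((a / b : ℕ) : ℝ) + 1) * b := by exact_mod_cast h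
  linarith

theorem capStep_sound {p s0 K K' : ℕ} {V V' : List (List ℕ)}
    (h : capStep p s0 V K = some (V', K')) (hp : p.Prime) {γ Q : ℕ} (hγ : γ ≤ 1)
    (hcop : Nat.Coprime p Q) (hQ : 0 < Q) (hSt : St Q (wT V K) ((K : ℝ) / SC)) :
    St (p ^ γ * Q) (wT V' K') ((K' : ℝ) / SC) := by
  unfold capStep at h
  split_ifs at h with hcond
  obtain ⟨hs, hsp, hside⟩ := hcond
  rw [Option.some.injEq, Prod.mk.injEq] at h
  obtain ⟨rfl, rfl⟩ := h
  have hSC := SC_pos
  have hs0 : (1 : ℝ) ≤ s0 := by exact_mod_cast hs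
  have hsp' : (s0 : ℝ) + 1 ≤ p := by exact_mod_cast hsp
  have hds : (0 : ℝ) < (p : ℝ) - s0 := by linarith
  have hcast : ((p - s0 : ℕ) : ℝ) = (p : ℝ) - s0 := Nat.cast_sub hsp.le
  refine st_cap p γ s0 Q (wT V K) _ ((K : ℝ) / SC) _ hp hγ hcop hQ hs hsp hSt ?_ ?_ ?_
  · have h1 : (4 : ℝ) * K * ((s0 - 1 : ℕ) : ℝ) ^ 2 ≤ SC * (((p - s0 : ℕ) : ℝ) + 1) := by
      exact_mod_cast hside
    rw [hcast] at h1
    have e : 4 * ((K : ℝ) / SC) * ((s0 - 1 : ℕ) : ℝ) ^ 2 =
        (4 * K * ((s0 - 1 : ℕ) : ℝ) ^ 2) / SC := by ring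
    rw [e, div_le_iff₀ hSC]
    linarith
  · have h1 := div_add_one_ge (3 * K * (4 * s0) + SC) (4 * s0 * (p - s0))
      (Nat.mul_pos (by omega) (by omega))
    push_cast at h1
    rw [hcast] at h1
    have e : (K : ℝ) / SC * (1 + 3 / ((p : ℝ) - s0)) + 1 / (4 * s0 * ((p : ℝ) - s0)) =
        (K + (3 * K * (4 * s0) + SC) / (4 * s0 * ((p : ℝ) - s0))) / SC := by
      field_simp
      ring
    rw [e]
    refine div_le_div_of_nonneg_right ?_ hSC.le
    push_cast
    linarith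
  · intro i j
    have hent := capTab_ent p s0 K i j 1 V
    rw [one_mul] at hent
    rcases hx : ent V i j with _ | x
    · right
      rw [hx, Option.map_none] at hent
      unfold wT
      rw [hent, Option.getD_none]
      refine le_of_eq ?_
      push_cast
      ring
    · left
      rw [hx, Option.map_some] at hent
      set t := 2 ^ i * 3 ^ j with ht
      set u := (ent V (i + 1) j).getD (4 * (K * (t * t))) with hu
      have hwu : wT V K (i + 1) j = (u : ℝ) / SC := by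
        unfold wT
        congr 2
        rw [hu]
        congr 1
        rw [ht, pow_succ]
        ring
      have hwx : wT V K i j = (x : ℝ) / SC := by
        unfold wT
        rw [hx, Option.getD_some]
      have hw' : wT (capTab p s0 K 1 V) (K + (3 * K * (4 * s0) + SC) / (4 * s0 * (p - s0)) + 1) i j =
          ((x + (u - x + SC * (t - s0)) / (p - min t s0) + 1 : ℕ) : ℝ) / SC := by
        unfold wT
        rw [hent, Option.getD_some]
      rw [hwu, hwx, hw']
      have hmin : min t s0 < p := lt_of_le_of_lt (min_le_right _ _) hsp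
      have hcast2 : ((p - min t s0 : ℕ) : ℝ) = (p : ℝ) - (min t s0 : ℕ) := Nat.cast_sub hmin.le
      have hd : (0 : ℝ) < (p : ℝ) - (min t s0 : ℕ) := by
        rw [← hcast2]
        exact_mod_cast (by omega : 0 < p - min t s0)
      have h1 := div_add_one_ge (u - x + SC * (t - s0)) (p - min t s0) (by omega)
      rw [hcast2] at h1
      have h2 := cast_sub_le u x
      have h3 : ((u : ℝ) - x + SC * ((t - s0 : ℕ) : ℝ)) / ((p : ℝ) - (min t s0 : ℕ)) ≤
          (((u - x + SC * (t - s0) : ℕ)) : ℝ) / ((p : ℝ) - (min t s0 : ℕ)) := by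
        refine div_le_div_of_nonneg_right ?_ hd.le
        push_cast
        linarith
      have e : (x : ℝ) / SC + ((u : ℝ) / SC - (x : ℝ) / SC + ((t - s0 : ℕ) : ℝ)) /
          ((p : ℝ) - (min t s0 : ℕ)) =
          (x + ((u : ℝ) - x + SC * ((t - s0 : ℕ) : ℝ)) / ((p : ℝ) - (min t s0 : ℕ))) / SC := by
        field_simp
      rw [e]
      refine div_le_div_of_nonneg_right ?_ hSC.le
      push_cast
      push_cast at h1 h3
      linarith

/-! ## the terminal step at `3` with exponent at most two -/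

theorem fin_three (γ Q : ℕ) (w : ℕ → ℕ → ℝ) (K : ℝ) (r : ℕ → ℤ) (hγ : γ ≤ 2) (hQ : 0 < Q)
    (hcop : Nat.Coprime 3 Q) (hSt : St Q w K)
    (hlt : 2 / 5 * w 0 0 + 2 / 5 * w 1 0 + 1 / 5 * w 0 1 < 1) :
    ∃ x : ℤ, Avoids (3 ^ γ * Q) (fun m => {r m}) x := by
  obtain ⟨Fh, hconv, hgood, hFw, hFK⟩ := hSt
  have hG := stmtStepM 3 γ 1 Q (9 / 4) Fh
    (fun t => Fh t + rhoM (9 / 4) 1 t * Xop 3 γ Fh t + hinM (9 / 4) 1 t) Nat.prime_three hcop hQ
    (by norm_num) (by norm_num)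
    (by
      have : γ = 0 ∨ γ = 1 ∨ γ = 2 := by omega
      rcases this with rfl | rfl | rfl
      · simp
      · norm_num
      · rw [show Finset.Icc 1 2 = {1, 2} from rfl, Finset.sum_pair (by norm_num)]
        norm_num)
    hgood
    (by
      have h0 : ∀ j ∈ Finset.Icc 1 γ, (((3 : ℕ) : ℝ)⁻¹) ^ j * Fh ((j + 1) * (1 - 1)) = 0 := by
        intro j _
        rw [Nat.sub_self, mul_zero, hconv.zero, mul_zero]
      rw [Finset.sum_eq_zero h0]
      norm_num)
    (fun t => le_rfl)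
  obtain ⟨g, hg1, hg2, hg3⟩ := hG
  apply hg3
  have h1 : Phi (3 ^ γ * Q) g (fun m => {r m}) = ∑ m ∈ (3 ^ γ * Q).divisors.erase 1, g m 1 := by
    unfold Phi
    exact Finset.sum_congr rfl fun m _ => by rw [Multiset.card_singleton]
  rw [h1]
  refine lt_of_le_of_lt (hg2 1) ?_
  beta_reduce
  have hr : rhoM (9 / 4) 1 1 = 9 / 5 := by
    unfold rhoM
    norm_num
  have hh : hinM (9 / 4) 1 1 = 0 := by
    unfold hinM
    norm_num
  rw [hr, hh, add_zero]
  have f1 := hFw 0 0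
  have f2 := hFw 1 0
  have f3 := hFw 0 1
  norm_num at f1 f2 f3
  have m1 : Fh 1 ≤ Fh 2 := hconv.mono (by norm_num)
  have m2 : Fh 2 ≤ Fh 3 := hconv.mono (by norm_num)
  have : γ = 0 ∨ γ = 1 ∨ γ = 2 := by omega
  rcases this with rfl | rfl | rfl
  · simp only [Xop, Finset.Icc_eq_empty (show ¬ (1 : ℕ) ≤ 0 by norm_num), Finset.sum_empty]
    linarith
  · simp only [Xop, Finset.Icc_self, Finset.sum_singleton]
    norm_num
    linarith
  · simp only [Xop]
    rw [show Finset.Icc 1 2 = {1, 2} from rfl, Finset.sum_pair (by norm_num)]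
    norm_num
    linarith

end Cap

end OddCov

end

section

/-!
# MP_b5285d_nt: scenarios with excluded primes and capped exponents, starting from the state at 23
-/

set_option maxRecDepth 100000

namespace OddCov

open Finset

namespace Cap

/-- all prime factors are `≥ a`, not in `E`, and the exponents of the primes below `P1` are at most
one -/
def RC (E : Finset ℕ) (P1 a Q : ℕ) : Prop :=
  Rough E a Q ∧ ∀ p, p.Prime → p < P1 → Q.factorization p ≤ 1

theorem rc_step {E : Finset ℕ} {P1 a b s0 K K' : ℕ} {V V' : List (List ℕ)} (ha : a.Prime)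
    (haP : a < P1) (hab : ∀ q, q.Prime → a < q → q < b → q ∈ E)
    (hrun : capStep a s0 V K = some (V', K'))
    (h : ∀ Q, RC E P1 b Q → St Q (wT V K) ((K : ℝ) / SC)) :
    ∀ Q, RC E P1 a Q → St Q (wT V' K') ((K' : ℝ) / SC) := by
  intro Q hQ
  obtain ⟨⟨hpos, hpr⟩, hcap⟩ := hQ
  have hQ0 : Q ≠ 0 := hpos.ne'
  set Q' := ordCompl[a] Q with hQ'
  have hdvd : Q' ∣ Q := Nat.ordCompl_dvd Q a
  have hpos' : 0 < Q' := Nat.ordCompl_pos a hQ0
  have hnd : ¬ a ∣ Q' := Nat.not_dvd_ordCompl ha hQ0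
  have hRC : RC E P1 b Q' := by
    refine ⟨⟨hpos', fun p hp hd => ?_⟩, fun p hp hlt => ?_⟩
    · obtain ⟨h1, h2⟩ := hpr p hp (hd.trans hdvd)
      refine ⟨?_, h2⟩
      have hne : a ≠ p := by
        rintro rfl
        exact hnd hd
      by_contra hlt
      exact h2 (hab p hp (lt_of_le_of_ne h1 hne) (not_le.1 hlt))
    · exact le_trans ((Nat.factorization_le_iff_dvd hpos'.ne' hQ0).2 hdvd p) (hcap p hp hlt)
  have e : Q = a ^ Q.factorization a * Q' := (Nat.ordProj_mul_ordCompl_eq_self Q a).symm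
  rw [e]
  exact capStep_sound hrun ha (hcap a ha haP) (Nat.coprime_ordCompl ha hQ0) hpos' (h Q' hRC)

/-- a list of capped steps -/
def capRun : List (ℕ × ℕ) → List (List ℕ) → ℕ → Option (List (List ℕ) × ℕ)
  | [], V, K => some (V, K)
  | (a, s0) :: l, V, K =>
      match capStep a s0 V K with
      | none => none
      | some (V', K') => capRun l V' K'

/-- validity of a list of capped primes below `b` -/
def CapsOK (E : Finset ℕ) (P1 : ℕ) : ℕ → List (ℕ × ℕ) → Prop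
  | _, [] => True
  | b, (a, _) :: l => a.Prime ∧ a < P1 ∧ (∀ q, q.Prime → a < q → q < b → q ∈ E) ∧ CapsOK E P1 a l

/-- the last prime -/
def lastC : ℕ → List (ℕ × ℕ) → ℕ
  | b, [] => b
  | _, (a, _) :: l => lastC a l

theorem capRun_sound (E : Finset ℕ) (P1 : ℕ) : ∀ (l : List (ℕ × ℕ)) (b K K' : ℕ)
    (V V' : List (List ℕ)), capRun l V K = some (V', K') →
    (∀ Q, RC E P1 b Q → St Q (wT V K) ((K : ℝ) / SC)) → CapsOK E P1 b l →
    ∀ Q, RC E P1 (lastC b l) Q → St Q (wT V' K') ((K' : ℝ) / SC)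
  | [], b, K, K', V, V', hrun, h, _ => by
      rw [capRun, Option.some.injEq, Prod.mk.injEq] at hrun
      obtain ⟨rfl, rfl⟩ := hrun
      exact h
  | (a, s0) :: l, b, K, K', V, V', hrun, h, hok => by
      rw [capRun] at hrun
      rcases hst : capStep a s0 V K with _ | ⟨V1, K1⟩
      · rw [hst] at hrun
        simp at hrun
      · rw [hst] at hrun
        obtain ⟨h1, h2, h3, h4⟩ := hok
        exact capRun_sound E P1 l a K1 K' V1 V' hrun (rc_step h1 h2 h3 hst h) h4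

/-- one scenario: unlimited primes `seg`, then capped primes `caps`, then a final check -/
def scn (seg : List (ℕ × ℕ × ℕ)) (caps : List (ℕ × ℕ)) (chk : List (List ℕ) → ℕ → Bool) : Bool :=
  match runBlocks seg V23 K23 with
  | none => false
  | some (V, K) =>
    match capRun caps V K with
    | none => false
    | some (V', K') => chk V' K'

theorem scn_sound {E : Finset ℕ} {P1 : ℕ} {seg : List (ℕ × ℕ × ℕ)} {caps : List (ℕ × ℕ)}
    {chk : List (List ℕ) → ℕ → Bool} (h : scn seg caps chk = true) (hseg : BlocksOK E 23 seg)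
    (hcaps : CapsOK E P1 (lastA 23 seg) caps) (Q : ℕ)
    (hQ : RC E P1 (lastC (lastA 23 seg) caps) Q) :
    ∃ (V : List (List ℕ)) (K : ℕ), St Q (wT V K) ((K : ℝ) / SC) ∧ chk V K = true := by
  unfold scn at h
  rcases h1 : runBlocks seg V23 K23 with _ | ⟨V, K⟩
  · rw [h1] at h
    simp at h
  · rw [h1] at h
    simp only at h
    rcases h2 : capRun caps V K with _ | ⟨V', K'⟩
    · rw [h2] at h
      simp at h
    · rw [h2] at h
      simp only at h
      have s1 := runSound_all E seg 23 K23 K V23 V h1 (st23_all E) hseg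
      have s2 := capRun_sound E P1 caps (lastA 23 seg) K K' V V' h2 (fun Q hQ => s1 Q hQ.1) hcaps
      exact ⟨V', K', s2 Q hQ, h⟩

/-- entry with default -/
def gE (V : List (List ℕ)) (K i j : ℕ) : ℕ := (ent V i j).getD (K * (2 ^ i * 3 ^ j) ^ 2)

theorem wT_gE (V : List (List ℕ)) (K i j : ℕ) : wT V K i j = (gE V K i j : ℝ) / SC := rfl

/-- final check, exponent of three at most two -/
def chkT (V : List (List ℕ)) (K : ℕ) : Bool :=
  decide (2 * gE V K 0 0 + 2 * gE V K 1 0 + gE V K 0 1 < 5 * SC)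

theorem chkT_sound {V : List (List ℕ)} {K : ℕ} (h : chkT V K = true) :
    2 / 5 * wT V K 0 0 + 2 / 5 * wT V K 1 0 + 1 / 5 * wT V K 0 1 < 1 := by
  have h1 := of_decide_eq_true h
  have h2 : (2 : ℝ) * gE V K 0 0 + 2 * gE V K 1 0 + gE V K 0 1 < 5 * SC := by exact_mod_cast h1
  have hSC := SC_pos
  rw [wT_gE, wT_gE, wT_gE]
  have e : 2 / 5 * ((gE V K 0 0 : ℝ) / SC) + 2 / 5 * ((gE V K 1 0 : ℝ) / SC) +
      1 / 5 * ((gE V K 0 1 : ℝ) / SC) =
      (2 * gE V K 0 0 + 2 * gE V K 1 0 + gE V K 0 1) / (5 * SC) := by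
    field_simp
  rw [e, div_lt_one (by positivity)]
  exact h2

/-- final check, unlimited exponent of three -/
def chkU (V : List (List ℕ)) (K : ℕ) : Bool :=
  decide (3 ^ 12 * gE V K 0 0 + 4 * 3 ^ 11 * gE V K 1 0 + 4 * 3 ^ 10 * gE V K 0 1 +
    4 * 3 ^ 9 * gE V K 2 0 + 2 * 3 ^ 8 * (gE V K 2 0 + gE V K 1 1) + 4 * 3 ^ 7 * gE V K 1 1 +
    2 * 3 ^ 6 * (gE V K 1 1 + gE V K 3 0) + 4 * 3 ^ 5 * gE V K 3 0 + 4 * 3 ^ 4 * gE V K 0 2 +
    36 * (2 * gE V K 0 2 + gE V K 2 1) + 12 * (gE V K 0 2 + 2 * gE V K 2 1) +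
    12 * gE V K 2 1 + 1104 * K < 3 ^ 13 * SC)

theorem chkU_sound {V : List (List ℕ)} {K : ℕ} (h : chkU V K = true) :
    wT V K 0 0 + 2 * Lw3 (wT V K) ((K : ℝ) / SC) < 1 := by
  have h1 := of_decide_eq_true h
  have h2 : (3 : ℝ) ^ 12 * gE V K 0 0 + 4 * 3 ^ 11 * gE V K 1 0 + 4 * 3 ^ 10 * gE V K 0 1 +
    4 * 3 ^ 9 * gE V K 2 0 + 2 * 3 ^ 8 * (gE V K 2 0 + gE V K 1 1) + 4 * 3 ^ 7 * gE V K 1 1 +
    2 * 3 ^ 6 * (gE V K 1 1 + gE V K 3 0) + 4 * 3 ^ 5 * gE V K 3 0 + 4 * 3 ^ 4 * gE V K 0 2 +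
    36 * (2 * gE V K 0 2 + gE V K 2 1) + 12 * (gE V K 0 2 + 2 * gE V K 2 1) +
    12 * gE V K 2 1 + 1104 * K < 3 ^ 13 * SC := by exact_mod_cast h1
  have hSC := SC_pos
  simp only [Lw3, wT_gE]
  rw [← sub_pos] at h2 ⊢
  have e : 1 - ((gE V K 0 0 : ℝ) / SC + 2 * (-((gE V K 0 0 : ℝ) / SC) / 3 +
      (1 / 3 - 1 / 3 ^ 2) * ((gE V K 1 0 : ℝ) / SC) + (1 / 3 ^ 2 - 1 / 3 ^ 3) * ((gE V K 0 1 : ℝ) / SC)
    + (1 / 3 ^ 3 - 1 / 3 ^ 4) * ((gE V K 2 0 : ℝ) / SC) +
      (1 / 3 ^ 4 - 1 / 3 ^ 5) * (((gE V K 2 0 : ℝ) / SC + (gE V K 1 1 : ℝ) / SC) / 2)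
    + (1 / 3 ^ 5 - 1 / 3 ^ 6) * ((gE V K 1 1 : ℝ) / SC) +
      (1 / 3 ^ 6 - 1 / 3 ^ 7) * (((gE V K 1 1 : ℝ) / SC + (gE V K 3 0 : ℝ) / SC) / 2)
    + (1 / 3 ^ 7 - 1 / 3 ^ 8) * ((gE V K 3 0 : ℝ) / SC) +
      (1 / 3 ^ 8 - 1 / 3 ^ 9) * ((gE V K 0 2 : ℝ) / SC)
    + (1 / 3 ^ 9 - 1 / 3 ^ 10) * ((2 * ((gE V K 0 2 : ℝ) / SC) + (gE V K 2 1 : ℝ) / SC) / 3)
    + (1 / 3 ^ 10 - 1 / 3 ^ 11) * (((gE V K 0 2 : ℝ) / SC + 2 * ((gE V K 2 1 : ℝ) / SC)) / 3)
    + (1 / 3 ^ 11 - 1 / 3 ^ 12) * ((gE V K 2 1 : ℝ) / SC) + 184 * ((K : ℝ) / SC) / 3 ^ 12)) =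
      ((3 : ℝ) ^ 13 * SC - (3 ^ 12 * gE V K 0 0 + 4 * 3 ^ 11 * gE V K 1 0 +
        4 * 3 ^ 10 * gE V K 0 1 +
    4 * 3 ^ 9 * gE V K 2 0 + 2 * 3 ^ 8 * (gE V K 2 0 + gE V K 1 1) + 4 * 3 ^ 7 * gE V K 1 1 +
    2 * 3 ^ 6 * (gE V K 1 1 + gE V K 3 0) + 4 * 3 ^ 5 * gE V K 3 0 + 4 * 3 ^ 4 * gE V K 0 2 +
    36 * (2 * gE V K 0 2 + gE V K 2 1) + 12 * (gE V K 0 2 + 2 * gE V K 2 1) +
    12 * gE V K 2 1 + 1104 * K)) / (3 ^ 13 * SC) := by
    field_simp
    ring
  rw [e]
  exact div_pos h2 (by positivity)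

/-! ## the kernel runs -/

theorem run_s1 : scn [(19, 1, 6), (17, 1, 4), (13, 1, 4), (11, 1, 3), (5, 1, 1)] [] chkT = true := by
  decide +kernel

theorem run_s2 : scn [(19, 1, 6), (17, 1, 4), (13, 1, 4), (11, 1, 3)] [(5, 2)] chkU = true := by
  decide +kernel

theorem run_s3 : scn [(19, 1, 6), (17, 1, 4), (13, 1, 4), (5, 1, 2)] [] chkU = true := by
  decide +kernel

theorem run_s4 : scn [(19, 1, 6), (17, 1, 6), (11, 1, 3), (5, 1, 1)] [] chkU = true := by
  decide +kernel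

theorem run_s5 : scn [(19, 1, 6), (13, 1, 4), (11, 1, 3), (5, 1, 1)] [] chkU = true := by
  decide +kernel

theorem run_s6 : scn [(17, 1, 4), (13, 1, 4), (11, 1, 3), (5, 1, 1)] [] chkU = true := by
  decide +kernel

theorem run_s7 : scn [(19, 1, 6)] [(17, 6), (13, 4), (11, 4), (7, 2), (5, 1)] chkT = true := by
  decide +kernel

theorem run_s8 : scn [(19, 1, 6), (17, 1, 4), (13, 1, 4), (7, 1, 2)] [(5, 2)] chkT = true := by
  decide +kernel

theorem run_s9 : scn [(19, 1, 6), (17, 1, 4), (11, 1, 3), (7, 1, 2)] [(5, 1)] chkT = true := by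
  decide +kernel

end Cap

end OddCov

end
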